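import Pool.Agent.Work.MP_814647_an.PS.ProductStatement

/-!
# Closing returns without perturbation: the notions in the statement
-/

open Set Filter Topology
open scoped Manifold ContDiff

noncomputable section

namespace Pool.Agent.OmegaStability

/-- The charts of `M` are locally bi-Lipschitz for the metric of `M`. (The distance of a
Riemannian metric has this property.) -/
def HasBilipschitzCharts (M : ClosedManifold) : Prop :=
  ∀ (q x : M.carrier), x ∈ (extChartAt 𝓘(ℝ, EuclideanSpace ℝ (Fin M.dim)) q).source →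
    ∃ L : ℝ, ∃ U ∈ 𝓝 x, ∀ y ∈ U, ∀ z ∈ U,
      ‖extChartAt 𝓘(ℝ, EuclideanSpace ℝ (Fin M.dim)) q y -
          extChartAt 𝓘(ℝ, EuclideanSpace ℝ (Fin M.dim)) q z‖ ≤ L * dist y z ∧
        dist y z ≤ L * ‖extChartAt 𝓘(ℝ, EuclideanSpace ℝ (Fin M.dim)) q y -
          extChartAt 𝓘(ℝ, EuclideanSpace ℝ (Fin M.dim)) q z‖

/-- `μ` is an eigenvalue of the complexification of `D`: `D (v + i w) = μ (v + i w)` for some
`v + i w ≠ 0`. -/
def IsComplexEigenvalue {E : Type*} [NormedAddCommGroup E] [NormedSpace ℝ E] (D : E →L[ℝ] E)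
    (μ : ℂ) : Prop :=
  ∃ v w : E, (v ≠ 0 ∨ w ≠ 0) ∧ D v = μ.re • v - μ.im • w ∧ D w = μ.im • v + μ.re • w

/-- The derivative of `g` at `y`, read in the preferred charts at `y` and `g y`. -/
def derivativeAt {M : ClosedManifold} (g : M.carrier → M.carrier) (y : M.carrier) :
    EuclideanSpace ℝ (Fin M.dim) →L[ℝ] EuclideanSpace ℝ (Fin M.dim) :=
  mfderiv 𝓘(ℝ, EuclideanSpace ℝ (Fin M.dim)) 𝓘(ℝ, EuclideanSpace ℝ (Fin M.dim)) g y

/-- `μ` is a multiplier of the fixed point `y` of `g`: an eigenvalue of the derivative of `g`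
at `y`. -/
def IsMultiplier {M : ClosedManifold} (g : M.carrier → M.carrier) (y : M.carrier) (μ : ℂ) :
    Prop :=
  IsComplexEigenvalue (derivativeAt g y) μ

/-- There is a constant `K` such that every orbit segment with `d (x, f^n x) ≤ exp (- K n ^ K)`
is closed by `f` itself: there is a point `y` with `f^n y = y` whose distance from `x` is at most
`exp (K n ^ K)` times `d (x, f^n x)`; there is no other fixed point of `f^n` within
`exp (- K n ^ K)` of `y`; and the moduli of the multipliers of `y` (for `f^n`) are at least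
`exp (- K n ^ K)` away from `1`. -/
def ClosesReturns {M : ClosedManifold} {r : ℕ∞} (f : CrDiffeo M r) : Prop :=
  ∃ K : ℕ, ∀ n : ℕ, 1 ≤ n → ∀ x : M.carrier,
    dist x (f^[n] x) ≤ Real.exp (-(K * (n : ℝ) ^ K)) →
      ∃ y : M.carrier, f^[n] y = y ∧
        dist x y ≤ Real.exp (K * (n : ℝ) ^ K) * dist x (f^[n] x) ∧
        (∀ z : M.carrier, f^[n] z = z → dist y z ≤ Real.exp (-(K * (n : ℝ) ^ K)) → z = y) ∧
        ∀ μ : ℂ, IsMultiplier f^[n] y μ → Real.exp (-(K * (n : ℝ) ^ K)) ≤ |‖μ‖ - 1|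

end Pool.Agent.OmegaStability
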