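import Pool.Agent.Work.MP_814647_an.QS.ClosingStatement
import Pool.Agent.Work.MP_814647_an.Bd.B05
import Pool.Agent.Work.MP_814647_an.FinHyp

/-!
# Closing returns without perturbation: notions used in the proof
-/

set_option autoImplicit false

open Set Filter Topology Function
open scoped Manifold ContDiff

noncomputable section

namespace Pool.Agent.OmegaQS

open Pool.Agent.OmegaStab (EE Dyn inCharts crTopology crSet HypLin HypAt)
open Pool.Agent.OmegaStability (ClosedManifold CrDiffeo IsComplexEigenvalue IsMultiplier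
  derivativeAt)

universe u

/-- The model space of `M`. -/
abbrev EM (M : ClosedManifold.{u}) : Type := EE M.dim

/-- The chart at `q`. -/
abbrev ch (M : ClosedManifold.{u}) (q : M.carrier) : PartialEquiv M.carrier (EM M) :=
  extChartAt (𝓡 M.dim) q

/-- The expression of `g` in the charts at `q` and `q'`. -/
abbrev ic (M : ClosedManifold.{u}) (q q' : M.carrier) (g : M.carrier → M.carrier) :
    EM M → EM M :=
  inCharts (d := M.dim) q q' g

/-- A finite atlas: compact subsets `K i` of the chart domains at `q i`; every ball of radius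
`δ` is contained in some `K i`. -/
structure Atl (M : ClosedManifold.{u}) where
  m : ℕ
  q : Fin m → M.carrier
  K : Fin m → Set M.carrier
  δ : ℝ
  pos : 0 < δ
  cpt : ∀ i, IsCompact (K i)
  sub : ∀ i, K i ⊆ (ch M (q i)).source
  cov : ∀ x, ∃ i, Metric.ball x δ ⊆ K i

/-- `G` is differentiable on the ball of radius `R` about `a`, its derivative is there bounded
by `P` and Lipschitz with constant `Λ`. -/
structure C11 {E : Type*} [NormedAddCommGroup E] [NormedSpace ℝ E] (G : E → E) (a : E)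
    (R P Λ : ℝ) : Prop where
  diff : ∀ u ∈ Metric.ball a R, DifferentiableAt ℝ G u
  bound : ∀ u ∈ Metric.ball a R, ‖fderiv ℝ G u‖ ≤ P
  lip : ∀ u ∈ Metric.ball a R, ∀ w ∈ Metric.ball a R,
    ‖fderiv ℝ G u - fderiv ℝ G w‖ ≤ Λ * ‖u - w‖

/-- Comparison of the metric of `M` with the charts. -/
structure MetOK (M : ClosedManifold.{u}) (A : Atl M) (L : ℕ) : Prop where
  two : 2 ≤ L
  delta : 1 ≤ L * A.δ
  inv : ∀ i, ∀ x ∈ A.K i, ∀ w ∈ Metric.ball (ch M (A.q i) x) (1 / L),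
    w ∈ (ch M (A.q i)).target ∧ dist x ((ch M (A.q i)).symm w) ≤ L * ‖w - ch M (A.q i) x‖
  fwd : ∀ i, ∀ x ∈ A.K i, ∀ y, dist x y < 1 / L →
    y ∈ (ch M (A.q i)).source ∧ ‖ch M (A.q i) y - ch M (A.q i) x‖ ≤ L * dist x y

/-- One step of `g` in the charts. -/
def U1OK (M : ClosedManifold.{u}) (A : Atl M) (g : M.carrier → M.carrier) (L : ℕ) : Prop :=
  ∀ (i i' : Fin A.m) (x : M.carrier), x ∈ A.K i → g x ∈ A.K i' →
    (∀ w ∈ Metric.ball (ch M (A.q i) x) (1 / L),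
      w ∈ (ch M (A.q i)).target ∧ g ((ch M (A.q i)).symm w) ∈ (ch M (A.q i')).source) ∧
    C11 (ic M (A.q i) (A.q i') g) (ch M (A.q i) x) (1 / L) L L

/-- The iterates of `f` in the charts. -/
def ItOK (M : ClosedManifold.{u}) (A : Atl M) (f : M.carrier → M.carrier) (L : ℕ) : Prop :=
  ∀ (j : ℕ) (i i' : Fin A.m) (x : M.carrier), x ∈ A.K i → f^[j] x ∈ A.K i' →
    (∀ w ∈ Metric.ball (ch M (A.q i) x) ((1 / L) ^ (j + 1)),
      w ∈ (ch M (A.q i)).target ∧ f^[j] ((ch M (A.q i)).symm w) ∈ (ch M (A.q i')).source) ∧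
    C11 (ic M (A.q i) (A.q i') f^[j]) (ch M (A.q i) x) ((1 / L) ^ (j + 1)) (L ^ (j + 1))
      (L ^ (3 * (j + 1)))

/-- `g` is Lipschitz. -/
def LipOK (X : Type*) [MetricSpace X] (g : X → X) (L : ℕ) : Prop :=
  ∀ x y, dist (g x) (g y) ≤ L * dist x y

/-- A family of self-maps of the model space which can be transported to `M` by the chart at
`q`, jointly `C^m`, and equal to the identity at the parameter `p₀`. -/
def LFam (M : ClosedManifold.{u}) {V : Type} [NormedAddCommGroup V] [NormedSpace ℝ V]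
    (q : M.carrier) (m : ℕ) (p₀ : V) (H : V → EM M → EM M) : Prop :=
  ∃ (K₀ : Set (EM M)) (U₀ : Set V), IsCompact K₀ ∧ K₀ ⊆ (ch M q).target ∧ IsOpen U₀ ∧
    p₀ ∈ U₀ ∧ (∀ p ∈ U₀, OmegaStab.Fam.Supp K₀ (H p)) ∧
    ContDiffOn ℝ m (fun z : V × EM M => H z.1 z.2) (U₀ ×ˢ univ) ∧ ∀ w, H p₀ w = w

/-- The scaled bump `τ ^ (m + 1) β (w / τ)` (zero for `τ ≤ 0`). -/
def sb {E : Type*} [NormedAddCommGroup E] [NormedSpace ℝ E] (m : ℕ) (β : E → ℝ) (τ : ℝ)
    (w : E) : ℝ :=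
  if 0 < τ then τ ^ (m + 1) * β (τ⁻¹ • w) else 0

/-- The local affine perturbation with centre `p.1`, scale `p.2.1`, translation `p.2.2.1` and
dilation `p.2.2.2`. -/
def Hf {E : Type*} [NormedAddCommGroup E] [NormedSpace ℝ E] (m : ℕ) (β : E → ℝ)
    (p : E × ℝ × E × ℝ) (w : E) : E :=
  w + sb m β p.2.1 (w - p.1) • (p.2.2.1 + p.2.2.2 • (w - p.1))

/-- Uniform local perturbations of size `σ ^ k` with support of size `σ`. -/
def PertOK (M : ClosedManifold.{u}) (A : Atl M) {r : ℕ∞} (f : CrDiffeo M r)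
    (N : Set (CrDiffeo M r)) (k L : ℕ) : Prop :=
  ∀ (i : Fin A.m) (x : M.carrier) (b v : EM M) (σ s : ℝ), x ∈ A.K i →
    ‖b - ch M (A.q i) x‖ ≤ 1 / L → 0 < σ → σ ≤ 1 / L → ‖v‖ ≤ σ ^ k → |s| ≤ σ ^ k →
    Metric.closedBall b σ ⊆ (ch M (A.q i)).target ∧
    ∃ ψ : CrDiffeo M r, f.trans ψ ∈ N ∧
      (∀ y ∉ (ch M (A.q i)).symm '' Metric.closedBall b σ, ψ y = y) ∧
      ∀ w ∈ Metric.ball b (σ / 2), w + v + s • (w - b) ∈ (ch M (A.q i)).target ∧
        ψ ((ch M (A.q i)).symm w) = (ch M (A.q i)).symm (w + v + s • (w - b))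

/-- The derivative along an almost closed orbit segment without intermediate returns has no
eigenvalue of modulus near one. -/
def GaOK (M : ClosedManifold.{u}) (A : Atl M) (f : M.carrier → M.carrier) (k L : ℕ) : Prop :=
  ∀ (j : ℕ) (i : Fin A.m) (x : M.carrier) (σ : ℝ), 1 ≤ j → x ∈ A.K i → f^[j] x ∈ A.K i →
    0 < σ → σ ≤ 1 → (∀ m, 0 < m → m < j → σ < dist x (f^[m] x)) →
    dist x (f^[j] x) ≤ (σ / L) ^ (k + 1) → ∀ s : ℝ, |s| ≤ (σ / L) ^ k →
      HypLin ((1 + s) • fderiv ℝ (ic M (A.q i) (A.q i) f^[j]) (ch M (A.q i) x))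

/-- Closing of an orbit segment without intermediate returns. -/
def G1OK (X : Type*) [MetricSpace X] (f : X → X) (e L : ℕ) : Prop :=
  ∀ (j : ℕ) (x : X) (σ : ℝ), 1 ≤ j → 0 < σ → σ ≤ 1 →
    (∀ m, 0 < m → m < j → σ < dist x (f^[m] x)) → dist x (f^[j] x) ≤ (σ / L ^ j) ^ (2 * e) →
      ∃ y, f^[j] y = y ∧ dist x y * (σ / L ^ j) ^ e ≤ dist x (f^[j] x)

/-- The multipliers of separated periodic points. -/
def G3OK (M : ClosedManifold.{u}) (f : M.carrier → M.carrier) (e L : ℕ) : Prop :=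
  ∀ (n j : ℕ) (y : M.carrier) (σ : ℝ), 1 ≤ j → 1 ≤ n → j ∣ n → 0 < σ → σ ≤ 1 →
    f^[j] y = y → (∀ m, 0 < m → m < j → σ < dist y (f^[m] y)) →
      ∀ μ : ℂ, IsMultiplier f^[n] y μ → (σ / L) ^ e ≤ |‖μ‖ - 1|

/-- The displacement near a hyperbolic fixed point of `f^n`. -/
def G4OK (M : ClosedManifold.{u}) (f : M.carrier → M.carrier) (e L : ℕ) : Prop :=
  ∀ (n : ℕ) (x y : M.carrier) (ε : ℝ), 1 ≤ n → 0 < ε → ε ≤ 1 → f^[n] y = y →
    (∀ μ : ℂ, IsMultiplier f^[n] y μ → ε ≤ |‖μ‖ - 1|) → dist x y ≤ (ε / L ^ n) ^ e →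
      dist x y * (ε / L ^ n) ^ e ≤ dist x (f^[n] x)

/-- The gap step. -/
def GsOK (M : ClosedManifold.{u}) (f : M.carrier → M.carrier) (e L : ℕ) : Prop :=
  ∀ (n j : ℕ) (x : M.carrier) (σ s : ℝ), 1 ≤ j → j ≤ n → 0 < σ → σ ≤ 1 →
    s ≤ (σ / L ^ n) ^ e → (∀ m, 0 < m → m < j → σ < dist x (f^[m] x)) →
    dist x (f^[j] x) ≤ s → dist x (f^[n] x) ≤ s →
      ∃ y, f^[n] y = y ∧ dist x y * (σ / L ^ n) ^ e ≤ dist x (f^[n] x) ∧
        (∀ z, f^[n] z = z → dist y z ≤ (σ / L ^ n) ^ e → z = y) ∧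
        ∀ μ : ℂ, IsMultiplier f^[n] y μ → (σ / L ^ n) ^ e ≤ |‖μ‖ - 1|

end Pool.Agent.OmegaQS
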