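import Pool.Agent.Work.MP_814647_an.QS.Stmts

/-!
# Block QS, item At: a finite atlas
-/

set_option autoImplicit false

open Set Filter Topology Function
open scoped Manifold ContDiff

noncomputable section

namespace Pool.Agent.OmegaQS

open Pool.Agent.OmegaStab (EE Dyn inCharts crTopology crSet HypLin HypAt)
open Pool.Agent.OmegaStability (ClosedManifold CrDiffeo IsComplexEigenvalue IsMultiplier
  derivativeAt HasBilipschitzCharts OmegaStable ClosesReturns)

universe u

theorem prAt : StAt.{u} := by
  intro M
  have h1 : ∀ x : M.carrier, ∃ C : Set M.carrier, IsCompact C ∧ x ∈ interior C ∧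
      C ⊆ (ch M x).source := fun x =>
    exists_compact_subset (isOpen_extChartAt_source x) (mem_extChartAt_source x)
  choose C hC hx hs using h1
  obtain ⟨t, ht⟩ := isCompact_univ.elim_finite_subcover (fun x => interior (C x))
    (fun x => isOpen_interior) (fun x _ => mem_iUnion.2 ⟨x, hx x⟩)
  obtain ⟨δ, hδ, h⟩ := lebesgue_number_lemma_of_metric (isCompact_univ (X := M.carrier))
    (c := fun i : Fin t.card => interior (C (t.equivFin.symm i))) (fun i => isOpen_interior) (by
      intro x hx'
      obtain ⟨y, hy, hxy⟩ := mem_iUnion₂.1 (ht hx')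
      refine mem_iUnion.2 ⟨t.equivFin ⟨y, hy⟩, ?_⟩
      rw [Equiv.symm_apply_apply]
      exact hxy)
  refine ⟨⟨t.card, fun i => (t.equivFin.symm i : M.carrier), fun i => C (t.equivFin.symm i), δ,
    hδ, fun i => hC _, fun i => hs _, fun x => ?_⟩⟩
  obtain ⟨i, hi⟩ := h x (mem_univ x)
  exact ⟨i, hi.trans interior_subset⟩

end Pool.Agent.OmegaQS
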