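import Pool.Agent.Work.MP_814647_an.QS.Stmts

/-!
# Closing returns without perturbation: item Cc, change of charts at a fixed point
-/

set_option autoImplicit false

open Set Filter Topology Function
open scoped Manifold ContDiff

noncomputable section

namespace Pool.Agent.OmegaQS

open Pool.Agent.OmegaStab (EE Dyn inCharts crTopology crSet HypLin HypAt)
open Pool.Agent.OmegaStability (ClosedManifold CrDiffeo IsComplexEigenvalue IsMultiplier
  derivativeAt HasBilipschitzCharts OmegaStable ClosesReturns)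

universe u

namespace CcQS

open Pool.Agent.OmegaStab (chartDom isOpen_chartDom mem_chartDom contDiffOn_inCharts
  inCharts_apply inCharts_comp contMDiff_iterate)

variable {d : ℕ} {M : Type*} [MetricSpace M] [ChartedSpace (EE d) M] [IsManifold (𝓡 d) ∞ M]

/-- the expression in charts of a `C^1` map has a derivative -/
theorem hasFDerivAt_ic {g : M → M} (hg : ContMDiff (𝓡 d) (𝓡 d) ((1 : ℕ∞) : ℕ∞ω) g) {x y z : M}
    (hz : z ∈ (extChartAt (𝓡 d) x).source) (hgz : g z ∈ (extChartAt (𝓡 d) y).source) :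
    HasFDerivAt (inCharts (d := d) x y g)
      (fderiv ℝ (inCharts (d := d) x y g) (extChartAt (𝓡 d) x z)) (extChartAt (𝓡 d) x z) := by
  have h := (contDiffOn_inCharts (r := 1) hg x y).contDiffAt
    ((isOpen_chartDom x y hg.continuous).mem_nhds (mem_chartDom hz hgz))
  exact (h.differentiableAt (by norm_num)).hasFDerivAt

/-- two chart changes are inverse to each other -/
theorem change_inv {p q x : M} (hp : x ∈ (extChartAt (𝓡 d) p).source)
    (hq : x ∈ (extChartAt (𝓡 d) q).source) (v : EE d) :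
    fderiv ℝ (inCharts (d := d) p q id) (extChartAt (𝓡 d) p x)
      (fderiv ℝ (inCharts (d := d) q p id) (extChartAt (𝓡 d) q x) v) = v := by
  have hid : ContMDiff (𝓡 d) (𝓡 d) ((1 : ℕ∞) : ℕ∞ω) (id : M → M) := contMDiff_id
  have h1 := hasFDerivAt_ic hid hq (y := p) hp
  have h2 := hasFDerivAt_ic hid hp (y := q) hq
  have h3 : inCharts (d := d) q p id (extChartAt (𝓡 d) q x) = extChartAt (𝓡 d) p x :=
    inCharts_apply hq
  rw [← h3] at h2
  have h4 := h2.comp (extChartAt (𝓡 d) q x) h1
  have h5 : (inCharts (d := d) p q id ∘ inCharts (d := d) q p id) =ᶠ[𝓝 (extChartAt (𝓡 d) q x)]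
      fun u => u := by
    filter_upwards [(isOpen_chartDom (d := d) q p (g := (id : M → M)) continuous_id).mem_nhds
      (mem_chartDom hq hp)] with u hu
    rw [Function.comp_apply, inCharts_comp hu]
    exact (extChartAt (𝓡 d) q).right_inv hu.1
  have h6 : HasFDerivAt (fun u : EE d => u) (ContinuousLinearMap.id ℝ (EE d))
      (extChartAt (𝓡 d) q x) := hasFDerivAt_id _
  have h7 := (h6.congr_of_eventuallyEq h5).unique h4
  rw [h3] at h7
  exact (DFunLike.congr_fun h7 v).symm

theorem main {g : M → M} (hg : ContMDiff (𝓡 d) (𝓡 d) ((1 : ℕ∞) : ℕ∞ω) g) {q x : M}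
    (hx : g x = x) (hq : x ∈ (extChartAt (𝓡 d) q).source) : ∃ T : EE d ≃L[ℝ] EE d,
      ∀ v, fderiv ℝ (inCharts (d := d) q q g) (extChartAt (𝓡 d) q x) v =
        T (Pool.Agent.OmegaStab.FinHyp.der (d := d) g x (T.symm v)) := by
  have hid : ContMDiff (𝓡 d) (𝓡 d) ((1 : ℕ∞) : ℕ∞ω) (id : M → M) := contMDiff_id
  have hp : x ∈ (extChartAt (𝓡 d) x).source := mem_extChartAt_source x
  have hgp : g x ∈ (extChartAt (𝓡 d) x).source := by rw [hx]; exact hp
  refine ⟨ContinuousLinearEquiv.equivOfInverse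
    (fderiv ℝ (inCharts (d := d) x q id) (extChartAt (𝓡 d) x x))
    (fderiv ℝ (inCharts (d := d) q x id) (extChartAt (𝓡 d) q x))
    (fun v => change_inv hq hp v) (fun v => change_inv hp hq v), fun v => ?_⟩
  rw [Pool.Agent.OmegaStab.FinHyp.der_eq_fderiv (hg.mdifferentiable (by norm_num)) hx]
  have h1 := hasFDerivAt_ic hid hq (y := x) hp
  have h2 := hasFDerivAt_ic hg hp (y := x) hgp
  have h3 := hasFDerivAt_ic hid hp (y := q) hq
  have e1 : inCharts (d := d) q x id (extChartAt (𝓡 d) q x) = extChartAt (𝓡 d) x x :=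
    inCharts_apply hq
  have e2 : inCharts (d := d) x x g (extChartAt (𝓡 d) x x) = extChartAt (𝓡 d) x x := by
    rw [inCharts_apply hp, hx]
  have h2' : HasFDerivAt (inCharts (d := d) x x g)
      (fderiv ℝ (inCharts (d := d) x x g) (extChartAt (𝓡 d) x x))
      (inCharts (d := d) q x id (extChartAt (𝓡 d) q x)) := by rw [e1]; exact h2
  have h4 := h2'.comp (extChartAt (𝓡 d) q x) h1
  have h3' : HasFDerivAt (inCharts (d := d) x q id)
      (fderiv ℝ (inCharts (d := d) x q id) (extChartAt (𝓡 d) x x))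
      ((inCharts (d := d) x x g ∘ inCharts (d := d) q x id) (extChartAt (𝓡 d) q x)) := by
    rw [Function.comp_apply, e1, e2]; exact h3
  have h5 := h3'.comp (extChartAt (𝓡 d) q x) h4
  have h6 : (inCharts (d := d) x q id ∘ inCharts (d := d) x x g ∘ inCharts (d := d) q x id)
      =ᶠ[𝓝 (extChartAt (𝓡 d) q x)] inCharts (d := d) q q g := by
    filter_upwards [(isOpen_chartDom (d := d) q x (g := (id : M → M)) continuous_id).mem_nhds
      (mem_chartDom hq hp), (isOpen_chartDom (d := d) q x hg.continuous).mem_nhds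
      (mem_chartDom hq hgp)] with u hu hu'
    rw [Function.comp_apply, Function.comp_apply, inCharts_comp hu]
    exact inCharts_comp hu'
  have h7 := (h5.congr_of_eventuallyEq h6.symm).fderiv
  rw [h7]
  rfl

end CcQS

theorem prCc : StCc.{u} := by
  intro M r f q x n hr hx hq
  have h0 : ContMDiff (𝓡 M.dim) (𝓡 M.dim) (r : ℕ∞ω) f^[n] :=
    Pool.Agent.OmegaStab.contMDiff_iterate f.contMDiff n
  exact CcQS.main (h0.of_le (by exact_mod_cast hr)) hx hq

end Pool.Agent.OmegaQS
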