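import Pool.Agent.Work.MP_814647_an.QS.Stmts

set_option autoImplicit false

/-!
# Block QS, item Dv: a metric lemma
-/

open Filter Topology
open scoped Manifold ContDiff

namespace Pool.Agent.OmegaQS

universe u

namespace DvQS

theorem iter {X : Type u} [MetricSpace X] {f : X → X} {L : ℝ} (hL : 0 ≤ L)
    (h : ∀ x y, dist (f x) (f y) ≤ L * dist x y) (m : ℕ) (x y : X) :
    dist (f^[m] x) (f^[m] y) ≤ L ^ m * dist x y := by
  induction m with
  | zero => simp
  | succ m ih =>
    rw [Function.iterate_succ_apply', Function.iterate_succ_apply']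
    calc dist (f (f^[m] x)) (f (f^[m] y)) ≤ L * dist (f^[m] x) (f^[m] y) := h _ _
      _ ≤ L * (L ^ m * dist x y) := mul_le_mul_of_nonneg_left ih hL
      _ = L ^ (m + 1) * dist x y := by ring

theorem per {X : Type u} {f : X → X} {j : ℕ} {y : X} (h : f^[j] y = y) (n : ℕ) :
    f^[n] y = f^[n % j] y := by
  have h1 : ∀ q : ℕ, f^[j * q] y = y := by
    intro q
    rw [Function.iterate_mul]
    exact Function.iterate_fixed h q
  conv_lhs => rw [← Nat.mod_add_div n j, Function.iterate_add_apply, h1]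

end DvQS

theorem prDv : StDv.{u} := by
  intro X _ f L hL hf n j x y σ hj hjn hσ hy hgap hsm hret
  have hLr : (1 : ℝ) ≤ L := by exact_mod_cast hL
  have hit : ∀ (m : ℕ) (a b : X), dist (f^[m] a) (f^[m] b) ≤ (L : ℝ) ^ m * dist a b :=
    fun m a b => DvQS.iter (by linarith) (fun a b => hf a b) m a b
  have hd : 0 ≤ dist x y := dist_nonneg
  have hLn : (1 : ℝ) ≤ (L : ℝ) ^ n := one_le_pow₀ hLr
  have hLm : ∀ m, m ≤ n → (L : ℝ) ^ m * dist x y ≤ (L : ℝ) ^ n * dist x y := fun m hm =>
    mul_le_mul_of_nonneg_right (pow_le_pow_right₀ hLr hm) hd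
  refine ⟨?_, ?_⟩
  · rw [Nat.dvd_iff_mod_eq_zero]
    by_contra hne
    have hb0 : 0 < n % j := Nat.pos_of_ne_zero hne
    have hbj : n % j < j := Nat.mod_lt _ hj
    have h1 := hgap _ hb0 hbj
    have h2 : dist x (f^[n % j] x) ≤ dist x (f^[n] x) + dist (f^[n] x) (f^[n] y) +
        dist (f^[n % j] y) (f^[n % j] x) := by
      rw [DvQS.per hy n]
      exact dist_triangle4 _ _ _ _
    have h3 := hit n x y
    have h4 := hit (n % j) y x
    rw [dist_comm y x] at h4
    have h5 := hLm (n % j) (by omega)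
    linarith
  · intro m hm0 hmj
    have h1 := hgap m hm0 hmj
    have h2 : dist x (f^[m] x) ≤ dist x y + dist y (f^[m] y) + dist (f^[m] y) (f^[m] x) :=
      dist_triangle4 _ _ _ _
    have h4 := hit m y x
    rw [dist_comm y x] at h4
    have h5 := hLm m (by omega)
    have h6 : dist x y ≤ (L : ℝ) ^ n * dist x y := le_mul_of_one_le_left hd hLn
    linarith

end Pool.Agent.OmegaQS
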