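import Pool.Agent.Work.MP_814647_an.QS.Stmts

/-!
# Item Eh: eigenvalue basics
-/

set_option autoImplicit false

open Set Filter Topology Function
open scoped Manifold ContDiff

noncomputable section

namespace Pool.Agent.OmegaQS

open Pool.Agent.OmegaStab (EE Dyn inCharts crTopology crSet HypLin HypAt)
open Pool.Agent.OmegaStability (ClosedManifold CrDiffeo IsComplexEigenvalue IsMultiplier
  derivativeAt HasBilipschitzCharts OmegaStable ClosesReturns)

universe u

namespace EhQS

theorem hyp_iff {d : ℕ} (D : EE d →L[ℝ] EE d) :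
    HypLin D ↔ ∀ μ : ℂ, IsComplexEigenvalue D μ → ‖μ‖ ≠ 1 := by
  constructor
  · rintro h μ ⟨v, w, hne, hv, hw⟩ hμ
    have h0 : μ ≠ 0 := by
      intro h0
      rw [h0, norm_zero] at hμ
      exact zero_ne_one hμ
    have hc : Real.cos (Complex.arg μ) = μ.re := by
      rw [Complex.cos_arg h0, hμ, div_one]
    have hs : Real.sin (Complex.arg μ) = μ.im := by
      rw [Complex.sin_arg, hμ, div_one]
    obtain ⟨h1, h2⟩ := h (Complex.arg μ) v w (by rw [hc, hs, hv]) (by rw [hc, hs, hw])
    rcases hne with hne | hne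
    · exact hne h1
    · exact hne h2
  · intro h θ v w hv hw
    by_contra hcon
    have hne : v ≠ 0 ∨ w ≠ 0 := by
      by_contra h3
      rw [not_or, not_not, not_not] at h3
      exact hcon h3
    refine h (⟨Real.cos θ, Real.sin θ⟩ : ℂ) ⟨v, w, hne, hv, hw⟩ ?_
    rw [Complex.norm_def, Complex.normSq_mk, ← sq, ← sq, Real.cos_sq_add_sin_sq, Real.sqrt_one]

theorem conj_imp {d : ℕ} (D D' : EE d →L[ℝ] EE d) (T : EE d ≃L[ℝ] EE d)
    (h : ∀ v, D' v = T (D (T.symm v))) (μ : ℂ) (hD : IsComplexEigenvalue D μ) :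
    IsComplexEigenvalue D' μ := by
  obtain ⟨v, w, hne, hv, hw⟩ := hD
  refine ⟨T v, T w, ?_, ?_, ?_⟩
  · rcases hne with hne | hne
    · left
      intro h0
      exact hne (T.map_eq_zero_iff.1 h0)
    · right
      intro h0
      exact hne (T.map_eq_zero_iff.1 h0)
  · rw [h, T.symm_apply_apply, hv, map_sub, map_smul, map_smul]
  · rw [h, T.symm_apply_apply, hw, map_add, map_smul, map_smul]

end EhQS

theorem prEh : StEh := by
  intro d D
  refine ⟨EhQS.hyp_iff D, ?_⟩
  intro D' T h μ
  constructor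
  · intro h1
    refine EhQS.conj_imp D' D T.symm ?_ μ h1
    intro v
    rw [T.symm_symm, h, T.symm_apply_apply, T.symm_apply_apply]
  · exact EhQS.conj_imp D D' T h μ

end Pool.Agent.OmegaQS
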