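import Pool.Agent.Work.MP_814647_an.QS.Stmts

/-!
# Item G1: closing without intermediate returns
-/

set_option autoImplicit false

open Set Filter Topology Function
open scoped Manifold ContDiff

noncomputable section

namespace Pool.Agent.OmegaQS

open Pool.Agent.OmegaStab (EE Dyn inCharts crTopology crSet HypLin HypAt)
open Pool.Agent.OmegaStability (ClosedManifold CrDiffeo IsComplexEigenvalue IsMultiplier
  derivativeAt HasBilipschitzCharts OmegaStable ClosesReturns)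

universe u

namespace G1QS

/-- The bound of the inverse from the gap. -/
theorem inv_bound {d j k : ℕ} {C τ L : ℝ} (hτ : 0 < τ) (hL : 8 ≤ L) (hτL : τ * L ≤ 1)
    (hτLj : τ * L ^ j ≤ 1) (hCL : C ≤ L)
    (hC : ∀ (D : EE d →L[ℝ] EE d) (ε P : ℝ), 0 < ε → ‖D‖ ≤ P →
      (∀ μ : ℂ, IsComplexEigenvalue D μ → ε ≤ |‖μ‖ - 1|) →
        ∀ v : EE d, ‖v‖ * ε ^ d ≤ C * (1 + P) ^ d * ‖D v - v‖)
    (D : EE d →L[ℝ] EE d) (hD : ‖D‖ ≤ L ^ (j + 1))
    (hgap : ∀ μ : ℂ, IsComplexEigenvalue D μ → τ ^ k ≤ |‖μ‖ - 1|) (v : EE d) :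
    ‖v‖ ≤ (τ ^ (1 + (k + 3) * d))⁻¹ * ‖D v - v‖ := by
  have h1 := hC D (τ ^ k) (L ^ (j + 1)) (pow_pos hτ _) hD hgap v
  have hLpos : 0 < L := by linarith
  have h2 : τ ^ 3 * (1 + L ^ (j + 1)) ≤ 1 := by
    have h3 : 1 + L ^ (j + 1) ≤ L * L ^ (j + 1) := by
      have h4 : 1 ≤ L ^ (j + 1) := one_le_pow₀ (by linarith)
      nlinarith
    calc τ ^ 3 * (1 + L ^ (j + 1)) ≤ τ ^ 3 * (L * L ^ (j + 1)) :=
          mul_le_mul_of_nonneg_left h3 (by positivity)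
      _ = (τ * L ^ j) * ((τ * L) * (τ * L)) := by ring
      _ ≤ 1 * (1 * 1) := by
          refine mul_le_mul hτLj (mul_le_mul hτL hτL (by positivity) (by norm_num))
            (by positivity) (by norm_num)
      _ = 1 := by norm_num
  have h3 : (τ ^ 3 * (1 + L ^ (j + 1))) ^ d ≤ 1 := pow_le_one₀ (by positivity) h2
  have h4 : τ * C ≤ 1 := (mul_le_mul_of_nonneg_left hCL hτ.le).trans hτL
  have h5 : ‖v‖ * τ ^ (1 + (k + 3) * d) ≤ ‖D v - v‖ := by
    have h6 : ‖v‖ * τ ^ (1 + (k + 3) * d) = τ * (τ ^ 3) ^ d * (‖v‖ * (τ ^ k) ^ d) := by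
      have h7 : 1 + (k + 3) * d = 1 + 3 * d + k * d := by ring
      rw [← pow_mul, ← pow_mul, h7, pow_add, pow_add, pow_one]
      ring
    rw [h6]
    calc τ * (τ ^ 3) ^ d * (‖v‖ * (τ ^ k) ^ d)
        ≤ τ * (τ ^ 3) ^ d * (C * (1 + L ^ (j + 1)) ^ d * ‖D v - v‖) :=
          mul_le_mul_of_nonneg_left h1 (by positivity)
      _ = (τ * C) * (((τ ^ 3) * (1 + L ^ (j + 1))) ^ d * ‖D v - v‖) := by
          rw [mul_pow]; ring
      _ ≤ 1 * (1 * ‖D v - v‖) := by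
          refine mul_le_mul h4 (mul_le_mul_of_nonneg_right h3 (norm_nonneg _)) (by positivity)
            (by norm_num)
      _ = ‖D v - v‖ := by ring
  rw [inv_mul_eq_div, le_div_iff₀ (pow_pos hτ _)]
  exact h5

/-- The Newton step. -/
theorem newt (hIv : StIv) (hNw : StNw) (d k : ℕ) : ∃ C : ℝ, ∀ (j : ℕ) (L τ : ℝ)
    (G : EE d → EE d) (a : EE d), 0 < τ → 8 ≤ L → C ≤ L → τ * L ≤ 1 → τ * L ^ j ≤ 1 →
    C11 G a ((1 / L) ^ (j + 1)) (L ^ (j + 1)) (L ^ (3 * (j + 1))) →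
    (∀ μ : ℂ, IsComplexEigenvalue (fderiv ℝ G a) μ → τ ^ k ≤ |‖μ‖ - 1|) →
    ‖G a - a‖ ≤ L * τ ^ (2 * (1 + (k + 3) * d + 5)) →
    ∃ w, ‖w - a‖ ≤ 2 * (τ ^ (1 + (k + 3) * d))⁻¹ * ‖G a - a‖ ∧ G w = w ∧
      w ∈ Metric.ball a ((1 / L) ^ (j + 1)) := by
  obtain ⟨C, hC1, hC⟩ := hIv d
  refine ⟨C, fun j L τ G a hτ hL hCL hτL hτLj hG hgap hGa => ?_⟩
  have hLpos : 0 < L := by linarith
  have hτ8 : τ ≤ 1 / 8 := by
    rw [le_div_iff₀ (by norm_num)]
    exact (mul_le_mul_of_nonneg_left hL hτ.le).trans hτL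
  set β := 1 + (k + 3) * d with hβ
  have hR0 : 0 < (1 / L) ^ (j + 1) := by positivity
  have ha : a ∈ Metric.ball a ((1 / L) ^ (j + 1)) := Metric.mem_ball_self hR0
  have hinv := inv_bound hτ hL hτL hτLj hCL hC (fderiv ℝ G a) (hG.bound a ha) hgap
  have h2L : τ ^ 2 * L ^ (j + 1) ≤ 1 := by
    calc τ ^ 2 * L ^ (j + 1) = (τ * L ^ j) * (τ * L) := by ring
      _ ≤ 1 * 1 := mul_le_mul hτLj hτL (by positivity) (by norm_num)
      _ = 1 := by norm_num
  have hρR : τ ^ (β + 7) < (1 / L) ^ (j + 1) := by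
    have h3 : τ ^ 2 ≤ (1 / L) ^ (j + 1) := by
      rw [one_div, inv_pow, ← one_div, le_div_iff₀ (by positivity)]
      exact h2L
    have h4 : τ ^ (β + 7) ≤ τ ^ 3 :=
      pow_le_pow_of_le_one hτ.le (by linarith) (by omega)
    have h5 : τ ^ 3 < τ ^ 2 := pow_lt_pow_right_of_lt_one₀ hτ (by linarith) (by norm_num)
    linarith
  have hτβ : 0 < τ ^ β := pow_pos hτ _
  have hB0 : 0 < (τ ^ β)⁻¹ := inv_pos.2 hτβ
  have hprod : 2 * (τ ^ β)⁻¹ * L ^ (3 * (j + 1)) * τ ^ (β + 7) ≤ 1 := by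
    have h3 : 2 * (τ ^ β)⁻¹ * L ^ (3 * (j + 1)) * τ ^ (β + 7) =
        2 * τ * (τ ^ 2 * L ^ (j + 1)) ^ 3 := by
      rw [pow_add τ β 7]
      field_simp
      ring
    rw [h3]
    have h4 : (τ ^ 2 * L ^ (j + 1)) ^ 3 ≤ 1 := pow_le_one₀ (by positivity) h2L
    calc 2 * τ * (τ ^ 2 * L ^ (j + 1)) ^ 3 ≤ 2 * τ * 1 :=
          mul_le_mul_of_nonneg_left h4 (by positivity)
      _ ≤ 1 := by linarith
  have hsmall : 2 * (τ ^ β)⁻¹ * ‖G a - a‖ ≤ τ ^ (β + 7) := by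
    calc 2 * (τ ^ β)⁻¹ * ‖G a - a‖ ≤ 2 * (τ ^ β)⁻¹ * (L * τ ^ (2 * (β + 5))) :=
          mul_le_mul_of_nonneg_left hGa (by positivity)
      _ = τ ^ (β + 7) * ((τ * L) * (2 * τ ^ 2)) := by
          have : 2 * (β + 5) = β + (β + 10) := by ring
          rw [this, pow_add τ β (β + 10)]
          field_simp
          ring
      _ ≤ τ ^ (β + 7) * (1 * 1) := by
          refine mul_le_mul_of_nonneg_left (mul_le_mul hτL ?_ (by positivity) (by norm_num))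
            (by positivity)
          nlinarith
      _ = τ ^ (β + 7) := by ring
  obtain ⟨w, hw1, hw2⟩ := hNw d G a _ _ _ (τ ^ β)⁻¹ (τ ^ (β + 7)) hG (by positivity) hB0
    (pow_pos hτ _) hρR hprod hinv hsmall
  refine ⟨w, hw1, hw2, ?_⟩
  rw [Metric.mem_ball, dist_eq_norm]
  exact (hw1.trans hsmall).trans_lt hρR

end G1QS

open G1QS in
theorem prG1 (hGp : StGp) (hIv : StIv) (hNw : StNw) : StG1.{u} := by
  intro M A f k hMet hIt hGa
  obtain ⟨C, hC⟩ := newt hIv hNw M.dim (k + 1)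
  set β := 1 + (k + 1 + 3) * M.dim with hβ
  refine ⟨β + 5 + k, ?_⟩
  filter_upwards [hMet, hIt, hGa, eventually_ge_atTop 8, eventually_ge_atTop ⌈C⌉₊] with L hM hI
    hG hL8 hLC
  intro j x σ hj hσ hσ1 hret hxj
  have hL : (8 : ℝ) ≤ L := by exact_mod_cast hL8
  have hLpos : (0 : ℝ) < L := by linarith
  have hCL : C ≤ L := (Nat.le_ceil C).trans (by exact_mod_cast hLC)
  have hLj : (L : ℝ) ≤ (L : ℝ) ^ j := by
    calc (L : ℝ) = (L : ℝ) ^ 1 := (pow_one _).symm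
      _ ≤ (L : ℝ) ^ j := pow_le_pow_right₀ (by linarith) hj
  obtain ⟨τ, hτdef⟩ : ∃ τ : ℝ, τ = σ / (L : ℝ) ^ j := ⟨_, rfl⟩
  rw [← hτdef] at hxj ⊢
  have hLj0 : (0 : ℝ) < (L : ℝ) ^ j := by positivity
  have hτ : 0 < τ := by rw [hτdef]; positivity
  have hτLj' : τ * (L : ℝ) ^ j = σ := by rw [hτdef]; field_simp
  have hτLj : τ * (L : ℝ) ^ j ≤ 1 := by rw [hτLj']; exact hσ1
  have hτL : τ * L ≤ 1 := (mul_le_mul_of_nonneg_left hLj hτ.le).trans hτLj
  have hτσL : τ ≤ σ / L := by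
    rw [le_div_iff₀ hLpos, ← hτLj']
    exact mul_le_mul_of_nonneg_left hLj hτ.le
  have hτ8 : τ ≤ 1 / 8 := by
    rw [le_div_iff₀ (by norm_num)]
    exact (mul_le_mul_of_nonneg_left hL hτ.le).trans hτL
  have hτinv : τ ≤ 1 / L := by rwa [le_div_iff₀ hLpos]
  -- the chart
  obtain ⟨i, hi⟩ := A.cov x
  have hxi : x ∈ A.K i := hi (Metric.mem_ball_self A.pos)
  have hd1 : dist x (f^[j] x) < 1 / L := by
    have h1 : τ ^ (2 * (β + 5 + k)) ≤ τ ^ 2 :=
      pow_le_pow_of_le_one hτ.le (by linarith) (by omega)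
    have h2 : τ ^ 2 < τ := by nlinarith
    linarith
  have hδ : 1 / (L : ℝ) ≤ A.δ := by
    rw [div_le_iff₀ hLpos, mul_comm]
    exact hM.delta
  have hxji : f^[j] x ∈ A.K i := by
    apply hi
    rw [Metric.mem_ball, dist_comm]
    exact hd1.trans_le hδ
  have hxs : x ∈ (ch M (A.q i)).source := A.sub i hxi
  set φ := ch M (A.q i) with hφ
  set G := ic M (A.q i) (A.q i) f^[j] with hGdef
  have hGx : G (φ x) = φ (f^[j] x) := OmegaStab.inCharts_apply hxs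
  -- the gap
  have hτσ : τ ≤ σ / L := hτσL
  have hσL1 : σ / L ≤ 1 := by
    rw [div_le_one hLpos]
    linarith
  have hσL0 : 0 < σ / L := by positivity
  have hga1 : dist x (f^[j] x) ≤ (σ / L) ^ (k + 1) := by
    calc dist x (f^[j] x) ≤ τ ^ (2 * (β + 5 + k)) := hxj
      _ ≤ τ ^ (k + 1) := pow_le_pow_of_le_one hτ.le (by linarith) (by omega)
      _ ≤ (σ / L) ^ (k + 1) := pow_le_pow_left₀ hτ.le hτσ _
  have hlin := hG j i x σ hj hxi hxji hσ hσ1 hret hga1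
  have hgap : ∀ μ : ℂ, IsComplexEigenvalue (fderiv ℝ G (φ x)) μ → τ ^ (k + 1) ≤ |‖μ‖ - 1| := by
    intro μ hμ
    have h1 := hGp M.dim (fderiv ℝ G (φ x)) ((σ / L) ^ k) (pow_pos hσL0 _)
      (pow_le_one₀ hσL0.le hσL1) hlin μ hμ
    refine le_trans ?_ h1
    have h2 : τ ^ k ≤ (σ / L) ^ k := pow_le_pow_left₀ hτ.le hτσ _
    have h3 : 0 < τ ^ k := pow_pos hτ _
    rw [pow_succ]
    nlinarith
  -- Newton
  have hnorm : ‖G (φ x) - φ x‖ ≤ L * dist x (f^[j] x) := by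
    rw [hGx]
    exact (hM.fwd i x hxi (f^[j] x) hd1).2
  have hItx := hI j i i x hxi hxji
  obtain ⟨w, hw1, hw2, hw3⟩ := hC j L τ G (φ x) hτ hL hCL hτL hτLj hItx.2 hgap (by
    refine hnorm.trans (mul_le_mul_of_nonneg_left (hxj.trans ?_) hLpos.le)
    exact pow_le_pow_of_le_one hτ.le (by linarith) (by omega))
  obtain ⟨hwt, hws⟩ := hItx.1 w hw3
  refine ⟨φ.symm w, ?_, ?_⟩
  · have h1 : φ (f^[j] (φ.symm w)) = w := hw2
    have h2 := φ.left_inv hws
    rw [h1] at h2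
    exact h2.symm
  · have hwb : w ∈ Metric.ball (φ x) (1 / L) := by
      refine Metric.ball_subset_ball ?_ hw3
      rw [pow_succ]
      have h1 : (1 / (L : ℝ)) ^ j ≤ 1 := pow_le_one₀ (by positivity)
        (by rw [div_le_one hLpos]; linarith)
      exact mul_le_of_le_one_left (by positivity) h1
    have h1 := (hM.inv i x hxi w hwb).2
    calc dist x (φ.symm w) * τ ^ (β + 5 + k)
        ≤ (L * (2 * (τ ^ β)⁻¹ * (L * dist x (f^[j] x)))) * τ ^ (β + 5 + k) := by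
          refine mul_le_mul_of_nonneg_right ?_ (by positivity)
          refine h1.trans (mul_le_mul_of_nonneg_left (hw1.trans ?_) hLpos.le)
          exact mul_le_mul_of_nonneg_left hnorm (by positivity)
      _ = ((τ * L) * (τ * L)) * (2 * τ ^ (3 + k)) * dist x (f^[j] x) := by
          have : β + 5 + k = β + (5 + k) := by ring
          rw [this, pow_add τ β (5 + k)]
          have h3 : τ ^ (5 + k) = τ ^ 2 * τ ^ (3 + k) := by
            rw [← pow_add]; congr 1; ring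
          rw [h3]
          field_simp
      _ ≤ (1 * 1) * 1 * dist x (f^[j] x) := by
          refine mul_le_mul_of_nonneg_right ?_ dist_nonneg
          refine mul_le_mul (mul_le_mul hτL hτL (by positivity) (by norm_num)) ?_
            (by positivity) (by norm_num)
          have h4 : τ ^ (3 + k) ≤ τ ^ 1 := pow_le_pow_of_le_one hτ.le (by linarith) (by omega)
          rw [pow_one] at h4
          linarith
      _ = dist x (f^[j] x) := by ring

end Pool.Agent.OmegaQS
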