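import Pool.Agent.Work.MP_814647_an.QS.Stmts

/-!
# Closing returns without perturbation, item G4: displacement near a hyperbolic point
-/

set_option autoImplicit false

open Set Filter Topology Function
open scoped Manifold ContDiff

noncomputable section

namespace Pool.Agent.OmegaQS

open Pool.Agent.OmegaStab (EE Dyn inCharts crTopology crSet HypLin HypAt)
open Pool.Agent.OmegaStability (ClosedManifold CrDiffeo IsComplexEigenvalue IsMultiplier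
  derivativeAt HasBilipschitzCharts OmegaStable ClosesReturns)

universe u

namespace G4QS

theorem lip_iter {X : Type*} [MetricSpace X] {g : X → X} {L : ℕ} (h : LipOK X g L) (n : ℕ)
    (x y : X) : dist (g^[n] x) (g^[n] y) ≤ (L : ℝ) ^ n * dist x y := by
  induction n generalizing x y with
  | zero => simp
  | succ n ih =>
    rw [iterate_succ_apply, iterate_succ_apply]
    refine (ih _ _).trans ?_
    rw [pow_succ, mul_assoc]
    exact mul_le_mul_of_nonneg_left (h x y) (by positivity)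

/-- the arithmetic of the scales -/
structure Sc (L : ℕ) (n d : ℕ) (ε τ C : ℝ) : Prop where
  tpos : 0 < τ
  t8 : τ ≤ 1 / 8
  tL : τ * L ≤ 1
  te : τ ≤ ε
  tn : τ * (L : ℝ) ^ n ≤ 1
  tC : τ * C ≤ 1

theorem mk_sc {L n d : ℕ} {ε C : ℝ} (hL8 : (8 : ℝ) ≤ L) (hCL : C ≤ L) (hn : 1 ≤ n) (hε : 0 < ε)
    (hε1 : ε ≤ 1) : Sc L n d ε (ε / (L : ℝ) ^ n) C := by
  have hL0 : (0 : ℝ) < L := by linarith
  have hL1 : (1 : ℝ) ≤ L := by linarith
  have hLn : (L : ℝ) ≤ (L : ℝ) ^ n := by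
    calc (L : ℝ) = (L : ℝ) ^ 1 := (pow_one _).symm
      _ ≤ (L : ℝ) ^ n := pow_le_pow_right₀ hL1 hn
  have hLn0 : (0 : ℝ) < (L : ℝ) ^ n := by positivity
  have htn : ε / (L : ℝ) ^ n * (L : ℝ) ^ n = ε := by field_simp
  have htp : 0 < ε / (L : ℝ) ^ n := by positivity
  refine ⟨htp, ?_, ?_, ?_, ?_, ?_⟩
  · rw [div_le_iff₀ hLn0]
    linarith
  · calc ε / (L : ℝ) ^ n * L ≤ ε / (L : ℝ) ^ n * (L : ℝ) ^ n :=
          mul_le_mul_of_nonneg_left hLn htp.le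
      _ = ε := htn
      _ ≤ 1 := hε1
  · rw [div_le_iff₀ hLn0]
    have h1 : (1 : ℝ) ≤ (L : ℝ) ^ n := le_trans hL1 hLn
    nlinarith
  · rw [htn]; exact hε1
  · calc ε / (L : ℝ) ^ n * C ≤ ε / (L : ℝ) ^ n * (L : ℝ) ^ n :=
          mul_le_mul_of_nonneg_left (hCL.trans hLn) htp.le
      _ = ε := htn
      _ ≤ 1 := hε1

end G4QS

open G4QS in
theorem prG4 (hEh : StEh) (hIv : StIv) (hNi : StNi) (hCc : StCc.{u}) : StG4.{u} := by
  intro M A r f hr hMt hIt hLip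
  obtain ⟨C, hC1, hC⟩ := hIv M.dim
  refine ⟨1 + 4 * M.dim + 9, ?_⟩
  filter_upwards [hMt, hIt, hLip, eventually_ge_atTop (max ⌈C⌉₊ 8)] with L hM hI hL hL8
  intro n x y ε hn hε hε1 hy hμ hxy
  have hL8' : (8 : ℝ) ≤ L := by exact_mod_cast (le_max_right _ _).trans hL8
  have hCL : C ≤ L := (Nat.le_ceil C).trans (by exact_mod_cast (le_max_left _ _).trans hL8)
  obtain ⟨tpos, t8, tL, te, tn, tC⟩ := mk_sc (d := M.dim) hL8' hCL hn hε hε1
  set τ : ℝ := ε / (L : ℝ) ^ n with hτ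
  have hL0 : (0 : ℝ) < L := by linarith
  have ht1 : τ ≤ 1 := by linarith
  have tinv : 1 / (L : ℝ) ≥ τ := by
    rw [ge_iff_le, le_div_iff₀ hL0]; exact tL
  have hpw : ∀ m : ℕ, 2 ≤ m → τ ^ m < 1 / (L : ℝ) := by
    intro m hm
    calc τ ^ m ≤ τ ^ 2 := pow_le_pow_of_le_one tpos.le ht1 hm
      _ = τ * τ := sq τ
      _ ≤ (1 / 8) * (1 / L) := mul_le_mul t8 tinv tpos.le (by norm_num)
      _ < 1 / L := by
        have : 0 < 1 / (L : ℝ) := by positivity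
        linarith
  have hdel : 1 / (L : ℝ) ≤ A.δ := by
    rw [div_le_iff₀ hL0, mul_comm]; exact hM.delta
  obtain ⟨i, hi⟩ := A.cov y
  have hyK : y ∈ A.K i := hi (Metric.mem_ball_self A.pos)
  have hxy2 : dist x y < 1 / (L : ℝ) := lt_of_le_of_lt hxy (hpw _ (by omega))
  have hxK : x ∈ A.K i := hi (Metric.mem_ball.2 (hxy2.trans_le hdel))
  have hyS := A.sub i hyK
  have hxS := A.sub i hxK
  obtain ⟨hI1, hI2⟩ := hI n i i y hyK (by rw [hy]; exact hyK)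
  set a := ch M (A.q i) y with ha
  set G := ic M (A.q i) (A.q i) f^[n] with hG
  have hGx : ∀ z ∈ (ch M (A.q i)).source, G (ch M (A.q i) z) = ch M (A.q i) (f^[n] z) := by
    intro z hz
    show ch M (A.q i) (f^[n] ((ch M (A.q i)).symm (ch M (A.q i) z))) = _
    rw [(ch M (A.q i)).left_inv hz]
  obtain ⟨T, hT⟩ := hCc M r f (A.q i) y n hr hy hyS
  have hev : ∀ μ : ℂ, IsComplexEigenvalue (fderiv ℝ G a) μ → ε ≤ |‖μ‖ - 1| := by
    intro μ hμ'
    exact hμ μ (((hEh M.dim (derivativeAt f^[n] y)).2 (fderiv ℝ G a) T hT μ).1 hμ')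
  have haB : a ∈ Metric.ball a ((1 / (L : ℝ)) ^ (n + 1)) := Metric.mem_ball_self (by positivity)
  have hCA := hC (fderiv ℝ G a) ε ((L : ℝ) ^ (n + 1)) hε (hI2.bound a haB) hev
  set β : ℕ := 1 + 4 * M.dim with hβ
  set B : ℝ := (τ⁻¹) ^ β with hB
  have htin : 0 < τ⁻¹ := inv_pos.2 tpos
  have ht8i : 8 ≤ τ⁻¹ := by
    rw [le_inv_comm₀ (by norm_num) tpos]
    linarith
  have hLi : (L : ℝ) ≤ τ⁻¹ := by
    rw [le_inv_comm₀ hL0 tpos, ← one_div]
    exact tinv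
  have hLni : (L : ℝ) ^ n ≤ τ⁻¹ := by
    rw [← one_div, le_div_iff₀ tpos, mul_comm]; exact tn
  have hCi : C ≤ τ⁻¹ := by
    rw [← one_div, le_div_iff₀ tpos, mul_comm]; exact tC
  have hLn1 : (L : ℝ) ^ (n + 1) ≤ τ⁻¹ ^ 2 := by
    rw [pow_succ, sq]
    exact mul_le_mul hLni hLi hL0.le htin.le
  have hP3 : 1 + (L : ℝ) ^ (n + 1) ≤ τ⁻¹ ^ 3 := by
    have h1 : (1 : ℝ) ≤ τ⁻¹ ^ 2 := one_le_pow₀ (by linarith)
    have h2 : τ⁻¹ ^ 3 = τ⁻¹ * τ⁻¹ ^ 2 := by ring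
    rw [h2]
    nlinarith
  have hBv : ∀ v, ‖v‖ ≤ B * ‖fderiv ℝ G a v - v‖ := by
    intro v
    have h1 := hCA v
    have h2 : C * (1 + (L : ℝ) ^ (n + 1)) ^ M.dim ≤ τ⁻¹ * (τ⁻¹ ^ 3) ^ M.dim := by
      refine mul_le_mul hCi ?_ (by positivity) htin.le
      exact pow_le_pow_left₀ (by positivity) hP3 _
    have h3 : ‖v‖ * ε ^ M.dim ≤ τ⁻¹ * (τ⁻¹ ^ 3) ^ M.dim * ‖fderiv ℝ G a v - v‖ :=
      h1.trans (mul_le_mul_of_nonneg_right h2 (norm_nonneg _))
    have h4 : ‖v‖ * τ ^ M.dim ≤ ‖v‖ * ε ^ M.dim :=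
      mul_le_mul_of_nonneg_left (pow_le_pow_left₀ tpos.le te _) (norm_nonneg _)
    have h5 := h4.trans h3
    have h6 : B = τ⁻¹ * (τ⁻¹ ^ 3) ^ M.dim * τ⁻¹ ^ M.dim := by
      rw [hB, hβ]
      ring
    rw [h6]
    calc ‖v‖ = (‖v‖ * τ ^ M.dim) * τ⁻¹ ^ M.dim := by
          rw [mul_assoc, ← mul_pow, mul_inv_cancel₀ tpos.ne', one_pow, mul_one]
      _ ≤ (τ⁻¹ * (τ⁻¹ ^ 3) ^ M.dim * ‖fderiv ℝ G a v - v‖) * τ⁻¹ ^ M.dim :=
          mul_le_mul_of_nonneg_right h5 (by positivity)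
      _ = _ := by ring
  have hBt : ∀ m : ℕ, B * τ ^ (β + m) = τ ^ m := by
    intro m
    have e1 : τ ^ (β + m) = τ ^ β * τ ^ m := pow_add τ β m
    have e2 : B * τ ^ β = 1 := by
      show τ⁻¹ ^ β * τ ^ β = 1
      rw [← mul_pow, inv_mul_cancel₀ tpos.ne', one_pow]
    rw [e1, ← mul_assoc, e2, one_mul]
  have hBpos : 0 < B := by positivity
  have hΛ : (L : ℝ) ^ (3 * (n + 1)) * τ ^ 6 ≤ 1 := by
    have h1 : (L : ℝ) ^ (n + 1) * τ ^ 2 ≤ 1 := by
      have h2 := mul_le_mul_of_nonneg_right hLn1 (by positivity : (0 : ℝ) ≤ τ ^ 2)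
      rwa [← mul_pow, inv_mul_cancel₀ tpos.ne', one_pow] at h2
    have h3 : (L : ℝ) ^ (3 * (n + 1)) * τ ^ 6 = ((L : ℝ) ^ (n + 1) * τ ^ 2) ^ 3 := by
      rw [mul_pow, ← pow_mul, ← pow_mul, mul_comm 3 (n + 1)]
    rw [h3]
    exact pow_le_one₀ (by positivity) h1
  have hR : τ ^ 2 ≤ (1 / (L : ℝ)) ^ (n + 1) := by
    have h1 : (L : ℝ) ^ (n + 1) * τ ^ 2 ≤ 1 := by
      have h2 := mul_le_mul_of_nonneg_right hLn1 (by positivity : (0 : ℝ) ≤ τ ^ 2)
      rwa [← mul_pow, inv_mul_cancel₀ tpos.ne', one_pow] at h2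
    rw [one_div, inv_pow, ← one_div, le_div_iff₀ (by positivity), mul_comm]
    exact h1
  -- the point x
  have hfy := hM.fwd i y hyK x (by rw [dist_comm]; exact hxy2)
  have hLτ : ∀ m : ℕ, (L : ℝ) * τ ^ (m + 1) ≤ τ ^ m := by
    intro m
    rw [pow_succ]
    have : (L : ℝ) * (τ ^ m * τ) = τ ^ m * (τ * L) := by ring
    rw [this]
    exact mul_le_of_le_one_right (by positivity) tL
  have hwa : ‖ch M (A.q i) x - a‖ ≤ τ ^ (β + 8) := by
    refine hfy.2.trans ?_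
    rw [dist_comm]
    refine (mul_le_mul_of_nonneg_left hxy hL0.le).trans ?_
    exact hLτ (β + 8)
  have hwρ : ‖ch M (A.q i) x - a‖ ≤ τ ^ (β + 7) :=
    hwa.trans (pow_le_pow_of_le_one tpos.le ht1 (by omega))
  have hni := hNi M.dim G a ((1 / (L : ℝ)) ^ (n + 1)) ((L : ℝ) ^ (n + 1))
    ((L : ℝ) ^ (3 * (n + 1))) B (τ ^ (β + 7)) hI2 (by positivity) hBpos (by positivity)
    (lt_of_lt_of_le (pow_lt_pow_right_of_lt_one₀ tpos (by linarith) (by omega)) hR)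
    (by
      have h1 : 2 * B * (L : ℝ) ^ (3 * (n + 1)) * τ ^ (β + 7) =
          2 * ((B * τ ^ (β + 0)) * ((L : ℝ) ^ (3 * (n + 1)) * τ ^ 6) * τ) := by ring
      rw [h1, hBt 0, pow_zero, one_mul]
      nlinarith)
    hBv (by rw [hG]; exact (hGx y hyS).trans (by rw [hy])) (ch M (A.q i) x) hwρ
  rw [hGx x hxS] at hni
  -- the distance of the image
  have hD : dist x (f^[n] x) < 1 / (L : ℝ) := by
    have h1 : dist x (f^[n] x) ≤ dist x y + dist y (f^[n] x) := dist_triangle _ _ _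
    have h2 : dist y (f^[n] x) ≤ (L : ℝ) ^ n * dist x y := by
      have := lip_iter hL n x y
      rwa [hy, dist_comm] at this
    have h3 : dist x y + (L : ℝ) ^ n * dist x y ≤ τ ^ (β + 8) + τ ^ (β + 8) := by
      refine add_le_add (hxy.trans (pow_le_pow_of_le_one tpos.le ht1 (by omega))) ?_
      refine (mul_le_mul_of_nonneg_left hxy (by positivity)).trans ?_
      have h4 : (L : ℝ) ^ n * τ ^ (β + 9) = τ ^ (β + 8) * (τ * (L : ℝ) ^ n) := by ring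
      show (L : ℝ) ^ n * τ ^ (β + 9) ≤ _
      rw [h4]
      exact mul_le_of_le_one_right (by positivity) tn
    have h5 : τ ^ (β + 8) + τ ^ (β + 8) ≤ τ ^ 2 := by
      have h6 : τ ^ (β + 8) ≤ τ ^ 3 := pow_le_pow_of_le_one tpos.le ht1 (by omega)
      have h7 : τ ^ 3 = τ ^ 2 * τ := by ring
      have h8 : 0 ≤ τ ^ 2 := by positivity
      nlinarith
    calc dist x (f^[n] x) ≤ τ ^ 2 := by linarith
      _ < 1 / L := hpw 2 le_rfl
  have hfx := hM.fwd i x hxK (f^[n] x) hD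
  have hinv := hM.inv i x hxK a (by
    rw [Metric.mem_ball, dist_eq_norm, norm_sub_rev]
    exact lt_of_le_of_lt hwa (hpw _ (by omega)))
  rw [ha, (ch M (A.q i)).left_inv hyS, ← ha] at hinv
  have hfin : dist x y ≤ L * (2 * B * (L * dist x (f^[n] x))) := by
    refine hinv.2.trans (mul_le_mul_of_nonneg_left ?_ hL0.le)
    rw [norm_sub_rev]
    refine hni.trans (mul_le_mul_of_nonneg_left hfx.2 (by positivity))
  show dist x y * τ ^ (β + 9) ≤ dist x (f^[n] x)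
  have hDn : 0 ≤ dist x (f^[n] x) := dist_nonneg
  calc dist x y * τ ^ (β + 9) ≤ L * (2 * B * (L * dist x (f^[n] x))) * τ ^ (β + 9) :=
        mul_le_mul_of_nonneg_right hfin (by positivity)
    _ = 2 * (B * τ ^ (β + 0)) * ((τ * L) * (τ * L)) * τ ^ 7 * dist x (f^[n] x) := by ring
    _ ≤ 1 * dist x (f^[n] x) := by
        refine mul_le_mul_of_nonneg_right ?_ hDn
        rw [hBt 0, pow_zero, mul_one]
        have h1 : (τ * L) * (τ * L) ≤ 1 := mul_le_one₀ tL (by positivity) tL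
        have h2 : τ ^ 7 ≤ τ ^ 1 := pow_le_pow_of_le_one tpos.le ht1 (by norm_num)
        rw [pow_one] at h2
        have h3 : 0 ≤ τ ^ 7 := by positivity
        nlinarith
    _ = dist x (f^[n] x) := one_mul _

end Pool.Agent.OmegaQS
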