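import Pool.Agent.Work.MP_814647_an.QS.Stmts

/-!
# Closing returns without perturbation, item Ga (helper24): no eigenvalues of modulus near one
-/

set_option autoImplicit false

open Set Filter Topology Function
open scoped Manifold ContDiff

noncomputable section

namespace Pool.Agent.OmegaQS

open Pool.Agent.OmegaStab (EE Dyn inCharts crTopology crSet HypLin HypAt)
open Pool.Agent.OmegaStability (ClosedManifold CrDiffeo IsComplexEigenvalue IsMultiplier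
  derivativeAt HasBilipschitzCharts OmegaStable ClosesReturns)

universe u

namespace GaQS

/-- The hyperbolicity of the derivative of a return map is independent of the chart. -/
theorem hyp_conj (hEh : StEh) (hCc : StCc.{u}) (M : ClosedManifold.{u}) (r : ℕ∞)
    (g : CrDiffeo M r) (q x : M.carrier) (j : ℕ) (hr : 1 ≤ r)
    (hfix : g^[j] x = x) (hmin : minimalPeriod g x = j) (hxs : x ∈ (ch M q).source)
    (hH : HypAt (d := M.dim) g x) :
    HypLin (fderiv ℝ (ic M q q g^[j]) (ch M q x)) := by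
  obtain ⟨-, hlin⟩ := hH
  rw [hmin] at hlin
  rw [← OmegaStab.FinHyp.der_eq_fderiv (OmegaStab.FinHyp.mdiff_iter (OmegaStab.FinHyp.mdiff hr g) j) hfix] at hlin
  obtain ⟨T, hT⟩ := hCc M r g q x j hr hfix hxs
  rw [(hEh M.dim _).1]
  intro μ hμ
  have h1 := ((hEh M.dim (derivativeAt g^[j] x)).2
    (fderiv ℝ (ic M q q g^[j]) (ch M q x)) T hT μ).1 hμ
  exact (hEh M.dim (derivativeAt g^[j] x)).1.1 hlin μ h1

/-- The estimates for the scales. -/
theorem scales (L₀ L σ t τ : ℝ) (k : ℕ) (hL₀ : 2 ≤ L₀) (hL : 4 * L₀ ^ 2 ≤ L) (hσ : 0 < σ)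
    (hσ1 : σ ≤ 1) (ht : t = σ / L) (hτ : τ = σ / (4 * L₀)) :
    0 < τ ∧ τ ≤ 1 / L₀ ∧ 2 * τ < 1 / L₀ ∧ L₀ * (2 * τ) = σ / 2 ∧ t ^ (k + 1) < 1 / L₀ ∧
      L₀ * t ^ (k + 1) ≤ τ ^ k ∧ L₀ * t ^ (k + 1) ≤ τ ∧ t ^ k ≤ τ ^ k := by
  have hL₀0 : 0 < L₀ := by linarith
  have hL0 : 0 < L := lt_of_lt_of_le (by positivity) hL
  have ht0 : 0 < t := by rw [ht]; positivity
  have hτ0 : 0 < τ := by rw [hτ]; positivity
  have hστ : σ = 4 * L₀ * τ := by
    rw [hτ]; field_simp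
  have hσt : σ = L * t := by
    rw [ht]; field_simp
  -- `L₀ t ≤ τ`
  have h1 : L₀ * t ≤ τ := by
    have h2 : 4 * L₀ ^ 2 * t ≤ 4 * L₀ * τ := by
      rw [← hστ, hσt]
      exact mul_le_mul_of_nonneg_right hL ht0.le
    have h3 : (4 * L₀) * (L₀ * t) ≤ (4 * L₀) * τ := by
      calc (4 * L₀) * (L₀ * t) = 4 * L₀ ^ 2 * t := by ring
        _ ≤ 4 * L₀ * τ := h2
    exact le_of_mul_le_mul_left h3 (by positivity)
  have hLτ : 4 * (L₀ * τ) ≤ 1 := by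
    calc 4 * (L₀ * τ) = σ := by rw [hστ]; ring
      _ ≤ 1 := hσ1
  have hτ1 : τ ≤ 1 := by nlinarith
  have htτ : t ≤ τ := by nlinarith
  have ht1 : t ≤ 1 := htτ.trans hτ1
  have hLt : L₀ * t ≤ 1 := h1.trans hτ1
  have hpk : t ^ k ≤ 1 := pow_le_one₀ ht0.le ht1
  have hpk0 : 0 < t ^ k := pow_pos ht0 k
  have hkk : t ^ k ≤ τ ^ k := pow_le_pow_left₀ ht0.le htτ k
  have hA : L₀ * t ^ (k + 1) ≤ t ^ k := by
    calc L₀ * t ^ (k + 1) = (L₀ * t) * t ^ k := by ring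
      _ ≤ 1 * t ^ k := mul_le_mul_of_nonneg_right hLt hpk0.le
      _ = t ^ k := one_mul _
  have hB : L₀ * t ^ (k + 1) ≤ L₀ * t := by
    calc L₀ * t ^ (k + 1) = (L₀ * t) * t ^ k := by ring
      _ ≤ (L₀ * t) * 1 := mul_le_mul_of_nonneg_left hpk (by positivity)
      _ = L₀ * t := mul_one _
  refine ⟨hτ0, ?_, ?_, ?_, ?_, hA.trans hkk, hB.trans h1, hkk⟩
  · rw [le_div_iff₀ hL₀0]
    linarith [mul_comm τ L₀, mul_pos hL₀0 hτ0]
  · rw [lt_div_iff₀ hL₀0]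
    linarith [mul_comm τ L₀, mul_pos hL₀0 hτ0]
  · rw [hστ]; ring
  · rw [lt_div_iff₀ hL₀0]
    have := hB.trans h1
    have h5 : τ < 1 := by nlinarith
    linarith [mul_comm L₀ (t ^ (k + 1))]

end GaQS

theorem prGa (hEh : StEh) (hCc : StCc.{u}) (hGo : StGo.{u}) : StGa.{u} := by
  intro M A r f N k hr hHyp hMet hPert
  obtain ⟨L₀, hM, hP⟩ := (hMet.and hPert).exists
  filter_upwards [eventually_ge_atTop (4 * L₀ ^ 2)] with L hL
  intro j i x σ hj hx hfx hσ hσ1 hret hclose s hs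
  have hL₀2 : (2 : ℝ) ≤ L₀ := by exact_mod_cast hM.two
  have hL₀0 : (0 : ℝ) < L₀ := by linarith
  have hLR : 4 * (L₀ : ℝ) ^ 2 ≤ L := by exact_mod_cast hL
  obtain ⟨hτ0, hτ1, hτ2, hτ3, hc1, hc2, hc3, hc4⟩ :=
    GaQS.scales (L₀ : ℝ) L σ (σ / L) (σ / (4 * L₀)) k hL₀2 hLR hσ hσ1 rfl rfl
  generalize hτdef : σ / (4 * (L₀ : ℝ)) = τ at hτ0 hτ1 hτ2 hτ3 hc1 hc2 hc3 hc4
  have hxs : x ∈ (ch M (A.q i)).source := A.sub i hx
  have hfxs : f^[j] x ∈ (ch M (A.q i)).source := A.sub i hfx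
  obtain ⟨-, hdist⟩ := hM.fwd i x hx (f^[j] x) (hclose.trans_lt hc1)
  have hd1 : ‖ch M (A.q i) (f^[j] x) - ch M (A.q i) x‖ ≤ L₀ * (σ / L) ^ (k + 1) :=
    hdist.trans (mul_le_mul_of_nonneg_left hclose hL₀0.le)
  have hv1 : ‖ch M (A.q i) x - ch M (A.q i) (f^[j] x)‖ ≤ L₀ * (σ / L) ^ (k + 1) := by
    rw [norm_sub_rev]; exact hd1
  obtain ⟨hsub, ψ, hN, hoff, hon⟩ := hP i x (ch M (A.q i) (f^[j] x))
    (ch M (A.q i) x - ch M (A.q i) (f^[j] x)) τ s hx (hd1.trans (hc3.trans hτ1)) hτ0 hτ1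
    (hv1.trans hc2) (hs.trans hc4)
  have hSc : IsClosed ((ch M (A.q i)).symm '' Metric.closedBall (ch M (A.q i) (f^[j] x)) τ) :=
    ((isCompact_closedBall _ _).image_of_continuousOn
      ((continuousOn_extChartAt_symm (A.q i)).mono hsub)).isClosed
  have hSd : ∀ y ∈ (ch M (A.q i)).symm '' Metric.closedBall (ch M (A.q i) (f^[j] x)) τ,
      dist x y ≤ σ / 2 := by
    rintro y ⟨w, hw, rfl⟩
    have hwb : ‖w - ch M (A.q i) (f^[j] x)‖ ≤ τ := by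
      rwa [Metric.mem_closedBall, dist_eq_norm] at hw
    have hwa : ‖w - ch M (A.q i) x‖ ≤ 2 * τ := by
      calc ‖w - ch M (A.q i) x‖
          = ‖(w - ch M (A.q i) (f^[j] x)) + (ch M (A.q i) (f^[j] x) - ch M (A.q i) x)‖ := by
            rw [sub_add_sub_cancel]
        _ ≤ ‖w - ch M (A.q i) (f^[j] x)‖ + ‖ch M (A.q i) (f^[j] x) - ch M (A.q i) x‖ :=
            norm_add_le _ _
        _ ≤ 2 * τ := by linarith [hd1.trans hc3]
    have hwm : w ∈ Metric.ball (ch M (A.q i) x) (1 / (L₀ : ℝ)) := by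
      rw [Metric.mem_ball, dist_eq_norm]
      exact hwa.trans_lt hτ2
    obtain ⟨-, h2⟩ := hM.inv i x hx w hwm
    calc dist x ((ch M (A.q i)).symm w) ≤ L₀ * ‖w - ch M (A.q i) x‖ := h2
      _ ≤ L₀ * (2 * τ) := mul_le_mul_of_nonneg_left hwa hL₀0.le
      _ = σ / 2 := hτ3
  have hnS : ∀ m, 0 < m → m < j →
      f^[m] x ∉ (ch M (A.q i)).symm '' Metric.closedBall (ch M (A.q i) (f^[j] x)) τ := by
    intro m hm1 hm2 hmem
    have h1 := hret m hm1 hm2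
    have h2 := hSd _ hmem
    linarith
  have hne : ∀ m, 0 < m → m < j → f^[m] x ≠ x := by
    intro m hm1 hm2 heq
    have h1 := hret m hm1 hm2
    rw [heq, dist_self] at h1
    linarith
  obtain ⟨hfix, hmin, hder⟩ := hGo M r f ψ (A.q i) x j
    ((ch M (A.q i)).symm '' Metric.closedBall (ch M (A.q i) (f^[j] x)) τ)
    (ch M (A.q i) x - ch M (A.q i) (f^[j] x)) s hr hj hxs hfxs hSc hoff hnS hne
    (by rw [add_sub_cancel])
    (by
      filter_upwards [Metric.ball_mem_nhds (ch M (A.q i) (f^[j] x)) (half_pos hτ0)] with w hw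
      exact hon w hw)
  rw [← hder]
  have hper : x ∈ periodicPts (f.trans ψ) := ⟨j, hj, hfix⟩
  exact GaQS.hyp_conj hEh hCc M r (f.trans ψ) (A.q i) x j hr hfix hmin hxs (hHyp _ hN x hper)

end Pool.Agent.OmegaQS
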