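import Pool.Agent.Work.MP_814647_an.QS.Stmts

/-!
# Item Go: the perturbed orbit
-/

set_option autoImplicit false

open Set Filter Topology Function
open scoped Manifold ContDiff

noncomputable section

namespace Pool.Agent.OmegaQS

open Pool.Agent.OmegaStab (EE Dyn inCharts crTopology crSet HypLin HypAt)
open Pool.Agent.OmegaStability (ClosedManifold CrDiffeo IsComplexEigenvalue IsMultiplier
  derivativeAt HasBilipschitzCharts OmegaStable ClosesReturns)

universe u

namespace GoQS

/-- derivative of `w ↦ G w + v + s (G w - b)` -/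
theorem hasFDerivAt_aff {E : Type*} [NormedAddCommGroup E] [NormedSpace ℝ E] {G : E → E} {a : E}
    (hG : DifferentiableAt ℝ G a) (v b : E) (s : ℝ) :
    fderiv ℝ (fun w => G w + v + s • (G w - b)) a = (1 + s) • fderiv ℝ G a := by
  have h1 : HasFDerivAt (fun w => G w + v + s • (G w - b))
      (fderiv ℝ G a + s • fderiv ℝ G a) a :=
    (hG.hasFDerivAt.add_const v).add ((hG.hasFDerivAt.sub_const b).const_smul s)
  rw [h1.fderiv, add_smul, one_smul]

end GoQS

open GoQS in
theorem prGo : StGo.{u} := by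
  intro M r f ψ q x j S v s hr hj hx hfx hS hψ hm hne hv hloc
  obtain ⟨n, rfl⟩ := Nat.exists_eq_add_of_le' hj
  have hg : ∀ y, (f.trans ψ) y = ψ (f y) := fun y => rfl
  have hag : ∀ w, f w ∉ S → (f.trans ψ) w = f w := fun w hw => by rw [hg, hψ _ hw]
  obtain ⟨V, hV, hVe⟩ := OmegaStab.exists_nhds_iterate_eq (h := f) f.continuous hS x n
    (fun i hi1 hin => hm i hi1 (by omega))
  have hgV : ∀ y ∈ V, (f.trans ψ)^[n + 1] y = ψ (f^[n + 1] y) := by
    intro y hy
    rw [Function.iterate_succ_apply', hVe (f.trans ψ) hag y hy, hg, Function.iterate_succ_apply']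
  have hsrc : (ch M q).symm (ch M q (f^[n + 1] x)) = f^[n + 1] x := (ch M q).left_inv hfx
  have hx0 : (ch M q).symm (ch M q x) = x := (ch M q).left_inv hx
  have hper : (f.trans ψ)^[n + 1] x = x := by
    rw [hgV x (mem_of_mem_nhds hV)]
    have h1 := (hloc.self_of_nhds).2
    rw [hsrc, sub_self, smul_zero, add_zero, hv, hx0] at h1
    exact h1
  refine ⟨hper, ?_, ?_⟩
  · have hlow : ∀ i ≤ n, (f.trans ψ)^[i] x = f^[i] x := by
      refine OmegaStab.iterate_eq_of_agree n fun i hi => hag _ ?_
      rw [← Function.iterate_succ_apply' f i]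
      exact hm (i + 1) (by omega) (by omega)
    have hpp : IsPeriodicPt (f.trans ψ) (n + 1) x := hper
    have hpos : 0 < minimalPeriod (f.trans ψ) x := hpp.minimalPeriod_pos (Nat.succ_pos n)
    have hle : minimalPeriod (f.trans ψ) x ≤ n + 1 := hpp.minimalPeriod_le (Nat.succ_pos n)
    by_contra hcon
    have hlt : minimalPeriod (f.trans ψ) x < n + 1 := lt_of_le_of_ne hle hcon
    refine hne _ hpos hlt ?_
    rw [← hlow _ (by omega)]
    exact iterate_minimalPeriod
  · have hG := (OmegaStab.contDiffAt_inCharts_iterate hr f (n + 1) q q x hx hfx).differentiableAt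
      (by norm_num)
    have hGa : ic M q q f^[n + 1] (ch M q x) = ch M q (f^[n + 1] x) := by
      show ch M q (f^[n + 1] ((ch M q).symm (ch M q x))) = _
      rw [hx0]
    have c1 : Tendsto (ch M q).symm (𝓝 (ch M q x)) (𝓝 x) := by
      have := (continuousAt_extChartAt_symm' (I := 𝓡 M.dim) hx)
      have h2 : Tendsto (ch M q).symm (𝓝 (ch M q x)) (𝓝 ((ch M q).symm (ch M q x))) := this
      rwa [hx0] at h2
    have c2 : Tendsto (fun w => f^[n + 1] ((ch M q).symm w)) (𝓝 (ch M q x))
        (𝓝 (f^[n + 1] x)) := ((f.continuous.iterate (n + 1)).tendsto x).comp c1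
    have c3 : Tendsto (ic M q q f^[n + 1]) (𝓝 (ch M q x)) (𝓝 (ch M q (f^[n + 1] x))) := by
      have := hG.continuousAt.tendsto
      have h2 : Tendsto (ic M q q f^[n + 1]) (𝓝 (ch M q x))
        (𝓝 (ic M q q f^[n + 1] (ch M q x))) := this
      rwa [hGa] at h2
    have hev : (ic M q q (f.trans ψ)^[n + 1]) =ᶠ[𝓝 (ch M q x)] fun w =>
        ic M q q f^[n + 1] w + v + s • (ic M q q f^[n + 1] w - ch M q (f^[n + 1] x)) := by
      filter_upwards [c1.eventually hV, c2.eventually
        ((isOpen_extChartAt_source (I := 𝓡 M.dim) q).mem_nhds hfx), c3.eventually hloc]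
        with w h1 h2 h3
      have e1 : (ch M q).symm (ic M q q f^[n + 1] w) = f^[n + 1] ((ch M q).symm w) :=
        (ch M q).left_inv h2
      have e2 : ψ (f^[n + 1] ((ch M q).symm w)) = (ch M q).symm
          (ic M q q f^[n + 1] w + v + s • (ic M q q f^[n + 1] w - ch M q (f^[n + 1] x))) := by
        rw [← e1]
        exact h3.2
      show ch M q ((f.trans ψ)^[n + 1] ((ch M q).symm w)) = _
      rw [hgV _ h1, e2]
      exact (ch M q).right_inv h3.1
    rw [hev.fderiv_eq]
    exact hasFDerivAt_aff hG v _ s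

end Pool.Agent.OmegaQS
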