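import Pool.Agent.Work.MP_814647_an.QS.Stmts

/-!
# Item Gp: from no eigenvalue of modulus one for `(1 + s) D` to a gap
-/

set_option autoImplicit false

open Set Filter Topology Function
open scoped Manifold ContDiff

noncomputable section

namespace Pool.Agent.OmegaQS

open Pool.Agent.OmegaStab (EE Dyn inCharts crTopology crSet HypLin HypAt)
open Pool.Agent.OmegaStability (ClosedManifold CrDiffeo IsComplexEigenvalue IsMultiplier
  derivativeAt HasBilipschitzCharts OmegaStable ClosesReturns)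

universe u

theorem prGp : StGp := by
  intro d D ε hε hε1 hyp μ hμ
  by_contra hlt
  rw [not_le, abs_lt] at hlt
  obtain ⟨h1, h2⟩ := hlt
  have hpos : 0 < ‖μ‖ := by linarith
  have hne : ‖μ‖ ≠ 0 := hpos.ne'
  have hμ0 : μ ≠ 0 := norm_pos_iff.mp hpos
  have hs : |1 / ‖μ‖ - 1| ≤ ε := by
    rw [abs_le]
    constructor
    · rw [neg_le_sub_iff_le_add, ← sub_le_iff_le_add, le_div_iff₀ hpos]
      nlinarith
    · rw [sub_le_iff_le_add, div_le_iff₀ hpos]
      nlinarith
  obtain ⟨v, w, hvw, hv, hw⟩ := hμ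
  have h1s : 1 + (1 / ‖μ‖ - 1) = ‖μ‖⁻¹ := by
    rw [one_div]
    ring
  have hcos : Real.cos (Complex.arg μ) = ‖μ‖⁻¹ * μ.re := by
    rw [Complex.cos_arg hμ0, div_eq_inv_mul]
  have hsin : Real.sin (Complex.arg μ) = ‖μ‖⁻¹ * μ.im := by
    rw [Complex.sin_arg, div_eq_inv_mul]
  have h3 := hyp (1 / ‖μ‖ - 1) hs (Complex.arg μ) v w
    (by rw [smul_apply, h1s, hv, hcos, hsin, smul_sub, smul_smul, smul_smul])
    (by rw [smul_apply, h1s, hw, hcos, hsin, smul_add, smul_smul, smul_smul])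
  rcases hvw with h4 | h4
  · exact h4 h3.1
  · exact h4 h3.2

end Pool.Agent.OmegaQS
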