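import Pool.Agent.Work.MP_814647_an.QS.Stmts

/-!
# Item Gs: the gap step
-/

set_option autoImplicit false

open Set Filter Topology Function
open scoped Manifold ContDiff

noncomputable section

namespace Pool.Agent.OmegaQS

open Pool.Agent.OmegaStab (EE Dyn inCharts crTopology crSet HypLin HypAt)
open Pool.Agent.OmegaStability (ClosedManifold CrDiffeo IsComplexEigenvalue IsMultiplier
  derivativeAt HasBilipschitzCharts OmegaStable ClosesReturns)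

universe u

theorem prGs (hDv : StDv.{u}) : StGs.{u} := by
  intro M f e₁ e₃ e₄ hLip hG1 hG3 hG4
  refine ⟨2 * e₁ + 2 + (2 * e₃ + 1) * e₄ + 2 * e₃, by omega, ?_⟩
  filter_upwards [hLip, hG1, hG3, hG4, eventually_ge_atTop 8] with L hLip hG1 hG3 hG4 hL8
  intro n j x σ s hj hjn hσ hσ1 hs hsep hxj hxn
  obtain ⟨e, he⟩ : ∃ e : ℕ, e = 2 * e₁ + 2 + (2 * e₃ + 1) * e₄ + 2 * e₃ := ⟨_, rfl⟩
  rw [← he] at hs ⊢
  have hn : 1 ≤ n := hj.trans hjn
  have hL8' : (8 : ℝ) ≤ L := by exact_mod_cast hL8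
  have hL1 : (1 : ℝ) ≤ L := by linarith
  have hL0 : (0 : ℝ) < L := by linarith
  have hLn0 : (0 : ℝ) < (L : ℝ) ^ n := pow_pos hL0 n
  have hLj0 : (0 : ℝ) < (L : ℝ) ^ j := pow_pos hL0 j
  have hLn1 : (L : ℝ) ≤ (L : ℝ) ^ n := by
    calc (L : ℝ) = (L : ℝ) ^ 1 := (pow_one _).symm
      _ ≤ (L : ℝ) ^ n := pow_le_pow_right₀ hL1 hn
  have hLjn : (L : ℝ) ^ j ≤ (L : ℝ) ^ n := pow_le_pow_right₀ hL1 hjn
  have hLj1 : (1 : ℝ) ≤ (L : ℝ) ^ j := one_le_pow₀ hL1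
  obtain ⟨τ, hτ⟩ : ∃ τ : ℝ, τ = σ / (L : ℝ) ^ n := ⟨_, rfl⟩
  rw [← hτ] at hs ⊢
  have hτ0 : 0 < τ := by rw [hτ]; positivity
  have hτL : (L : ℝ) ^ n * τ = σ := by
    rw [hτ]; field_simp
  have hτ8 : τ ≤ 1 / 8 := by
    rw [hτ, div_le_div_iff₀ hLn0 (by norm_num)]
    nlinarith
  have hτ1 : τ ≤ 1 := by linarith
  have hτσ : τ ≤ σ := by
    rw [hτ, div_le_iff₀ hLn0]
    nlinarith
  have hτj : τ ≤ σ / (L : ℝ) ^ j := by
    rw [hτ]
    exact div_le_div_of_nonneg_left hσ.le hLj0 hLjn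
  have hj1 : σ / (L : ℝ) ^ j ≤ 1 := by
    rw [div_le_one hLj0]; linarith
  have hanti : ∀ {a b : ℕ}, a ≤ b → τ ^ b ≤ τ ^ a := fun h =>
    pow_le_pow_of_le_one hτ0.le hτ1 h
  have hee : (2 * e₃ + 1) * e₄ ≤ e - e₁ := by
    rw [he]
    omega
  have hee2 : 2 ≤ e - e₁ := by
    rw [he]
    omega
  have hee0 : e₁ ≤ e := by
    rw [he]
    omega
  -- closing of the orbit segment of length `j`
  have h1 : dist x (f^[j] x) ≤ (σ / (L : ℝ) ^ j) ^ (2 * e₁) := by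
    calc dist x (f^[j] x) ≤ τ ^ e := hxj.trans hs
      _ ≤ τ ^ (2 * e₁) := hanti (by rw [he]; omega)
      _ ≤ (σ / (L : ℝ) ^ j) ^ (2 * e₁) := pow_le_pow_left₀ hτ0.le hτj _
  obtain ⟨y, hyj, hxy⟩ := hG1 j x σ hj hσ hσ1 hsep h1
  have hxy1 : dist x y ≤ τ ^ (e - e₁) := by
    have h2 : dist x y * τ ^ e₁ ≤ τ ^ (e - e₁) * τ ^ e₁ := by
      calc dist x y * τ ^ e₁ ≤ dist x y * (σ / (L : ℝ) ^ j) ^ e₁ :=
            mul_le_mul_of_nonneg_left (pow_le_pow_left₀ hτ0.le hτj _) dist_nonneg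
        _ ≤ dist x (f^[j] x) := hxy
        _ ≤ τ ^ e := hxj.trans hs
        _ = τ ^ (e - e₁) * τ ^ e₁ := by rw [← pow_add, Nat.sub_add_cancel hee0]
    exact le_of_mul_le_mul_right h2 (pow_pos hτ0 _)
  have h8 : 8 * (L : ℝ) ^ n * dist x y ≤ σ := by
    have h3 : dist x y ≤ τ ^ 2 := hxy1.trans (hanti hee2)
    calc 8 * (L : ℝ) ^ n * dist x y ≤ 8 * (L : ℝ) ^ n * τ ^ 2 :=
          mul_le_mul_of_nonneg_left h3 (by positivity)
      _ = 8 * ((L : ℝ) ^ n * τ) * τ := by ring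
      _ = 8 * σ * τ := by rw [hτL]
      _ ≤ σ := by nlinarith
  have h4 : dist x (f^[n] x) ≤ σ / 4 := by
    have h5 : dist x (f^[n] x) ≤ τ ^ 2 :=
      (hxn.trans hs).trans (hanti (by rw [he]; omega))
    have h6 : τ ^ 2 ≤ σ / 4 := by nlinarith
    exact h5.trans h6
  obtain ⟨hjdvd, hysep⟩ := hDv M.carrier f L (by omega) hLip n j x y σ hj hjn hσ hyj hsep h8 h4
  have hyn : f^[n] y = y := by
    obtain ⟨a, rfl⟩ := hjdvd
    rw [Function.iterate_mul]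
    exact Function.iterate_fixed hyj a
  -- multipliers
  have hmult : ∀ μ : ℂ, IsMultiplier f^[n] y μ → τ ^ (2 * e₃) ≤ |‖μ‖ - 1| := by
    intro μ hμ
    have h7 := hG3 n j y (σ / 2) hj hn hjdvd (by linarith) (by linarith) hyj hysep μ hμ
    refine le_trans ?_ h7
    rw [pow_mul]
    refine pow_le_pow_left₀ (by positivity) ?_ _
    rw [le_div_iff₀ hL0]
    have h9 : τ * (L : ℝ) ≤ σ := by
      calc τ * (L : ℝ) ≤ τ * (L : ℝ) ^ n := mul_le_mul_of_nonneg_left hLn1 hτ0.le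
        _ = σ := by rw [mul_comm, hτL]
    calc τ ^ 2 * (L : ℝ) = τ * (τ * (L : ℝ)) := by ring
      _ ≤ τ * σ := mul_le_mul_of_nonneg_left h9 hτ0.le
      _ ≤ 1 / 8 * σ := mul_le_mul_of_nonneg_right hτ8 hσ.le
      _ ≤ σ / 2 := by linarith
  obtain ⟨ε, hε⟩ : ∃ ε : ℝ, ε = τ ^ (2 * e₃) := ⟨_, rfl⟩
  have hε0 : 0 < ε := by rw [hε]; positivity
  have hε1 : ε ≤ 1 := by rw [hε]; exact pow_le_one₀ hτ0.le hτ1
  have hεL : τ ^ (2 * e₃ + 1) ≤ ε / (L : ℝ) ^ n := by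
    rw [hε, pow_succ, le_div_iff₀ hLn0, mul_assoc, mul_comm τ, hτL]
    exact mul_le_of_le_one_right (by positivity) hσ1
  have hεe : τ ^ ((2 * e₃ + 1) * e₄) ≤ (ε / (L : ℝ) ^ n) ^ e₄ := by
    rw [pow_mul]
    exact pow_le_pow_left₀ (by positivity) hεL _
  have hmult' : ∀ μ : ℂ, IsMultiplier f^[n] y μ → ε ≤ |‖μ‖ - 1| := by
    intro μ hμ
    rw [hε]
    exact hmult μ hμ
  have hee3 : (2 * e₃ + 1) * e₄ ≤ e := hee.trans (Nat.sub_le _ _)
  refine ⟨y, hyn, ?_, ?_, ?_⟩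
  · have h10 := hG4 n x y ε hn hε0 hε1 hyn hmult' ((hxy1.trans (hanti hee)).trans hεe)
    refine le_trans ?_ h10
    exact mul_le_mul_of_nonneg_left ((hanti hee3).trans hεe) dist_nonneg
  · intro z hz hyz
    have h11 := hG4 n z y ε hn hε0 hε1 hyn hmult' (by
      rw [dist_comm]
      exact (hyz.trans (hanti hee3)).trans hεe)
    rw [hz, dist_self] at h11
    have h12 : 0 < (ε / (L : ℝ) ^ n) ^ e₄ := by positivity
    have h13 : dist z y ≤ 0 := by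
      by_contra hcon
      push Not at hcon
      have := mul_pos hcon h12
      linarith
    exact dist_le_zero.mp h13
  · intro μ hμ
    refine le_trans (hanti ?_) (hmult μ hμ)
    rw [he]
    omega

end Pool.Agent.OmegaQS
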