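import Pool.Agent.Work.MP_814647_an.QS.Stmts

/-!
# Item Hb: small local perturbations are diffeomorphisms
-/

set_option autoImplicit false

open Set Filter Topology Function
open scoped Manifold ContDiff

noncomputable section

namespace Pool.Agent.OmegaQS

open Pool.Agent.OmegaStab (EE Dyn inCharts crTopology crSet HypLin HypAt)
open Pool.Agent.OmegaStability (ClosedManifold CrDiffeo IsComplexEigenvalue IsMultiplier
  derivativeAt HasBilipschitzCharts OmegaStable ClosesReturns)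

universe u

namespace HbQS

/-- the perturbation -/
def g {d : ℕ} (m : ℕ) (β : EE d → ℝ) (b v : EE d) (τ s : ℝ) (w : EE d) : EE d :=
  sb m β τ (w - b) • (v + s • (w - b))

theorem g_eq {d : ℕ} (m : ℕ) (β : EE d → ℝ) (b v : EE d) {τ : ℝ} (s : ℝ) (hτ : 0 < τ)
    (w : EE d) : g m β b v τ s w =
      (τ ^ (m + 1)) • (β (τ⁻¹ • (w - b)) • v) +
        (τ ^ (m + 1) * (s * τ)) • (β (τ⁻¹ • (w - b)) • (τ⁻¹ • (w - b))) := by
  unfold g sb
  rw [if_pos hτ, smul_add, smul_smul, smul_smul, smul_smul, smul_smul]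
  congr 2
  field_simp

theorem lip {d : ℕ} {m : ℕ} (hm : 1 ≤ m) {β : EE d → ℝ} {C0 C1 : NNReal}
    (h0 : LipschitzWith C0 β) (h1 : LipschitzWith C1 (fun z : EE d => β z • z)) {τ s : ℝ}
    {v : EE d} (b : EE d) (hτ : 0 < τ) (hτ1 : τ ≤ 1) (hτ2 : τ * (4 * (C0 + C1)) ≤ 1)
    (hv : ‖v‖ ≤ 2) (hs : |s| ≤ 2) : LipschitzWith (1 / 2) (g m β b v τ s) := by
  refine LipschitzWith.of_dist_le_mul fun x y => ?_
  rw [dist_eq_norm, dist_eq_norm, g_eq m β b v s hτ, g_eq m β b v s hτ]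
  set z := τ⁻¹ • (x - b) with hz
  set z' := τ⁻¹ • (y - b) with hz'
  have hzz : ‖z - z'‖ = τ⁻¹ * ‖x - y‖ := by
    rw [hz, hz', ← smul_sub, norm_smul, Real.norm_of_nonneg (inv_nonneg.mpr hτ.le)]
    congr 2
    abel
  have e0 : ‖β z - β z'‖ ≤ C0 * ‖z - z'‖ := h0.norm_sub_le z z'
  have e1 : ‖β z • z - β z' • z'‖ ≤ C1 * ‖z - z'‖ := h1.norm_sub_le z z'
  have e2 : (τ ^ (m + 1)) • (β z • v) + (τ ^ (m + 1) * (s * τ)) • (β z • z) -
      ((τ ^ (m + 1)) • (β z' • v) + (τ ^ (m + 1) * (s * τ)) • (β z' • z')) =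
      (τ ^ (m + 1)) • ((β z - β z') • v) +
        (τ ^ (m + 1) * (s * τ)) • (β z • z - β z' • z') := by
    rw [sub_smul, smul_sub, smul_sub]
    abel
  rw [e2]
  have hp : τ ^ (m + 1) ≤ τ * τ := by
    obtain ⟨n, rfl⟩ : ∃ n, m = n + 1 := ⟨m - 1, by omega⟩
    have hn : τ ^ n ≤ 1 := pow_le_one₀ hτ.le hτ1
    calc τ ^ (n + 1 + 1) = τ ^ n * (τ * τ) := by ring
      _ ≤ 1 * (τ * τ) := mul_le_mul_of_nonneg_right hn (by positivity)
      _ = τ * τ := one_mul _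
  have hp0 : 0 ≤ τ ^ (m + 1) := by positivity
  have hD : 0 ≤ ‖x - y‖ := norm_nonneg _
  have a1 : ‖(τ ^ (m + 1)) • ((β z - β z') • v)‖ ≤ 2 * C0 * τ * ‖x - y‖ := by
    rw [norm_smul, norm_smul, Real.norm_of_nonneg hp0]
    calc τ ^ (m + 1) * (‖β z - β z'‖ * ‖v‖) ≤ (τ * τ) * ((C0 * ‖z - z'‖) * 2) := by
          gcongr
      _ = 2 * C0 * τ * ‖x - y‖ := by
          rw [hzz]
          field_simp
  have a2 : ‖(τ ^ (m + 1) * (s * τ)) • (β z • z - β z' • z')‖ ≤ 2 * C1 * τ * ‖x - y‖ := by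
    rw [norm_smul, norm_mul, norm_mul, Real.norm_of_nonneg hp0, Real.norm_of_nonneg hτ.le,
      Real.norm_eq_abs]
    calc τ ^ (m + 1) * (|s| * τ) * ‖β z • z - β z' • z'‖
        ≤ (τ * τ) * (2 * 1) * (C1 * ‖z - z'‖) := by
          gcongr
      _ = 2 * C1 * τ * ‖x - y‖ := by
          rw [hzz]
          field_simp
  have hC : ((1 / 2 : NNReal) : ℝ) = 1 / 2 := by norm_num
  rw [hC]
  calc _ ≤ ‖(τ ^ (m + 1)) • ((β z - β z') • v)‖ +
        ‖(τ ^ (m + 1) * (s * τ)) • (β z • z - β z' • z')‖ := norm_add_le _ _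
    _ ≤ 2 * C0 * τ * ‖x - y‖ + 2 * C1 * τ * ‖x - y‖ := add_le_add a1 a2
    _ = (τ * (4 * (C0 + C1))) * (1 / 2) * ‖x - y‖ := by ring
    _ ≤ 1 * (1 / 2) * ‖x - y‖ := by gcongr
    _ = 1 / 2 * ‖x - y‖ := by ring

theorem smooth {d : ℕ} (m : ℕ) {β : EE d → ℝ} (hβ : ContDiff ℝ ∞ β) (b v : EE d) {τ : ℝ}
    (s : ℝ) (hτ : 0 < τ) : ContDiff ℝ ∞ (g m β b v τ s) := by
  have e : g m β b v τ s = fun w => (τ ^ (m + 1) * β (τ⁻¹ • (w - b))) • (v + s • (w - b)) := by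
    funext w
    unfold g sb
    rw [if_pos hτ]
  rw [e]
  have h1 : ContDiff ℝ ∞ (fun w : EE d => w - b) := contDiff_id.sub contDiff_const
  have h3 : ContDiff ℝ ∞ (fun w : EE d => τ⁻¹ • (w - b)) := h1.const_smul τ⁻¹
  have h2 : ContDiff ℝ ∞ (fun w : EE d => β (τ⁻¹ • (w - b))) := hβ.comp h3
  have h4 : ContDiff ℝ ∞ (fun w : EE d => s • (w - b)) := h1.const_smul s
  have h5 : ContDiff ℝ ∞ (fun w : EE d => v + s • (w - b)) := contDiff_const.add h4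
  have h6 : ContDiff ℝ ∞ (fun w : EE d => τ ^ (m + 1) * β (τ⁻¹ • (w - b))) :=
    contDiff_const.mul h2
  exact h6.smul h5

end HbQS

theorem prHb : StHb := by
  intro d m β hm hin hout
  have hβ : ContDiff ℝ ∞ (fun x : EE d => β x) := β.contDiff
  obtain ⟨C0, hC0⟩ := hβ.lipschitzWith_of_hasCompactSupport β.hasCompactSupport (by simp)
  have h1 : ContDiff ℝ ∞ (fun x : EE d => β x • x) := hβ.smul contDiff_id
  obtain ⟨C1, hC1⟩ := h1.lipschitzWith_of_hasCompactSupport (β.hasCompactSupport.smul_right)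
    (by simp)
  have hpos : (0 : ℝ) < 4 * ((C0 : ℝ) + C1) + 1 := by positivity
  refine ⟨(4 * ((C0 : ℝ) + C1) + 1)⁻¹, inv_pos.mpr hpos, fun b v τ s hτ hττ hv hs => ?_⟩
  have hle : τ * (4 * ((C0 : ℝ) + C1) + 1) ≤ 1 := by
    have := mul_le_mul_of_nonneg_right hττ hpos.le
    rwa [inv_mul_cancel₀ hpos.ne'] at this
  have hc : (0 : ℝ) ≤ 4 * ((C0 : ℝ) + C1) := by positivity
  have hτ1 : τ ≤ 1 := by nlinarith
  have hτ2 : τ * (4 * ((C0 : ℝ) + C1)) ≤ 1 := by nlinarith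
  have hlip := HbQS.lip hm hC0 hC1 b hτ hτ1 hτ2 hv hs
  have hsm := HbQS.smooth m hβ b v s hτ
  obtain ⟨G, hG1, hG2, hG3⟩ := OmegaStab.Fam.exists_inv (c := 1 / 2) (by norm_num) hlip hsm
  have hz : ∀ x ∉ Metric.closedBall b τ, HbQS.g m β b v τ s x = 0 := by
    intro x hx
    have h2 : β (τ⁻¹ • (x - b)) = 0 := by
      refine β.zero_of_le_dist ?_
      rw [hout, dist_zero_right, norm_smul, Real.norm_of_nonneg (inv_nonneg.mpr hτ.le)]
      rw [Metric.mem_closedBall, not_le, dist_eq_norm] at hx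
      rw [← div_eq_inv_mul, le_div_iff₀ hτ, one_mul]
      exact hx.le
    unfold HbQS.g sb
    rw [if_pos hτ, h2, mul_zero, zero_smul]
  obtain ⟨hS1, hS2⟩ := OmegaStab.Fam.supp_of hz hG2 hG3
  exact ⟨G, contDiff_id.add hsm, hG1, hS1, hS2, hG2, hG3⟩

end Pool.Agent.OmegaQS
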