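import Pool.Agent.Work.MP_814647_an.QS.Stmts

/-!
# Item Iv: bound of the inverse of `D - 1`
-/

set_option autoImplicit false

open Set Filter Topology Function
open scoped Manifold ContDiff

noncomputable section

namespace Pool.Agent.OmegaQS

open Pool.Agent.OmegaStab (EE Dyn inCharts crTopology crSet HypLin HypAt)
open Pool.Agent.OmegaStability (ClosedManifold CrDiffeo IsComplexEigenvalue IsMultiplier
  derivativeAt HasBilipschitzCharts OmegaStable ClosesReturns)

universe u

namespace IvQS

variable {d : ℕ}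

open Matrix in
/-- The matrix of `D`. -/
def mat (D : EE d →L[ℝ] EE d) : Matrix (Fin d) (Fin d) ℝ :=
  Matrix.of fun i j => D (EuclideanSpace.single j 1) i

theorem apply_eq (D : EE d →L[ℝ] EE d) (v : EE d) (i : Fin d) :
    D v i = ∑ j, mat D i j * v j := by
  have h := (EuclideanSpace.basisFun (Fin d) ℝ).sum_repr v
  conv_lhs => rw [← h]
  rw [map_sum]
  simp only [map_smul, EuclideanSpace.basisFun_apply, EuclideanSpace.basisFun_repr]
  have h2 : (∑ x, v x • D (EuclideanSpace.single x 1)) i =
      ∑ x, (v x • D (EuclideanSpace.single x 1)) i := by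
    simp
  rw [h2]
  refine Finset.sum_congr rfl fun j _ => ?_
  simp [mat, mul_comm]

theorem abs_mat_le (D : EE d →L[ℝ] EE d) (i j : Fin d) : |mat D i j| ≤ ‖D‖ := by
  have h1 : ‖D (EuclideanSpace.single j (1 : ℝ)) i‖ ≤ ‖D (EuclideanSpace.single j (1 : ℝ))‖ :=
    PiLp.norm_apply_le _ i
  have h2 := D.le_opNorm (EuclideanSpace.single j (1 : ℝ))
  rw [PiLp.norm_single, norm_one, mul_one] at h2
  exact h1.trans h2

theorem eig_of_det (D : EE d →L[ℝ] EE d) (μ : ℂ)
    (h : (Matrix.scalar (Fin d) μ - (mat D).map Complex.ofReal).det = 0) :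
    IsComplexEigenvalue D μ := by
  obtain ⟨x, hx0, hx⟩ := Matrix.exists_mulVec_eq_zero_iff.2 h
  have hx' : ∀ i, ∑ j, ((mat D i j : ℝ) : ℂ) * x j = μ * x i := by
    intro i
    have h1 := congrFun hx i
    rw [Matrix.sub_mulVec, Pi.sub_apply, Matrix.scalar_apply, Pi.zero_apply,
      sub_eq_zero, Matrix.mulVec_diagonal] at h1
    rw [h1]
    rfl
  refine ⟨WithLp.toLp 2 fun i => (x i).re, WithLp.toLp 2 fun i => (x i).im, ?_, ?_, ?_⟩
  · by_contra hcon
    push Not at hcon
    apply hx0
    funext i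
    apply Complex.ext
    · have := congrArg (fun v : EE d => v i) hcon.1
      simpa using this
    · have := congrArg (fun v : EE d => v i) hcon.2
      simpa using this
  · ext i
    rw [apply_eq]
    have h1 := congrArg Complex.re (hx' i)
    rw [Complex.re_sum] at h1
    simp only [Complex.mul_re, Complex.ofReal_re, Complex.ofReal_im, zero_mul, sub_zero] at h1
    simp only [PiLp.sub_apply, PiLp.smul_apply, smul_eq_mul]
    exact h1
  · ext i
    rw [apply_eq]
    have h1 := congrArg Complex.im (hx' i)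
    rw [Complex.im_sum] at h1
    simp only [Complex.mul_im, Complex.ofReal_re, Complex.ofReal_im, zero_mul, add_zero] at h1
    simp only [PiLp.add_apply, PiLp.smul_apply, smul_eq_mul]
    exact h1.trans (by ring)

theorem prod_bound {ε : ℝ} (hε : 0 < ε) (s : Multiset ℂ) (h : ∀ z ∈ s, ε ≤ ‖1 - z‖) :
    ε ^ (Multiset.card s) ≤ ‖(s.map (fun z => 1 - z)).prod‖ := by
  induction s using Multiset.induction with
  | empty => simp
  | cons a s ih =>
    rw [Multiset.card_cons, Multiset.map_cons, Multiset.prod_cons, norm_mul, pow_succ, mul_comm]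
    refine mul_le_mul (h a (Multiset.mem_cons_self a s))
      (ih fun z hz => h z (Multiset.mem_cons_of_mem hz)) (by positivity) (norm_nonneg _)

theorem det_bound (D : EE d →L[ℝ] EE d) {ε : ℝ} (hε : 0 < ε)
    (h : ∀ μ : ℂ, IsComplexEigenvalue D μ → ε ≤ |‖μ‖ - 1|) :
    ε ^ d ≤ |(mat D - 1).det| := by
  set Aℂ : Matrix (Fin d) (Fin d) ℂ := (mat D).map Complex.ofReal with hA
  have hs : Aℂ.charpoly.Splits := IsAlgClosed.splits _
  have hm : Aℂ.charpoly.Monic := Aℂ.charpoly_monic
  have h1 := hs.eval_eq_prod_roots_of_monic hm 1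
  have hcard : Multiset.card Aℂ.charpoly.roots = d := by
    rw [← hs.natDegree_eq_card_roots, Matrix.charpoly_natDegree_eq_dim, Fintype.card_fin]
  have h2 := prod_bound hε Aℂ.charpoly.roots (by
    intro z hz
    have hz' : Aℂ.charpoly.eval z = 0 := (Polynomial.mem_roots'.1 hz).2
    rw [Matrix.eval_charpoly] at hz'
    have h3 := h z (eig_of_det D z hz')
    refine h3.trans ?_
    have h4 := abs_norm_sub_norm_le z 1
    rw [norm_one] at h4
    rwa [norm_sub_rev] at h4)
  rw [hcard, ← h1, Matrix.eval_charpoly] at h2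
  have h5 : (Matrix.scalar (Fin d) (1 : ℂ) - Aℂ) = ((1 - mat D).map Complex.ofReal) := by
    ext i j
    rw [hA]
    simp only [map_one, Matrix.sub_apply, Matrix.map_apply, Complex.ofReal_sub]
    congr 1
    by_cases hij : i = j
    · subst hij; simp
    · simp [Matrix.one_apply_ne hij]
  have h6 : (((1 - mat D).map Complex.ofReal)).det = (((1 - mat D).det : ℝ) : ℂ) := by
    exact (RingHom.map_det Complex.ofRealHom (1 - mat D)).symm
  rw [h5, h6, Complex.norm_real, Real.norm_eq_abs] at h2
  have h7 : (1 - mat D) = -(mat D - 1) := by abel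
  rw [h7, Matrix.det_neg, abs_mul, abs_pow, abs_neg, abs_one, one_pow, one_mul] at h2
  exact h2

theorem adj_bound (B : Matrix (Fin d) (Fin d) ℝ) {x : ℝ} (hx : 1 ≤ x)
    (h : ∀ i j, |B i j| ≤ x) (i j : Fin d) : |B.adjugate i j| ≤ (d.factorial : ℝ) * x ^ d := by
  rw [Matrix.adjugate_apply]
  have h1 := Matrix.det_le (A := B.updateRow j (Pi.single i 1)) (abv := AbsoluteValue.abs)
    (x := x) (by
      intro a b
      show |_| ≤ x
      by_cases ha : a = j
      · subst ha
        rw [Matrix.updateRow_self]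
        by_cases hb : b = i
        · subst hb; simpa using hx
        · rw [Pi.single_eq_of_ne hb, abs_zero]
          linarith
      · rw [Matrix.updateRow_ne ha]
        exact h a b)
  rw [Fintype.card_fin, nsmul_eq_mul] at h1
  exact h1

theorem norm_le_sum (v : EE d) : ‖v‖ ≤ ∑ i, |v i| := by
  have h := (EuclideanSpace.basisFun (Fin d) ℝ).sum_repr v
  conv_lhs => rw [← h]
  refine (norm_sum_le _ _).trans (le_of_eq ?_)
  refine Finset.sum_congr rfl fun i _ => ?_
  rw [norm_smul, EuclideanSpace.basisFun_apply, PiLp.norm_single, norm_one, mul_one]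
  rfl

end IvQS

open IvQS in
theorem prIv : StIv := by
  intro d
  refine ⟨(d : ℝ) * d * (d.factorial : ℝ) + 1, by
    have : (0 : ℝ) ≤ (d : ℝ) * d * (d.factorial : ℝ) := by positivity
    linarith, ?_⟩
  intro D ε P hε hP h v
  have hP0 : 0 ≤ P := (norm_nonneg D).trans hP
  have h1 := det_bound D hε h
  set B := mat D - 1 with hB
  have hent : ∀ i j, |B i j| ≤ 1 + P := by
    intro i j
    rw [hB, Matrix.sub_apply]
    refine (abs_sub _ _).trans ?_
    have h2 := (abs_mat_le D i j).trans hP
    have h3 : |(1 : Matrix (Fin d) (Fin d) ℝ) i j| ≤ 1 := by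
      by_cases hij : i = j
      · subst hij; simp
      · simp [Matrix.one_apply_ne hij]
    linarith
  set Kc : ℝ := (d.factorial : ℝ) * (1 + P) ^ d with hKc
  have hadj := adj_bound B (x := 1 + P) (by linarith) hent
  have hBv : ∀ j, ∑ k, B j k * v k = (D v - v) j := by
    intro j
    rw [PiLp.sub_apply, apply_eq, hB]
    simp only [Matrix.sub_apply, sub_mul, Finset.sum_sub_distrib]
    congr 1
    rw [Finset.sum_eq_single j]
    · simp
    · intro k _ hk
      rw [Matrix.one_apply_ne (Ne.symm hk), zero_mul]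
    · intro hj
      exact absurd (Finset.mem_univ j) hj
  have hcomp : ∀ i, B.det * v i = ∑ j, B.adjugate i j * (D v - v) j := by
    intro i
    have h2 := congrArg (fun X : Matrix (Fin d) (Fin d) ℝ => (X.mulVec (fun k => v k)) i)
      (Matrix.adjugate_mul B)
    simp only [← Matrix.mulVec_mulVec, Matrix.smul_mulVec, Matrix.one_mulVec, Pi.smul_apply,
      smul_eq_mul] at h2
    rw [← h2]
    show ∑ j, B.adjugate i j * ∑ k, B j k * v k = _
    refine Finset.sum_congr rfl fun j _ => ?_
    rw [← hBv j]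
  have hcompb : ∀ i, |B.det| * |v i| ≤ d * (Kc * ‖D v - v‖) := by
    intro i
    rw [← abs_mul, hcomp i]
    refine (Finset.abs_sum_le_sum_abs _ _).trans ?_
    have h3 : ∀ j ∈ (Finset.univ : Finset (Fin d)),
        |B.adjugate i j * (D v - v) j| ≤ Kc * ‖D v - v‖ := by
      intro j _
      rw [abs_mul]
      have h4 : |(D v - v) j| ≤ ‖D v - v‖ := by
        have := PiLp.norm_apply_le (D v - v) j
        rwa [Real.norm_eq_abs] at this
      exact mul_le_mul (hadj i j) h4 (abs_nonneg _) (by positivity)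
    have h5 := Finset.sum_le_card_nsmul (Finset.univ : Finset (Fin d))
      (fun j => |B.adjugate i j * (D v - v) j|) (Kc * ‖D v - v‖) h3
    rw [Finset.card_univ, Fintype.card_fin, nsmul_eq_mul] at h5
    exact h5
  have hsum : |B.det| * ‖v‖ ≤ d * (d * (Kc * ‖D v - v‖)) := by
    calc |B.det| * ‖v‖ ≤ |B.det| * ∑ i, |v i| :=
          mul_le_mul_of_nonneg_left (norm_le_sum v) (abs_nonneg _)
      _ = ∑ i, |B.det| * |v i| := Finset.mul_sum _ _ _
      _ ≤ _ := by
          have h6 := Finset.sum_le_card_nsmul (Finset.univ : Finset (Fin d))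
            (fun i => |B.det| * |v i|) (d * (Kc * ‖D v - v‖)) (fun i _ => hcompb i)
          rw [Finset.card_univ, Fintype.card_fin, nsmul_eq_mul] at h6
          exact h6
  have hfin : ‖v‖ * ε ^ d ≤ |B.det| * ‖v‖ := by
    rw [mul_comm]
    exact mul_le_mul_of_nonneg_right h1 (norm_nonneg _)
  refine hfin.trans (hsum.trans ?_)
  have h7 : (0 : ℝ) ≤ (1 + P) ^ d * ‖D v - v‖ := by positivity
  rw [hKc]
  nlinarith [h7]

end Pool.Agent.OmegaQS
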