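import Pool.Agent.Work.MP_814647_an.QS.Stmts

/-!
# Closing returns without perturbation, item Lp (helper35): C^1 maps are Lipschitz
-/

set_option autoImplicit false

open Set Filter Topology Function
open scoped Manifold ContDiff

noncomputable section

namespace Pool.Agent.OmegaQS

open Pool.Agent.OmegaStab (EE Dyn inCharts crTopology crSet HypLin HypAt)
open Pool.Agent.OmegaStability (ClosedManifold CrDiffeo IsComplexEigenvalue IsMultiplier
  derivativeAt HasBilipschitzCharts OmegaStable ClosesReturns)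

universe u

namespace LpQS

theorem near (M : ClosedManifold.{u}) (A : Atl M) (g : M.carrier → M.carrier) (L : ℕ)
    (hM : MetOK M A L) (hU : U1OK M A g L) (x y : M.carrier) (hxy : dist x y < 1 / (L : ℝ) ^ 3) :
    dist (g x) (g y) ≤ (L : ℝ) ^ 3 * dist x y := by
  have hL2 : (2 : ℝ) ≤ L := by exact_mod_cast hM.two
  have hL0 : (0 : ℝ) < L := by linarith
  have hd0 : 0 ≤ dist x y := dist_nonneg
  have h1 : (L : ℝ) ^ 3 * dist x y < 1 := by
    rw [lt_div_iff₀ (by positivity)] at hxy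
    linarith
  have hLL : (L : ℝ) ≤ (L : ℝ) ^ 2 := by nlinarith
  have hLL2 : (L : ℝ) ^ 2 ≤ (L : ℝ) ^ 3 := by nlinarith [sq_nonneg (L : ℝ)]
  have h3 : dist x y < 1 / (L : ℝ) := by
    rw [lt_div_iff₀ hL0]
    nlinarith
  obtain ⟨i, hi⟩ := A.cov x
  obtain ⟨i', hi'⟩ := A.cov (g x)
  have hx : x ∈ A.K i := hi (Metric.mem_ball_self A.pos)
  have hgx : g x ∈ A.K i' := hi' (Metric.mem_ball_self A.pos)
  obtain ⟨hys, hyd⟩ := hM.fwd i x hx y h3
  obtain ⟨hball, hC⟩ := hU i i' x hx hgx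
  have hyb : ch M (A.q i) y ∈ Metric.ball (ch M (A.q i) x) (1 / (L : ℝ)) := by
    rw [Metric.mem_ball, dist_eq_norm, lt_div_iff₀ hL0]
    calc ‖ch M (A.q i) y - ch M (A.q i) x‖ * L ≤ (L * dist x y) * L :=
          mul_le_mul_of_nonneg_right hyd hL0.le
      _ = (L : ℝ) ^ 2 * dist x y := by ring
      _ ≤ (L : ℝ) ^ 3 * dist x y := mul_le_mul_of_nonneg_right hLL2 hd0
      _ < 1 := h1
  have hxb : ch M (A.q i) x ∈ Metric.ball (ch M (A.q i) x) (1 / (L : ℝ)) :=
    Metric.mem_ball_self (by positivity)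
  have hlx : (ch M (A.q i)).symm (ch M (A.q i) x) = x := (ch M (A.q i)).left_inv (A.sub i hx)
  have hly : (ch M (A.q i)).symm (ch M (A.q i) y) = y := (ch M (A.q i)).left_inv hys
  have hgy : g y ∈ (ch M (A.q i')).source := by
    have := (hball _ hyb).2
    rwa [hly] at this
  have hG : ‖ch M (A.q i') (g y) - ch M (A.q i') (g x)‖ ≤
      L * ‖ch M (A.q i) y - ch M (A.q i) x‖ := by
    have := Convex.norm_image_sub_le_of_norm_fderiv_le (𝕜 := ℝ) hC.diff hC.bound
      (convex_ball _ _) hxb hyb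
    have e1 : ic M (A.q i) (A.q i') g (ch M (A.q i) y) = ch M (A.q i') (g y) := by
      change ch M (A.q i') (g ((ch M (A.q i)).symm (ch M (A.q i) y))) = _
      rw [hly]
    have e2 : ic M (A.q i) (A.q i') g (ch M (A.q i) x) = ch M (A.q i') (g x) := by
      change ch M (A.q i') (g ((ch M (A.q i)).symm (ch M (A.q i) x))) = _
      rw [hlx]
    rwa [e1, e2] at this
  have hG2 : ‖ch M (A.q i') (g y) - ch M (A.q i') (g x)‖ ≤ (L : ℝ) ^ 2 * dist x y := by
    calc ‖ch M (A.q i') (g y) - ch M (A.q i') (g x)‖ ≤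
        L * ‖ch M (A.q i) y - ch M (A.q i) x‖ := hG
      _ ≤ L * (L * dist x y) := mul_le_mul_of_nonneg_left hyd hL0.le
      _ = (L : ℝ) ^ 2 * dist x y := by ring
  have hgyb : ch M (A.q i') (g y) ∈ Metric.ball (ch M (A.q i') (g x)) (1 / (L : ℝ)) := by
    rw [Metric.mem_ball, dist_eq_norm, lt_div_iff₀ hL0]
    calc ‖ch M (A.q i') (g y) - ch M (A.q i') (g x)‖ * L ≤ ((L : ℝ) ^ 2 * dist x y) * L :=
          mul_le_mul_of_nonneg_right hG2 hL0.le
      _ = (L : ℝ) ^ 3 * dist x y := by ring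
      _ < 1 := h1
  have hfin := (hM.inv i' (g x) hgx _ hgyb).2
  rw [(ch M (A.q i')).left_inv hgy] at hfin
  calc dist (g x) (g y) ≤ L * ‖ch M (A.q i') (g y) - ch M (A.q i') (g x)‖ := hfin
    _ ≤ L * ((L : ℝ) ^ 2 * dist x y) := mul_le_mul_of_nonneg_left hG2 hL0.le
    _ = (L : ℝ) ^ 3 * dist x y := by ring

theorem key (M : ClosedManifold.{u}) (A : Atl M) (g : M.carrier → M.carrier) (L : ℕ)
    (hM : MetOK M A L) (hU : U1OK M A g L) (x y : M.carrier) :
    dist (g x) (g y) ≤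
      max ((L : ℝ) ^ 3) (Metric.diam (univ : Set M.carrier) * (L : ℝ) ^ 3) * dist x y := by
  have hL2 : (2 : ℝ) ≤ L := by exact_mod_cast hM.two
  have hL0 : (0 : ℝ) < L := by linarith
  by_cases hxy : dist x y < 1 / (L : ℝ) ^ 3
  · exact (near M A g L hM hU x y hxy).trans
      (mul_le_mul_of_nonneg_right (le_max_left _ _) dist_nonneg)
  · have h1 : 1 ≤ (L : ℝ) ^ 3 * dist x y := by
      rw [not_lt, div_le_iff₀ (by positivity)] at hxy
      linarith
    have hD : dist (g x) (g y) ≤ Metric.diam (univ : Set M.carrier) :=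
      Metric.dist_le_diam_of_mem isCompact_univ.isBounded (mem_univ _) (mem_univ _)
    calc dist (g x) (g y) ≤ Metric.diam (univ : Set M.carrier) * 1 := by rw [mul_one]; exact hD
      _ ≤ Metric.diam (univ : Set M.carrier) * ((L : ℝ) ^ 3 * dist x y) :=
          mul_le_mul_of_nonneg_left h1 Metric.diam_nonneg
      _ = Metric.diam (univ : Set M.carrier) * (L : ℝ) ^ 3 * dist x y := by ring
      _ ≤ _ := mul_le_mul_of_nonneg_right (le_max_right _ _) dist_nonneg

end LpQS

theorem prLp : StLp.{u} := by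
  intro M A g h1 h2
  obtain ⟨L, hM, hU⟩ := (h1.and h2).exists
  filter_upwards [eventually_ge_atTop ⌈max ((L : ℝ) ^ 3)
    (Metric.diam (univ : Set M.carrier) * (L : ℝ) ^ 3)⌉₊] with N hN x y
  refine (LpQS.key M A g L hM hU x y).trans (mul_le_mul_of_nonneg_right ?_ dist_nonneg)
  exact Nat.le_of_ceil_le hN

end Pool.Agent.OmegaQS
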