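import Pool.Agent.Work.MP_814647_an.QS.Stmts

/-!
# Item Mt: comparison of the metric and the charts
-/

set_option autoImplicit false

open Set Filter Topology Function
open scoped Manifold ContDiff

noncomputable section

namespace Pool.Agent.OmegaQS

open Pool.Agent.OmegaStab (EE Dyn inCharts crTopology crSet HypLin HypAt)
open Pool.Agent.OmegaStability (ClosedManifold CrDiffeo IsComplexEigenvalue IsMultiplier
  derivativeAt HasBilipschitzCharts OmegaStable ClosesReturns)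

universe u

namespace MtQS

/-- Step 1: uniform constants for the bi-Lipschitz property near a compact set. -/
theorem step1 {X E : Type*} [MetricSpace X] [NormedAddCommGroup E] (φ : PartialEquiv X E)
    {K : Set X} (hK : IsCompact K) (hsub : K ⊆ φ.source) (hopen : IsOpen φ.source)
    (hb : ∀ x ∈ φ.source, ∃ L : ℝ, ∃ U ∈ 𝓝 x, ∀ y ∈ U, ∀ z ∈ U,
      ‖φ y - φ z‖ ≤ L * dist y z ∧ dist y z ≤ L * ‖φ y - φ z‖) :
    ∃ ρ : ℝ, 0 < ρ ∧ ∃ L₀ : ℝ, ∀ x ∈ K, ∀ y, dist x y < ρ →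
      y ∈ φ.source ∧ ‖φ y - φ x‖ ≤ L₀ * dist x y ∧ dist x y ≤ L₀ * ‖φ y - φ x‖ := by
  refine hK.induction_on (p := fun S => ∃ ρ : ℝ, 0 < ρ ∧ ∃ L₀ : ℝ, ∀ x ∈ S, ∀ y, dist x y < ρ →
      y ∈ φ.source ∧ ‖φ y - φ x‖ ≤ L₀ * dist x y ∧ dist x y ≤ L₀ * ‖φ y - φ x‖) ?_ ?_ ?_ ?_
  · exact ⟨1, one_pos, 0, fun x hx => absurd hx (notMem_empty x)⟩
  · rintro s t hst ⟨ρ, hρ, L, h⟩
    exact ⟨ρ, hρ, L, fun x hx => h x (hst hx)⟩
  · rintro s t ⟨ρ, hρ, L, h⟩ ⟨ρ', hρ', L', h'⟩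
    refine ⟨min ρ ρ', lt_min hρ hρ', max L L', ?_⟩
    intro x hx y hy
    rcases hx with hx | hx
    · obtain ⟨h1, h2, h3⟩ := h x hx y (hy.trans_le (min_le_left _ _))
      exact ⟨h1, h2.trans (mul_le_mul_of_nonneg_right (le_max_left _ _) dist_nonneg),
        h3.trans (mul_le_mul_of_nonneg_right (le_max_left _ _) (norm_nonneg _))⟩
    · obtain ⟨h1, h2, h3⟩ := h' x hx y (hy.trans_le (min_le_right _ _))
      exact ⟨h1, h2.trans (mul_le_mul_of_nonneg_right (le_max_right _ _) dist_nonneg),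
        h3.trans (mul_le_mul_of_nonneg_right (le_max_right _ _) (norm_nonneg _))⟩
  · intro x hx
    obtain ⟨L, U, hU, hL⟩ := hb x (hsub hx)
    have hU' : U ∩ φ.source ∈ 𝓝 x := inter_mem hU (hopen.mem_nhds (hsub hx))
    obtain ⟨ε, hε, hball⟩ := Metric.mem_nhds_iff.1 hU'
    refine ⟨Metric.ball x (ε / 2), mem_nhdsWithin_of_mem_nhds
      (Metric.ball_mem_nhds x (half_pos hε)), ε / 2, half_pos hε, L, ?_⟩
    intro a ha y hay
    rw [Metric.mem_ball] at ha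
    have ha' : a ∈ U ∩ φ.source := hball (by rw [Metric.mem_ball]; linarith)
    have hy' : y ∈ U ∩ φ.source := hball (by
      rw [Metric.mem_ball]
      have := dist_triangle y a x
      rw [dist_comm y a] at this
      linarith)
    obtain ⟨h1, h2⟩ := hL y hy'.1 a ha'.1
    rw [dist_comm y a] at h1 h2
    exact ⟨hy'.2, h1, h2⟩

/-- Step 2: uniform continuity of the inverse near a compact set. -/
theorem step2 {X E : Type*} [MetricSpace X] [NormedAddCommGroup E] (φ : PartialEquiv X E)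
    {K : Set X} (hK : IsCompact K) (hsub : K ⊆ φ.source) (hopen : IsOpen φ.source)
    (htar : IsOpen φ.target) (hc : ContinuousOn φ φ.source) (hc' : ContinuousOn φ.symm φ.target)
    {ρ : ℝ} (hρ : 0 < ρ) :
    ∃ η : ℝ, 0 < η ∧ ∀ x ∈ K, ∀ w, dist w (φ x) < η → w ∈ φ.target ∧
      dist x (φ.symm w) < ρ := by
  refine hK.induction_on (p := fun S => ∃ η : ℝ, 0 < η ∧ ∀ x ∈ S, ∀ w, dist w (φ x) < η →
    w ∈ φ.target ∧ dist x (φ.symm w) < ρ) ?_ ?_ ?_ ?_
  · exact ⟨1, one_pos, fun x hx => absurd hx (notMem_empty x)⟩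
  · rintro s t hst ⟨η, hη, h⟩
    exact ⟨η, hη, fun x hx => h x (hst hx)⟩
  · rintro s t ⟨η, hη, h⟩ ⟨η', hη', h'⟩
    refine ⟨min η η', lt_min hη hη', ?_⟩
    intro x hx w hw
    rcases hx with hx | hx
    · exact h x hx w (hw.trans_le (min_le_left _ _))
    · exact h' x hx w (hw.trans_le (min_le_right _ _))
  · intro x hx
    have hxs := hsub hx
    have hxt : φ x ∈ φ.target := φ.map_source hxs
    have h1 : ContinuousAt φ.symm (φ x) := hc'.continuousAt (htar.mem_nhds hxt)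
    have h2 : ContinuousAt φ x := hc.continuousAt (hopen.mem_nhds hxs)
    have h3 : φ.symm ⁻¹' (Metric.ball x (ρ / 2)) ∈ 𝓝 (φ x) := by
      apply h1.preimage_mem_nhds
      rw [φ.left_inv hxs]
      exact Metric.ball_mem_nhds x (half_pos hρ)
    obtain ⟨ε, hε, hball⟩ := Metric.mem_nhds_iff.1 (inter_mem h3 (htar.mem_nhds hxt))
    have h4 : φ ⁻¹' (Metric.ball (φ x) (ε / 2)) ∩ Metric.ball x (ρ / 2) ∈ 𝓝 x :=
      inter_mem (h2.preimage_mem_nhds (Metric.ball_mem_nhds _ (half_pos hε)))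
        (Metric.ball_mem_nhds x (half_pos hρ))
    refine ⟨_, mem_nhdsWithin_of_mem_nhds h4, ε / 2, half_pos hε, ?_⟩
    intro a ha w hw
    obtain ⟨ha1, ha2⟩ := ha
    rw [mem_preimage, Metric.mem_ball] at ha1
    rw [Metric.mem_ball] at ha2
    have hw' : w ∈ φ.symm ⁻¹' (Metric.ball x (ρ / 2)) ∩ φ.target := hball (by
      rw [Metric.mem_ball]
      have := dist_triangle w (φ a) (φ x)
      linarith)
    refine ⟨hw'.2, ?_⟩
    have h5 : dist (φ.symm w) x < ρ / 2 := by simpa [mem_preimage, Metric.mem_ball] using hw'.1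
    have h6 := dist_triangle a x (φ.symm w)
    rw [dist_comm x (φ.symm w)] at h6
    linarith

/-- The two steps together, for all large `L`. -/
theorem step3 {X E : Type*} [MetricSpace X] [NormedAddCommGroup E] (φ : PartialEquiv X E)
    {K : Set X} (hK : IsCompact K) (hsub : K ⊆ φ.source) (hopen : IsOpen φ.source)
    (htar : IsOpen φ.target) (hc : ContinuousOn φ φ.source) (hc' : ContinuousOn φ.symm φ.target)
    (hb : ∀ x ∈ φ.source, ∃ L : ℝ, ∃ U ∈ 𝓝 x, ∀ y ∈ U, ∀ z ∈ U,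
      ‖φ y - φ z‖ ≤ L * dist y z ∧ dist y z ≤ L * ‖φ y - φ z‖) :
    ∀ᶠ L : ℕ in atTop,
      (∀ x ∈ K, ∀ w ∈ Metric.ball (φ x) (1 / (L : ℝ)),
        w ∈ φ.target ∧ dist x (φ.symm w) ≤ L * ‖w - φ x‖) ∧
      (∀ x ∈ K, ∀ y, dist x y < 1 / (L : ℝ) →
        y ∈ φ.source ∧ ‖φ y - φ x‖ ≤ L * dist x y) := by
  obtain ⟨ρ, hρ, L₀, h1⟩ := step1 φ hK hsub hopen hb
  obtain ⟨η, hη, h2⟩ := step2 φ hK hsub hopen htar hc hc' hρ
  have e : Tendsto (fun L : ℕ => (L : ℝ)) atTop atTop := tendsto_natCast_atTop_atTop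
  filter_upwards [e.eventually_ge_atTop L₀, e.eventually_ge_atTop (1 / ρ),
    e.eventually_ge_atTop (1 / η)] with L hL0 hL1 hL2
  have k1 : 1 / (L : ℝ) ≤ ρ := by
    have := one_div_le_one_div_of_le (one_div_pos.2 hρ) hL1
    rwa [one_div_one_div] at this
  have k2 : 1 / (L : ℝ) ≤ η := by
    have := one_div_le_one_div_of_le (one_div_pos.2 hη) hL2
    rwa [one_div_one_div] at this
  refine ⟨?_, ?_⟩
  · intro x hx w hw
    rw [Metric.mem_ball] at hw
    obtain ⟨hwt, hd⟩ := h2 x hx w (hw.trans_le k2)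
    refine ⟨hwt, ?_⟩
    obtain ⟨-, -, h3⟩ := h1 x hx (φ.symm w) hd
    rw [φ.right_inv hwt] at h3
    exact h3.trans (mul_le_mul_of_nonneg_right hL0 (norm_nonneg _))
  · intro x hx y hy
    obtain ⟨h3, h4, -⟩ := h1 x hx y (hy.trans_le k1)
    exact ⟨h3, h4.trans (mul_le_mul_of_nonneg_right hL0 dist_nonneg)⟩

end MtQS

/-- Item Mt. -/
theorem prMt : StMt.{u} := by
  intro M hM A
  have e : Tendsto (fun L : ℕ => (L : ℝ)) atTop atTop := tendsto_natCast_atTop_atTop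
  have hall : ∀ᶠ L : ℕ in atTop, ∀ i : Fin A.m,
      (∀ x ∈ A.K i, ∀ w ∈ Metric.ball (ch M (A.q i) x) (1 / (L : ℝ)),
        w ∈ (ch M (A.q i)).target ∧
          dist x ((ch M (A.q i)).symm w) ≤ L * ‖w - ch M (A.q i) x‖) ∧
      (∀ x ∈ A.K i, ∀ y, dist x y < 1 / (L : ℝ) →
        y ∈ (ch M (A.q i)).source ∧ ‖ch M (A.q i) y - ch M (A.q i) x‖ ≤ L * dist x y) := by
    rw [eventually_all]
    intro i
    exact MtQS.step3 (ch M (A.q i)) (A.cpt i) (A.sub i) (isOpen_extChartAt_source (A.q i))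
      (isOpen_extChartAt_target (A.q i)) (continuousOn_extChartAt (A.q i))
      (continuousOn_extChartAt_symm (A.q i)) (fun x hx => hM (A.q i) x hx)
  filter_upwards [hall, eventually_ge_atTop 2, e.eventually_ge_atTop (1 / A.δ)] with L h1 h2 h3
  refine ⟨h2, ?_, fun i => (h1 i).1, fun i => (h1 i).2⟩
  rwa [div_le_iff₀ A.pos] at h3

end Pool.Agent.OmegaQS
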