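import Pool.Agent.Work.MP_814647_an.QS.Stmts

set_option autoImplicit false

/-!
# Block QS, item Ni: displacement bound near a fixed point
-/

open Set Filter Topology Function
open scoped Manifold ContDiff

noncomputable section

namespace Pool.Agent.OmegaQS

open Pool.Agent.OmegaStab (EE Dyn inCharts crTopology crSet HypLin HypAt)
open Pool.Agent.OmegaStability (ClosedManifold CrDiffeo IsComplexEigenvalue IsMultiplier
  derivativeAt HasBilipschitzCharts OmegaStable ClosesReturns)

universe u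

theorem prNi : StNi := by
  intro d G a R P Λ B ρ hC hΛ hB hρ hρR hsmall hinv hfix w hw
  have hsub : ∀ u ∈ Metric.closedBall a ρ, u ∈ Metric.ball a R := fun u hu =>
    Metric.mem_ball.mpr (lt_of_le_of_lt (Metric.mem_closedBall.mp hu) hρR)
  have haR : a ∈ Metric.ball a R := hsub a (Metric.mem_closedBall_self hρ.le)
  have hw' : w ∈ Metric.closedBall a ρ := by rwa [Metric.mem_closedBall, dist_eq_norm]
  have key := (convex_closedBall a ρ).norm_image_sub_le_of_norm_fderiv_le' (𝕜 := ℝ) (f := G)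
    (C := Λ * ρ) (φ := fderiv ℝ G a) (fun u hu => hC.diff u (hsub u hu))
    (fun u hu => (hC.lip u (hsub u hu) a haR).trans (by
      have : ‖u - a‖ ≤ ρ := by rw [← dist_eq_norm]; exact Metric.mem_closedBall.mp hu
      exact mul_le_mul_of_nonneg_left this hΛ))
    (Metric.mem_closedBall_self hρ.le) hw'
  have h1 := hinv (w - a)
  have h2 : ‖fderiv ℝ G a (w - a) - (w - a)‖ ≤ ‖G w - w‖ + Λ * ρ * ‖w - a‖ := by
    have e : fderiv ℝ G a (w - a) - (w - a) = (G w - w) - (G w - G a - fderiv ℝ G a (w - a)) := by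
      rw [hfix]; abel
    rw [e]
    exact (norm_sub_le _ _).trans (by linarith)
  have h3 : ‖w - a‖ ≤ B * (‖G w - w‖ + Λ * ρ * ‖w - a‖) :=
    h1.trans (mul_le_mul_of_nonneg_left h2 hB.le)
  have h4 : 2 * B * Λ * ρ * ‖w - a‖ ≤ 1 * ‖w - a‖ :=
    mul_le_mul_of_nonneg_right hsmall (norm_nonneg _)
  nlinarith

end Pool.Agent.OmegaQS
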