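import Pool.Agent.Work.MP_814647_an.QS.Stmts

/-!
# Item Nw of the block [814647 QS]: Newton's method
-/

set_option autoImplicit false

open Set Filter Topology Function
open scoped Manifold ContDiff

noncomputable section

namespace Pool.Agent.OmegaQS

open Pool.Agent.OmegaStab (EE Dyn inCharts crTopology crSet HypLin HypAt)
open Pool.Agent.OmegaStability (ClosedManifold CrDiffeo IsComplexEigenvalue IsMultiplier
  derivativeAt HasBilipschitzCharts OmegaStable ClosesReturns)

universe u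

namespace NwQS

open scoped NNReal

/-- nonlinear right inverse of an expanding linear map -/
theorem exists_rinv {d : ℕ} (A : EE d →L[ℝ] EE d) (B : ℝ) (hB : 0 < B)
    (h : ∀ v, ‖v‖ ≤ B * ‖A v‖) : ∃ S : A.NonlinearRightInverse, (S.nnnorm : ℝ) = B := by
  have hinj : Injective A := by
    rw [injective_iff_map_eq_zero]
    intro v hv
    have := h v
    rw [hv, norm_zero, mul_zero] at this
    exact norm_le_zero_iff.1 this
  have hsurj : Surjective A := (LinearMap.injective_iff_surjective (f := (A : EE d →ₗ[ℝ] EE d))).1 hinj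
  choose s hs using hsurj
  refine ⟨{ toFun := s, nnnorm := ⟨B, hB.le⟩, bound' := ?_, right_inv' := hs }, rfl⟩
  intro y
  have := h (s y)
  rwa [hs] at this

theorem nw (d : ℕ) (G : EE d → EE d) (a : EE d) (R P Λ B ρ : ℝ) (hG : C11 G a R P Λ)
    (hΛ : 0 ≤ Λ) (hB : 0 < B) (hρ : 0 < ρ) (hR : ρ < R) (h1 : 2 * B * Λ * ρ ≤ 1)
    (hv : ∀ v, ‖v‖ ≤ B * ‖fderiv ℝ G a v - v‖) (h2 : 2 * B * ‖G a - a‖ ≤ ρ) :
    ∃ w, ‖w - a‖ ≤ 2 * B * ‖G a - a‖ ∧ G w = w := by
  set A : EE d →L[ℝ] EE d := fderiv ℝ G a - ContinuousLinearMap.id ℝ (EE d) with hA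
  obtain ⟨S, hS⟩ := exists_rinv A B hB (fun v => by simpa [hA] using hv v)
  have hsub : Metric.closedBall a ρ ⊆ Metric.ball a R := Metric.closedBall_subset_ball hR
  have haR : a ∈ Metric.ball a R := Metric.mem_ball_self (hρ.trans hR)
  have hap : ApproximatesLinearOn (fun w => G w - w) A (Metric.closedBall a ρ)
      (⟨Λ * ρ, by positivity⟩ : ℝ≥0) := by
    intro x hx y hy
    have := Convex.norm_image_sub_le_of_norm_hasFDerivWithin_le' (f := fun w => G w - w)
      (f' := fun u => fderiv ℝ G u - ContinuousLinearMap.id ℝ (EE d)) (φ := A) (C := Λ * ρ)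
      (s := Metric.closedBall a ρ) ?_ ?_ (convex_closedBall a ρ) hy hx
    · exact this
    · intro u hu
      exact ((hG.diff u (hsub hu)).hasFDerivAt.sub (hasFDerivAt_id u)).hasFDerivWithinAt
    · intro u hu
      have h3 := hG.lip u (hsub hu) a haR
      have h4 : ‖u - a‖ ≤ ρ := by simpa [dist_eq_norm] using hu
      have h5 : fderiv ℝ G u - ContinuousLinearMap.id ℝ (EE d) - A = fderiv ℝ G u - fderiv ℝ G a := by
        rw [hA]; abel
      rw [h5]
      exact h3.trans (mul_le_mul_of_nonneg_left h4 hΛ)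
  have hε : 0 ≤ 2 * B * ‖G a - a‖ := by positivity
  have hs := hap.surjOn_closedBall_of_nonlinearRightInverse S (b := a) hε
    (Metric.closedBall_subset_closedBall h2)
  have hmem : (0 : EE d) ∈ Metric.closedBall (G a - a)
      (((S.nnnorm : ℝ)⁻¹ - ((⟨Λ * ρ, by positivity⟩ : ℝ≥0) : ℝ)) * (2 * B * ‖G a - a‖)) := by
    rw [Metric.mem_closedBall, dist_zero_left, hS]
    change ‖G a - a‖ ≤ (B⁻¹ - Λ * ρ) * (2 * B * ‖G a - a‖)
    have h6 : (B⁻¹ - Λ * ρ) * (2 * B * ‖G a - a‖) = (2 - 2 * B * Λ * ρ) * ‖G a - a‖ := by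
      field_simp
    rw [h6]
    nlinarith [norm_nonneg (G a - a)]
  obtain ⟨w, hw, hw0⟩ := hs hmem
  refine ⟨w, by simpa [dist_eq_norm] using hw, ?_⟩
  exact sub_eq_zero.1 hw0

end NwQS

theorem prNw : StNw := NwQS.nw

end Pool.Agent.OmegaQS
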