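import Pool.Agent.Work.MP_814647_an.QS.Stmts

/-!
# Item Pe: uniform perturbations
-/

set_option autoImplicit false

open Set Filter Topology Function
open scoped Manifold ContDiff

noncomputable section

namespace Pool.Agent.OmegaQS

open Pool.Agent.OmegaStab (EE Dyn inCharts crTopology crSet HypLin HypAt)
open Pool.Agent.OmegaStability (ClosedManifold CrDiffeo IsComplexEigenvalue IsMultiplier
  derivativeAt HasBilipschitzCharts OmegaStable ClosesReturns)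

universe u

namespace PeQS

theorem supp_mono {d : ℕ} {K K' : Set (EE d)} {H : EE d → EE d} (h : OmegaStab.Fam.Supp K H)
    (hK : K ⊆ K') : OmegaStab.Fam.Supp K' H := by
  refine ⟨fun x hx => h.1 x fun hx' => hx (hK hx'), fun x hx => ?_⟩
  by_cases hxK : x ∈ K
  · exact hK (h.2 x hxK)
  · rwa [h.1 x hxK]

theorem Hf_nonpos {d m : ℕ} (β : EE d → ℝ) (p : EE d × ℝ × EE d × ℝ) (hp : p.2.1 ≤ 0)
    (w : EE d) : Hf m β p w = w := by
  unfold Hf sb
  rw [if_neg (not_lt.2 hp), zero_smul, add_zero]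

theorem Hf_ball {d m : ℕ} (β : ContDiffBump (0 : EE d)) (hin : β.rIn = 1 / 2) (b v : EE d)
    (σ s : ℝ) (hσ : 0 < σ) (w : EE d) (hw : w ∈ Metric.ball b (σ / 2)) :
    Hf m β (b, σ, (σ ^ (m + 1))⁻¹ • v, s / σ ^ (m + 1)) w = w + v + s • (w - b) := by
  have hσk : σ ^ (m + 1) ≠ 0 := pow_ne_zero _ hσ.ne'
  have h1 : β (σ⁻¹ • (w - b)) = 1 := by
    apply β.one_of_mem_closedBall
    rw [hin, mem_closedBall_zero_iff, norm_smul, norm_inv, Real.norm_eq_abs, abs_of_pos hσ,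
      inv_mul_le_iff₀ hσ]
    rw [mem_ball_iff_norm] at hw
    linarith
  unfold Hf sb
  simp only
  rw [if_pos hσ, h1, mul_one, smul_add, smul_smul, mul_inv_cancel₀ hσk, one_smul, smul_smul,
    mul_div_cancel₀ _ hσk, add_assoc]

theorem Hf_contDiff (hSb : StSb) {d m : ℕ} (β : ContDiffBump (0 : EE d)) :
    ContDiff ℝ m (fun z : (EE d × ℝ × EE d × ℝ) × EE d => Hf m β z.1 z.2) := by
  have h1 : ContDiff ℝ m (fun z : (EE d × ℝ × EE d × ℝ) × EE d => (z.1.2.1, z.2 - z.1.1)) := by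
    fun_prop
  have h2 := (hSb d m β β.contDiff β.hasCompactSupport).comp h1
  have h3 : ContDiff ℝ m (fun z : (EE d × ℝ × EE d × ℝ) × EE d =>
      z.1.2.2.1 + z.1.2.2.2 • (z.2 - z.1.1)) := by
    fun_prop
  exact contDiff_snd.add (h2.smul h3)

theorem lfam (hSb : StSb) (M : ClosedManifold.{u}) (q : M.carrier) (m : ℕ)
    (β : ContDiffBump (0 : EM M)) (τ₀ : ℝ) (hτ₀ : 0 < τ₀)
    (hH : ∀ (b v : EM M) (τ s : ℝ), 0 < τ → τ ≤ τ₀ → ‖v‖ ≤ 2 → |s| ≤ 2 →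
      OmegaStab.Fam.Supp (Metric.closedBall b τ) (Hf m β (b, τ, v, s)))
    (b₀ v₀ : EM M) (s₀ : ℝ) (hb : b₀ ∈ (ch M q).target) (hv : ‖v₀‖ ≤ 1) (hs : |s₀| ≤ 1) :
    LFam M q m (b₀, (0 : ℝ), v₀, s₀) (Hf m β) := by
  obtain ⟨R₀, hR₀, hR₀t⟩ := Metric.nhds_basis_closedBall.mem_iff.1
    ((isOpen_extChartAt_target (I := 𝓡 M.dim) q).mem_nhds hb)
  refine ⟨Metric.closedBall b₀ R₀,
    {p | ‖p.1 - b₀‖ < R₀ / 2 ∧ p.2.1 < min τ₀ (R₀ / 2) ∧ ‖p.2.2.1‖ < 2 ∧ |p.2.2.2| < 2},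
    isCompact_closedBall _ _, hR₀t, ?_, ?_, ?_, ?_, ?_⟩
  · have e1 : IsOpen {p : EM M × ℝ × EM M × ℝ | ‖p.1 - b₀‖ < R₀ / 2} :=
      isOpen_lt (by fun_prop) continuous_const
    have e2 : IsOpen {p : EM M × ℝ × EM M × ℝ | p.2.1 < min τ₀ (R₀ / 2)} :=
      isOpen_lt (by fun_prop) continuous_const
    have e3 : IsOpen {p : EM M × ℝ × EM M × ℝ | ‖p.2.2.1‖ < 2} :=
      isOpen_lt (by fun_prop) continuous_const
    have e4 : IsOpen {p : EM M × ℝ × EM M × ℝ | |p.2.2.2| < 2} :=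
      isOpen_lt (by fun_prop) continuous_const
    exact e1.inter (e2.inter (e3.inter e4))
  · refine ⟨by simpa using hR₀, lt_min hτ₀ (by linarith), ?_, ?_⟩
    · exact hv.trans_lt (by norm_num)
    · exact hs.trans_lt (by norm_num)
  · rintro ⟨b, τ, v, s⟩ ⟨h1, h2, h3, h4⟩
    simp only at h1 h2 h3 h4
    rcases le_or_gt τ 0 with hτ | hτ
    · exact ⟨fun w _ => Hf_nonpos _ _ hτ w, fun w hw => by rwa [Hf_nonpos _ _ hτ w]⟩
    · refine supp_mono (hH b v τ s hτ ((h2.trans_le (min_le_left _ _)).le) h3.le h4.le) ?_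
      intro w hw
      rw [mem_closedBall_iff_norm] at hw ⊢
      have h5 := h2.trans_le (min_le_right _ _)
      calc ‖w - b₀‖ = ‖(w - b) + (b - b₀)‖ := by congr 1; abel
        _ ≤ ‖w - b‖ + ‖b - b₀‖ := norm_add_le _ _
        _ ≤ R₀ := by linarith
  · exact (Hf_contDiff hSb β).contDiffOn
  · intro w
    exact Hf_nonpos _ _ le_rfl w

end PeQS

open PeQS in
/-- Uniform perturbations. -/
theorem prPe (hTd : StTd.{u}) (hSb : StSb) (hHb : StHb) : StPe.{u} := by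
  intro M r f N hN hfN A
  obtain ⟨m₀, hm₀⟩ := hTd M r f N hN hfN
  obtain ⟨β, hβi, hβo⟩ : ∃ β : ContDiffBump (0 : EM M), β.rIn = 1 / 2 ∧ β.rOut = 1 :=
    ⟨⟨1 / 2, 1, by norm_num, by norm_num⟩, rfl, rfl⟩
  set m := m₀ + 1 with hm
  obtain ⟨τ₀, hτ₀, hH⟩ := hHb M.dim m β (by omega) hβi hβo
  have hHs : ∀ (b v : EM M) (τ s : ℝ), 0 < τ → τ ≤ τ₀ → ‖v‖ ≤ 2 → |s| ≤ 2 →
      OmegaStab.Fam.Supp (Metric.closedBall b τ) (Hf m β (b, τ, v, s)) := by
    intro b v τ s h1 h2 h3 h4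
    obtain ⟨G, -, -, h5, -⟩ := hH b v τ s h1 h2 h3 h4
    exact h5
  refine ⟨m + 1, ?_⟩
  have key : ∀ i : Fin A.m, ∀ᶠ L : ℕ in atTop, ∀ (x : M.carrier) (b v : EM M) (σ s : ℝ),
      x ∈ A.K i → ‖b - ch M (A.q i) x‖ ≤ 1 / L → 0 < σ → σ ≤ 1 / L → ‖v‖ ≤ σ ^ (m + 1) →
      |s| ≤ σ ^ (m + 1) → Metric.closedBall b σ ⊆ (ch M (A.q i)).target ∧
      ∃ ψ : CrDiffeo M r, f.trans ψ ∈ N ∧
      (∀ y ∉ (ch M (A.q i)).symm '' Metric.closedBall b σ, ψ y = y) ∧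
      ∀ w ∈ Metric.ball b (σ / 2), w + v + s • (w - b) ∈ (ch M (A.q i)).target ∧
        ψ ((ch M (A.q i)).symm w) = (ch M (A.q i)).symm (w + v + s • (w - b)) := by
    intro i
    have hcK : IsCompact (ch M (A.q i) '' A.K i) :=
      (A.cpt i).image_of_continuousOn ((continuousOn_extChartAt (A.q i)).mono (A.sub i))
    have hsubT : ch M (A.q i) '' A.K i ⊆ (ch M (A.q i)).target := by
      rintro _ ⟨x, hx, rfl⟩
      exact (ch M (A.q i)).map_source (A.sub i hx)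
    obtain ⟨ρ, hρ, hρT⟩ := hcK.exists_cthickening_subset_open
      (isOpen_extChartAt_target (I := 𝓡 M.dim) (A.q i)) hsubT
    have hC : IsCompact (Metric.cthickening ρ (ch M (A.q i) '' A.K i)) := hcK.cthickening
    have hKc : IsCompact (Metric.cthickening ρ (ch M (A.q i) '' A.K i) ×ˢ
        (Metric.closedBall (0 : EM M) 1 ×ˢ Metric.closedBall (0 : ℝ) 1)) :=
      hC.prod ((isCompact_closedBall _ _).prod (isCompact_closedBall _ _))
    have hev : ∀ᶠ τ in 𝓝 (0 : ℝ), ∀ y ∈ (Metric.cthickening ρ (ch M (A.q i) '' A.K i) ×ˢ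
        (Metric.closedBall (0 : EM M) 1 ×ˢ Metric.closedBall (0 : ℝ) 1)),
        ∀ ψ : CrDiffeo M r, (∀ z, ψ z = OmegaStab.Fam.T (d := M.dim) (A.q i)
          (Hf m β (y.1, τ, y.2.1, y.2.2)) z) → f.trans ψ ∈ N := by
      refine hKc.eventually_forall_of_forall_eventually
        (P := fun τ (y : EM M × EM M × ℝ) => ∀ ψ : CrDiffeo M r,
          (∀ z, ψ z = OmegaStab.Fam.T (d := M.dim) (A.q i)
          (Hf m β (y.1, τ, y.2.1, y.2.2)) z) → f.trans ψ ∈ N) ?_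
      rintro ⟨b₀, v₀, s₀⟩ ⟨hb₀, hv₀, hs₀⟩
      have h1 := hm₀ m (by omega) (EM M × ℝ × EM M × ℝ) (A.q i) (b₀, (0 : ℝ), v₀, s₀) (Hf m β)
        (lfam hSb M (A.q i) m β τ₀ hτ₀ hHs b₀ v₀ s₀ (hρT hb₀) (by simpa using hv₀)
          (by simpa using hs₀))
      have h2 : Tendsto (fun z : ℝ × (EM M × EM M × ℝ) => (z.2.1, z.1, z.2.2.1, z.2.2.2))
          (𝓝 ((0 : ℝ), (b₀, v₀, s₀))) (𝓝 (b₀, (0 : ℝ), v₀, s₀)) := by
        have h3 : Continuous (fun z : ℝ × (EM M × EM M × ℝ) =>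
            (z.2.1, z.1, z.2.2.1, z.2.2.2)) := by fun_prop
        exact h3.tendsto ((0 : ℝ), (b₀, v₀, s₀))
      exact h2.eventually h1
    obtain ⟨τ₁, hτ₁, hball⟩ := Metric.eventually_nhds_iff.1 hev
    have hlim : ∀ᶠ L : ℕ in atTop, 1 / (L : ℝ) < min (min τ₁ τ₀) (ρ / 2) :=
      (tendsto_one_div_atTop_nhds_zero_nat (𝕜 := ℝ)).eventually_lt_const
        (lt_min (lt_min hτ₁ hτ₀) (by linarith))
    filter_upwards [hlim] with L hL x b v σ s hx hbx hσ hσL hv hs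
    have hL1 : 1 / (L : ℝ) < τ₁ := hL.trans_le ((min_le_left _ _).trans (min_le_left _ _))
    have hL2 : 1 / (L : ℝ) < τ₀ := hL.trans_le ((min_le_left _ _).trans (min_le_right _ _))
    have hL3 : 1 / (L : ℝ) < ρ / 2 := hL.trans_le (min_le_right _ _)
    have hsubC : Metric.closedBall b σ ⊆ Metric.cthickening ρ (ch M (A.q i) '' A.K i) := by
      intro w hw
      refine Metric.mem_cthickening_of_dist_le w (ch M (A.q i) x) ρ _ ⟨x, hx, rfl⟩ ?_
      have h1 : dist b (ch M (A.q i) x) ≤ 1 / L := by rw [dist_eq_norm]; exact hbx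
      have h2 := dist_triangle w b (ch M (A.q i) x)
      have h3 : dist w b ≤ σ := hw
      linarith
    have hsubT2 : Metric.closedBall b σ ⊆ (ch M (A.q i)).target := hsubC.trans hρT
    have hσk : 0 < σ ^ (m + 1) := pow_pos hσ _
    set v' : EM M := (σ ^ (m + 1))⁻¹ • v with hv'
    set s' : ℝ := s / σ ^ (m + 1) with hs'
    have hv1 : ‖v'‖ ≤ 1 := by
      rw [hv', norm_smul, norm_inv, Real.norm_eq_abs, abs_of_pos hσk, inv_mul_le_iff₀ hσk,
        mul_one]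
      exact hv
    have hs1 : |s'| ≤ 1 := by
      rw [hs', abs_div, abs_of_pos hσk, div_le_one hσk]
      exact hs
    obtain ⟨G, hHd, hGd, hS1, hS2, hGH, hHG⟩ := hH b v' σ s' hσ (hσL.trans hL2.le)
      (hv1.trans (by norm_num)) (hs1.trans (by norm_num))
    have hle : ((r : ℕ∞) : ℕ∞ω) ≤ ∞ := by exact_mod_cast le_top
    obtain ⟨ψ, hψ⟩ := OmegaStab.Fam.exists_TD (r := r) (isCompact_closedBall b σ) hsubT2
      (Hf m β (b, σ, v', s')) G hS1 hS2 (hHd.of_le hle) (hGd.of_le hle) hHG hGH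
    refine ⟨hsubT2, ψ, ?_, ?_, ?_⟩
    · have h1 : dist σ 0 < τ₁ := by
        rw [Real.dist_eq, sub_zero, abs_of_pos hσ]
        exact hσL.trans_lt hL1
      refine hball h1 (b, v', s') ⟨hsubC (Metric.mem_closedBall_self hσ.le), ?_, ?_⟩ ψ hψ
      · simpa using hv1
      · simpa using hs1
    · intro y hy
      rw [hψ]
      exact OmegaStab.Fam.T_eq_self hS1 hy
    · intro w hw
      have hw' : w ∈ Metric.closedBall b σ := by
        have h1 : dist w b < σ / 2 := hw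
        exact (h1.le.trans (by linarith) : dist w b ≤ σ)
      have h1 : Hf m β (b, σ, v', s') w = w + v + s • (w - b) :=
        Hf_ball β hβi b v σ s hσ w hw
      constructor
      · rw [← h1]
        exact hsubT2 (hS1.2 w hw')
      · rw [hψ, OmegaStab.Fam.T_of_mem ((ch M (A.q i)).map_target (hsubT2 hw')),
          (ch M (A.q i)).right_inv (hsubT2 hw'), h1]
  exact Filter.eventually_all.2 key

end Pool.Agent.OmegaQS
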