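import Pool.Agent.Work.MP_814647_an.QS.Stmts

/-!
# Item Pw: eigenvalues of powers
-/

set_option autoImplicit false

open Set Filter Topology Function
open scoped Manifold ContDiff

noncomputable section

namespace Pool.Agent.OmegaQS

open Pool.Agent.OmegaStab (EE Dyn inCharts crTopology crSet HypLin HypAt)
open Pool.Agent.OmegaStability (ClosedManifold CrDiffeo IsComplexEigenvalue IsMultiplier
  derivativeAt HasBilipschitzCharts OmegaStable ClosesReturns)

universe u

namespace PwQS

/-- real part of a complex vector -/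
def reV {d : ℕ} (x : Fin d → ℂ) : EE d := WithLp.toLp 2 (fun i => (x i).re)

/-- imaginary part of a complex vector -/
def imV {d : ℕ} (x : Fin d → ℂ) : EE d := WithLp.toLp 2 (fun i => (x i).im)

/-- complexification of a real linear map -/
def cx {d : ℕ} (D : EE d →L[ℝ] EE d) : Module.End ℂ (Fin d → ℂ) where
  toFun x i := (((D (reV x)) i : ℝ) : ℂ) + Complex.I * (((D (imV x)) i : ℝ) : ℂ)
  map_add' x y := by
    have h1 : reV (x + y) = reV x + reV y := by
      ext i; simp [reV]
    have h2 : imV (x + y) = imV x + imV y := by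
      ext i; simp [imV]
    funext i
    simp only [h1, h2, map_add, PiLp.add_apply, Pi.add_apply, Complex.ofReal_add]
    ring
  map_smul' c x := by
    have h1 : reV (c • x) = c.re • reV x - c.im • imV x := by
      ext i; simp [reV, imV]
    have h2 : imV (c • x) = c.im • reV x + c.re • imV x := by
      ext i; simp [reV, imV]; ring
    funext i
    simp only [h1, h2, map_add, map_sub, map_smul, PiLp.add_apply, PiLp.sub_apply, PiLp.smul_apply,
      Pi.smul_apply, smul_eq_mul, RingHom.id_apply]
    apply Complex.ext <;> simp <;> ring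

theorem reV_cx {d : ℕ} (D : EE d →L[ℝ] EE d) (x : Fin d → ℂ) : reV (cx D x) = D (reV x) := by
  ext i; simp [reV, cx]

theorem imV_cx {d : ℕ} (D : EE d →L[ℝ] EE d) (x : Fin d → ℂ) : imV (cx D x) = D (imV x) := by
  ext i; simp [imV, cx]

theorem ext_ri {d : ℕ} {x y : Fin d → ℂ} (h1 : reV x = reV y) (h2 : imV x = imV y) : x = y := by
  funext i
  apply Complex.ext
  · have := congrArg (fun v : EE d => v i) h1
    simpa [reV] using this
  · have := congrArg (fun v : EE d => v i) h2
    simpa [imV] using this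

theorem cx_pow {d : ℕ} (D : EE d →L[ℝ] EE d) (a : ℕ) : cx (D ^ a) = cx D ^ a := by
  induction a with
  | zero =>
    refine LinearMap.ext fun x => ext_ri ?_ ?_
    · rw [reV_cx]; simp
    · rw [imV_cx]; simp
  | succ a ih =>
    rw [pow_succ, pow_succ, ← ih]
    refine LinearMap.ext fun x => ext_ri ?_ ?_
    · rw [reV_cx, Module.End.mul_apply, reV_cx, reV_cx]; rfl
    · rw [imV_cx, Module.End.mul_apply, imV_cx, imV_cx]; rfl

theorem iff_eig {d : ℕ} (D : EE d →L[ℝ] EE d) (μ : ℂ) :
    IsComplexEigenvalue D μ ↔ (cx D).HasEigenvalue μ := by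
  constructor
  · rintro ⟨v, w, h0, h1, h2⟩
    have hx : ∃ x : Fin d → ℂ, reV x = v ∧ imV x = w := by
      refine ⟨fun i => (v i : ℂ) + Complex.I * (w i : ℂ), ?_, ?_⟩
      · ext i; simp [reV]
      · ext i; simp [imV]
    obtain ⟨x, rfl, rfl⟩ := hx
    refine Module.End.hasEigenvalue_of_hasEigenvector (x := x) ⟨?_, ?_⟩
    · rw [Module.End.mem_eigenspace_iff]
      refine ext_ri ?_ ?_
      · rw [reV_cx, h1]; ext i; simp [reV, imV]
      · rw [imV_cx, h2]; ext i; simp [reV, imV]; ring
    · rintro rfl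
      rcases h0 with h0 | h0
      · exact h0 (by ext i; simp [reV])
      · exact h0 (by ext i; simp [imV])
  · intro h
    obtain ⟨x, hx⟩ := h.exists_hasEigenvector
    have h1 : cx D x = μ • x := Module.End.mem_eigenspace_iff.1 hx.1
    refine ⟨reV x, imV x, ?_, ?_, ?_⟩
    · by_contra hc
      push Not at hc
      exact hx.2 (ext_ri (by rw [hc.1]; ext i; simp [reV]) (by rw [hc.2]; ext i; simp [imV]))
    · rw [← reV_cx, h1]; ext i; simp [reV, imV]
    · rw [← imV_cx, h1]; ext i; simp [reV, imV]; ring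

end PwQS

theorem prPw : StPw := by
  intro d a D μ ha h
  rw [PwQS.iff_eig, PwQS.cx_pow, Module.End.hasEigenvalue_iff_mem_spectrum,
    spectrum.map_pow_of_pos _ (by omega : 0 < a)] at h
  obtain ⟨ν, hν, hμ⟩ := h
  exact ⟨ν, (PwQS.iff_eig D ν).2 (Module.End.hasEigenvalue_iff_mem_spectrum.2 hν), hμ⟩

end Pool.Agent.OmegaQS
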