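import Pool.Agent.Work.MP_814647_an.QS.Stmts

/-!
# Item Sb (helper15): the scaled bump is jointly `C^m`
-/

set_option autoImplicit false

open Set Filter Topology Function
open scoped Manifold ContDiff



noncomputable section

namespace Pool.Agent.OmegaQS

open Pool.Agent.OmegaStab (EE)

namespace SbQS

/-- the scaled map with values in a normed space -/
def S {E F : Type} [NormedAddCommGroup E] [NormedSpace ℝ E] [NormedAddCommGroup F]
    [NormedSpace ℝ F] (m : ℕ) (γ : E → F) (z : ℝ × E) : F :=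
  if 0 < z.1 then z.1 ^ (m + 1) • γ (z.1⁻¹ • z.2) else 0

/-- the map whose scaled version is the derivative -/
def dS {E F : Type} [NormedAddCommGroup E] [NormedSpace ℝ E] [NormedAddCommGroup F]
    [NormedSpace ℝ F] (m : ℕ) (γ : E → F) (z : E) : (ℝ × E) →L[ℝ] F :=
  (ContinuousLinearMap.fst ℝ ℝ E).smulRight (((m : ℝ) + 2) • γ z - fderiv ℝ γ z z) +
    (fderiv ℝ γ z).comp (ContinuousLinearMap.snd ℝ ℝ E)

variable {E F : Type} [NormedAddCommGroup E] [NormedSpace ℝ E] [NormedAddCommGroup F]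
    [NormedSpace ℝ F]

theorem bound (m : ℕ) (γ : E → F) (C : ℝ) (hC : ∀ z, ‖γ z‖ ≤ C) (z₀ z : ℝ × E) (h0 : z₀.1 ≤ 0) :
    ‖S m γ z‖ ≤ C * ‖z - z₀‖ ^ (m + 1) := by
  have hC0 : 0 ≤ C := (norm_nonneg _).trans (hC 0)
  unfold S
  split_ifs with h
  · rw [norm_smul, norm_pow, mul_comm]
    have h1 : ‖z.1‖ ≤ ‖z - z₀‖ := by
      refine le_trans ?_ (norm_fst_le (z - z₀))
      rw [Prod.fst_sub, Real.norm_eq_abs, Real.norm_eq_abs, abs_of_pos h,
        abs_of_pos (by linarith)]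
      linarith
    exact mul_le_mul (hC _) (pow_le_pow_left₀ (norm_nonneg _) h1 _) (by positivity) hC0
  · rw [norm_zero]
    positivity

theorem hasFDerivAt_pos (m : ℕ) (γ : E → F) (hγ : ContDiff ℝ ∞ γ) (z₀ : ℝ × E) (h0 : 0 < z₀.1) :
    HasFDerivAt (S (m + 1) γ) (S m (dS m γ) z₀) z₀ := by
  have hne : z₀.1 ≠ 0 := h0.ne'
  have h1 : HasFDerivAt (fun z : ℝ × E => z.1) (ContinuousLinearMap.fst ℝ ℝ E) z₀ :=
    hasFDerivAt_fst
  have h2 : HasFDerivAt (fun z : ℝ × E => z.2) (ContinuousLinearMap.snd ℝ ℝ E) z₀ :=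
    hasFDerivAt_snd
  have h3 : HasFDerivAt (fun z : ℝ × E => z.1⁻¹)
      ((-(z₀.1 ^ 2)⁻¹) • ContinuousLinearMap.fst ℝ ℝ E) z₀ :=
    (hasDerivAt_inv hne).comp_hasFDerivAt z₀ h1
  have h4 : HasFDerivAt (fun z : ℝ × E => z.1 ^ (m + 2))
      ((((m + 2 : ℕ) : ℝ) * z₀.1 ^ (m + 2 - 1)) • ContinuousLinearMap.fst ℝ ℝ E) z₀ :=
    (hasDerivAt_pow (m + 2) z₀.1).comp_hasFDerivAt z₀ h1
  have h5 := h3.smul h2
  have h6 : HasFDerivAt γ (fderiv ℝ γ (z₀.1⁻¹ • z₀.2)) (z₀.1⁻¹ • z₀.2) :=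
    ((hγ.differentiable (by simp)) _).hasFDerivAt
  have h7 := h4.smul (h6.comp z₀ h5)
  have h8 : S (m + 1) γ =ᶠ[𝓝 z₀] fun z : ℝ × E => z.1 ^ (m + 2) • γ (z.1⁻¹ • z.2) := by
    have h9 : ∀ᶠ z : ℝ × E in 𝓝 z₀, 0 < z.1 :=
      continuous_fst.continuousAt.eventually (lt_mem_nhds h0)
    filter_upwards [h9] with z hz
    unfold S
    rw [if_pos hz]
  refine HasFDerivAt.congr_of_eventuallyEq ?_ h8
  refine h7.congr_fderiv ?_
  refine ContinuousLinearMap.ext fun x => ?_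
  obtain ⟨s, h⟩ := x
  unfold S
  rw [if_pos h0]
  simp only [dS, add_apply, smul_apply, ContinuousLinearMap.smulRight_apply,
    ContinuousLinearMap.comp_apply, ContinuousLinearMap.coe_fst', ContinuousLinearMap.coe_snd',
    Function.comp_apply, map_add, map_smul, smul_eq_mul, smul_add, smul_sub, smul_smul]
  have c1 : z₀.1 ^ (m + 2) * z₀.1⁻¹ = z₀.1 ^ (m + 1) := by
    field_simp
    ring
  have c2 : z₀.1 ^ (m + 2) * (-(z₀.1 ^ 2)⁻¹ * s) = -(z₀.1 ^ (m + 1) * (s * z₀.1⁻¹)) := by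
    field_simp
    ring
  have c3 : ((m + 2 : ℕ) : ℝ) * z₀.1 ^ (m + 2 - 1) * s = z₀.1 ^ (m + 1) * (s * ((m : ℝ) + 2)) := by
    rw [show m + 2 - 1 = m + 1 from rfl]
    push_cast
    ring
  have c4 : ((fun z : ℝ × E => z.1⁻¹) • fun z : ℝ × E => z.2) z₀ = z₀.1⁻¹ • z₀.2 := rfl
  rw [c1, c2, c3, c4, neg_smul]
  abel

theorem hasFDerivAt_nonpos (m : ℕ) (γ : E → F) (C : ℝ) (hC : ∀ z, ‖γ z‖ ≤ C) (z₀ : ℝ × E)
    (h0 : z₀.1 ≤ 0) : HasFDerivAt (S (m + 1) γ) (S m (dS m γ) z₀) z₀ := by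
  have h1 : S m (dS m γ) z₀ = 0 := by
    unfold S
    rw [if_neg (not_lt.2 h0)]
  rw [h1]
  have h2 : S (m + 1) γ =O[𝓝 z₀] fun z => ‖z - z₀‖ ^ (m + 2) := by
    refine Asymptotics.IsBigO.of_bound C (Eventually.of_forall fun z => ?_)
    rw [norm_pow, norm_norm]
    exact bound (m + 1) γ C hC z₀ z h0
  exact h2.hasFDerivAt (by omega)

omit [NormedSpace ℝ E] [NormedSpace ℝ F] in
theorem bdd (γ : E → F) (hγ : Continuous γ) (hs : HasCompactSupport γ) :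
    ∃ C : ℝ, ∀ z, ‖γ z‖ ≤ C := hγ.bounded_above_of_compact_support hs

theorem contDiff_dS (m : ℕ) (γ : E → F) (hγ : ContDiff ℝ ∞ γ) : ContDiff ℝ ∞ (dS m γ) := by
  have h1 : ContDiff ℝ ∞ (fderiv ℝ γ) := hγ.fderiv_right (by simp)
  unfold dS
  refine ContDiff.add ?_ ?_
  · refine contDiff_const.smulRight ?_
    exact (contDiff_const.smul hγ).sub (h1.clm_apply contDiff_id)
  · exact h1.clm_comp contDiff_const

theorem support_dS (m : ℕ) (γ : E → F) (hs : HasCompactSupport γ) :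
    HasCompactSupport (dS m γ) := by
  refine HasCompactSupport.intro hs fun x hx => ?_
  unfold dS
  rw [image_eq_zero_of_notMem_tsupport hx, fderiv_of_notMem_tsupport ℝ hx]
  simp

theorem continuous_S (γ : E → F) (hγ : Continuous γ) (hs : HasCompactSupport γ) :
    Continuous (S 0 γ) := by
  obtain ⟨C, hC⟩ := bdd γ hγ hs
  rw [continuous_iff_continuousAt]
  intro z₀
  rcases lt_or_ge 0 z₀.1 with h0 | h0
  · have h8 : (fun z : ℝ × E => z.1 ^ (0 + 1) • γ (z.1⁻¹ • z.2)) =ᶠ[𝓝 z₀] S 0 γ := by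
      have h9 : ∀ᶠ z : ℝ × E in 𝓝 z₀, 0 < z.1 :=
        continuous_fst.continuousAt.eventually (lt_mem_nhds h0)
      filter_upwards [h9] with z hz
      unfold S
      rw [if_pos hz]
    refine ContinuousAt.congr ?_ h8
    refine (continuousAt_fst.pow _).smul ?_
    exact hγ.continuousAt.comp ((continuousAt_fst.inv₀ h0.ne').smul continuousAt_snd)
  · have h1 : S 0 γ z₀ = 0 := by
      unfold S
      rw [if_neg (not_lt.2 h0)]
    unfold ContinuousAt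
    rw [h1]
    refine squeeze_zero_norm (fun z => bound 0 γ C hC z₀ z h0) ?_
    have h2 : Tendsto (fun z : ℝ × E => C * ‖z - z₀‖ ^ (0 + 1)) (𝓝 z₀)
        (𝓝 (C * ‖z₀ - z₀‖ ^ (0 + 1))) := by
      refine Continuous.tendsto ?_ _
      fun_prop
    simpa using h2

theorem main : ∀ (m : ℕ) (F : Type) [NormedAddCommGroup F] [NormedSpace ℝ F] (γ : E → F),
    ContDiff ℝ ∞ γ → HasCompactSupport γ → ContDiff ℝ m (S m γ) := by
  intro m
  induction m with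
  | zero =>
    intro F _ _ γ hγ hs
    rw [Nat.cast_zero, contDiff_zero]
    exact continuous_S γ hγ.continuous hs
  | succ m ih =>
    intro F _ _ γ hγ hs
    obtain ⟨C, hC⟩ := bdd γ hγ.continuous hs
    rw [Nat.cast_succ, contDiff_succ_iff_hasFDerivAt]
    refine ⟨S m (dS m γ), ih _ (dS m γ) (contDiff_dS m γ hγ) (support_dS m γ hs), fun z₀ => ?_⟩
    rcases lt_or_ge 0 z₀.1 with h0 | h0
    · exact hasFDerivAt_pos m γ hγ z₀ h0
    · exact hasFDerivAt_nonpos m γ C hC z₀ h0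

end SbQS

/-- Item Sb. -/
theorem prSb : StSb := by
  intro d m β hβ hs
  exact SbQS.main (E := EE d) m ℝ β hβ hs

end Pool.Agent.OmegaQS

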