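import Pool.Agent.Work.MP_814647_an.QS.Stmts

/-!
# Item Sc: the scales
-/

set_option autoImplicit false

open Set Filter Topology Function
open scoped Manifold ContDiff

noncomputable section

namespace Pool.Agent.OmegaQS

open Pool.Agent.OmegaStab (EE Dyn inCharts crTopology crSet HypLin HypAt)
open Pool.Agent.OmegaStability (ClosedManifold CrDiffeo IsComplexEigenvalue IsMultiplier
  derivativeAt HasBilipschitzCharts OmegaStable ClosesReturns)

universe u

namespace ScQS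

/-- the exponents -/
def bb (e n : ℕ) : ℕ → ℕ
  | 0 => 0
  | k + 1 => e * (bb e n k + 3 * n)

/-- the scales -/
def SS (L e n k : ℕ) : ℝ := (1 / (L : ℝ)) ^ bb e n k

theorem bb_le {e n : ℕ} (he : 1 ≤ e) (k : ℕ) : bb e n k ≤ 3 * n * (2 * e) ^ k := by
  induction k with
  | zero => simp [bb]
  | succ k ih =>
    have h1 : 1 ≤ (2 * e) ^ k := Nat.one_le_pow _ _ (by omega)
    calc bb e n (k + 1) = e * (bb e n k + 3 * n) := rfl
      _ ≤ e * (3 * n * (2 * e) ^ k + 3 * n * (2 * e) ^ k) := by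
        apply Nat.mul_le_mul_left
        apply Nat.add_le_add ih
        exact Nat.le_mul_of_pos_right _ h1
      _ = 3 * n * (2 * e) ^ (k + 1) := by ring

theorem bb_size {e n : ℕ} (he : 1 ≤ e) (hn : 1 ≤ n) :
    bb e n (2 * (Nat.log 2 n + 1)) ≤ 12 * e ^ 2 * n ^ (4 * e + 1) := by
  have h1 : 2 * e ≤ 2 ^ (2 * e) := Nat.lt_two_pow_self.le
  have h2 : 2 ^ Nat.log 2 n ≤ n := Nat.pow_log_le_self 2 (by omega)
  have h3 : (2 * e) ^ (2 * Nat.log 2 n) ≤ n ^ (4 * e) := by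
    calc (2 * e) ^ (2 * Nat.log 2 n) ≤ (2 ^ (2 * e)) ^ (2 * Nat.log 2 n) :=
        Nat.pow_le_pow_left h1 _
      _ = (2 ^ Nat.log 2 n) ^ (4 * e) := by
        rw [← pow_mul, ← pow_mul]
        congr 1
        ring
      _ ≤ n ^ (4 * e) := Nat.pow_le_pow_left h2 _
  calc bb e n (2 * (Nat.log 2 n + 1)) ≤ 3 * n * (2 * e) ^ (2 * (Nat.log 2 n + 1)) := bb_le he _
    _ = 12 * e ^ 2 * n * (2 * e) ^ (2 * Nat.log 2 n) := by
      rw [Nat.mul_add, pow_add]
      ring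
    _ ≤ 12 * e ^ 2 * n * n ^ (4 * e) := Nat.mul_le_mul_left _ h3
    _ = 12 * e ^ 2 * n ^ (4 * e + 1) := by ring

section

variable {L e n : ℕ}

theorem SS_pos (hL : 2 ≤ L) (k : ℕ) : 0 < SS L e n k := by
  have : (0 : ℝ) < L := by exact_mod_cast (by omega : 0 < L)
  unfold SS
  positivity

theorem SS_le_one (hL : 2 ≤ L) (k : ℕ) : SS L e n k ≤ 1 := by
  have h : (1 : ℝ) ≤ L := by exact_mod_cast (by omega : 1 ≤ L)
  unfold SS
  exact pow_le_one₀ (by positivity) (by rw [div_le_one (by linarith)]; exact h)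

theorem SS_succ (hL : 2 ≤ L) (k : ℕ) :
    SS L e n (k + 1) ≤ (SS L e n k / (L : ℝ) ^ n) ^ e := by
  have h : (1 : ℝ) ≤ L := by exact_mod_cast (by omega : 1 ≤ L)
  have h0 : (0 : ℝ) < L := by linarith
  have e1 : (SS L e n k / (L : ℝ) ^ n) ^ e = (1 / (L : ℝ)) ^ (e * (bb e n k + n)) := by
    unfold SS
    rw [div_eq_mul_one_div, ← one_div_pow, ← pow_add, ← pow_mul, mul_comm]
  rw [e1]
  unfold SS
  apply pow_le_pow_of_le_one (by positivity)
  · rw [div_le_one h0]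
    exact h
  · change e * (bb e n k + n) ≤ e * (bb e n k + 3 * n)
    apply Nat.mul_le_mul_left
    omega

theorem SS_two (hL : 2 ≤ L) (he : 1 ≤ e) (hn : 1 ≤ n) (k : ℕ) :
    2 * (L : ℝ) ^ n * SS L e n (k + 1) ≤ SS L e n k := by
  have h2 : (2 : ℝ) ≤ L := by exact_mod_cast hL
  have h0 : (0 : ℝ) < L := by linarith
  have hi : 1 / (L : ℝ) ≤ 1 := by
    rw [div_le_one h0]
    linarith
  have h3 : SS L e n (k + 1) ≤ (1 / (L : ℝ)) ^ (bb e n k + 3 * n) := by
    unfold SS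
    apply pow_le_pow_of_le_one (by positivity) hi
    exact Nat.le_mul_of_pos_left _ he
  have h4 : 2 * (L : ℝ) ^ n * (1 / (L : ℝ)) ^ (3 * n) ≤ 1 := by
    have e1 : (L : ℝ) ^ n * (1 / (L : ℝ)) ^ (3 * n) = (1 / (L : ℝ)) ^ (2 * n) := by
      rw [one_div, inv_pow, inv_pow]
      have e2 : (L : ℝ) ^ (3 * n) = (L : ℝ) ^ n * (L : ℝ) ^ (2 * n) := by
        rw [← pow_add]
        congr 1
        ring
      rw [e2, mul_inv, ← mul_assoc, mul_inv_cancel₀ (by positivity), one_mul]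
    rw [mul_assoc, e1]
    have h5 : (1 / (L : ℝ)) ^ (2 * n) ≤ (1 / (L : ℝ)) ^ 1 :=
      pow_le_pow_of_le_one (by positivity) hi (by omega)
    rw [pow_one] at h5
    have h6 : 1 / (L : ℝ) ≤ 1 / 2 := one_div_le_one_div_of_le (by norm_num) h2
    linarith
  calc 2 * (L : ℝ) ^ n * SS L e n (k + 1)
      ≤ 2 * (L : ℝ) ^ n * (1 / (L : ℝ)) ^ (bb e n k + 3 * n) := by gcongr
    _ = (1 / (L : ℝ)) ^ bb e n k * (2 * (L : ℝ) ^ n * (1 / (L : ℝ)) ^ (3 * n)) := by
      rw [pow_add]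
      ring
    _ ≤ (1 / (L : ℝ)) ^ bb e n k * 1 := by gcongr
    _ = SS L e n k := by rw [mul_one]; rfl

theorem SS_step (hL : 2 ≤ L) (he : 1 ≤ e) (hn : 1 ≤ n) (k : ℕ) :
    SS L e n (k + 1) ≤ SS L e n k := by
  have h2 : (1 : ℝ) ≤ L := by exact_mod_cast (by omega : 1 ≤ L)
  have h3 : (1 : ℝ) ≤ (L : ℝ) ^ n := one_le_pow₀ h2
  have h4 := SS_two hL he hn k
  have h5 : 0 < SS L e n (k + 1) := SS_pos hL _
  nlinarith

theorem SS_anti (hL : 2 ≤ L) (he : 1 ≤ e) (hn : 1 ≤ n) : Antitone (SS L e n) :=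
  antitone_nat_of_succ_le (SS_step hL he hn)

theorem lip_iter {X : Type u} [MetricSpace X] {g : X → X} (h : LipOK X g L) (i : ℕ) (x y : X) :
    dist (g^[i] x) (g^[i] y) ≤ (L : ℝ) ^ i * dist x y := by
  induction i with
  | zero => simp
  | succ i ih =>
    rw [Function.iterate_succ_apply', Function.iterate_succ_apply', pow_succ]
    calc dist (g (g^[i] x)) (g (g^[i] y)) ≤ L * dist (g^[i] x) (g^[i] y) := h _ _
      _ ≤ L * ((L : ℝ) ^ i * dist x y) := by gcongr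
      _ = (L : ℝ) ^ i * L * dist x y := by ring

/-- the induction -/
theorem claim (hL : 2 ≤ L) (he : 1 ≤ e) (hn : 1 ≤ n) {X : Type u} [MetricSpace X] (f : X ≃ X)
    (h2 : LipOK X f.symm L) (x : X) (m : ℕ) :
    ∀ t : ℕ, 1 ≤ t → t ≤ n → t < 2 ^ m → dist x (f^[t] x) ≤ SS L e n (2 * m) →
      ∃ k j : ℕ, k < 2 * m ∧ 1 ≤ j ∧ j ≤ n ∧ dist x (f^[j] x) ≤ SS L e n (k + 1) ∧
        ∀ i, 0 < i → i < j → SS L e n k < dist x (f^[i] x) := by
  induction m with
  | zero =>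
    intro t ht1 _ ht _
    simp at ht
    omega
  | succ m ih =>
    intro t ht1 htn ht hd
    by_cases hc : ∀ i, 0 < i → i < t → SS L e n (2 * m + 1) < dist x (f^[i] x)
    · exact ⟨2 * m + 1, t, by omega, ht1, htn, hd, hc⟩
    · push Not at hc
      obtain ⟨i, hi0, hit, hdi⟩ := hc
      have hinv : ∀ (i : ℕ) (y : X), f.symm^[i] (f^[i] y) = y := fun i y =>
        (Function.LeftInverse.iterate f.left_inv i) y
      have hLn : (L : ℝ) ^ i ≤ (L : ℝ) ^ n :=
        pow_le_pow_right₀ (by exact_mod_cast (by omega : 1 ≤ L)) (by omega)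
      have hS : 0 < SS L e n (2 * m + 1) := SS_pos hL _
      have hd' : dist x (f^[t] x) ≤ SS L e n (2 * m + 1) :=
        hd.trans (SS_step hL he hn (2 * m + 1))
      have e1 : f.symm^[i] (f^[t] x) = f^[t - i] x := by
        have : f^[t] x = f^[i] (f^[t - i] x) := by
          rw [← Function.iterate_add_apply]
          congr 2
          omega
        rw [this, hinv]
      have d1 : dist x (f.symm^[i] x) ≤ (L : ℝ) ^ i * dist (f^[i] x) x := by
        have := lip_iter h2 i (f^[i] x) x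
        rwa [hinv] at this
      have d2 : dist (f.symm^[i] x) (f^[t - i] x) ≤ (L : ℝ) ^ i * dist x (f^[t] x) := by
        have := lip_iter h2 i x (f^[t] x)
        rwa [e1] at this
      have d3 : dist x (f^[t - i] x) ≤ SS L e n (2 * m) := by
        have hLi : (0 : ℝ) ≤ (L : ℝ) ^ i := by positivity
        calc dist x (f^[t - i] x)
            ≤ dist x (f.symm^[i] x) + dist (f.symm^[i] x) (f^[t - i] x) := dist_triangle _ _ _
          _ ≤ (L : ℝ) ^ i * dist (f^[i] x) x + (L : ℝ) ^ i * dist x (f^[t] x) := add_le_add d1 d2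
          _ ≤ (L : ℝ) ^ i * SS L e n (2 * m + 1) + (L : ℝ) ^ i * SS L e n (2 * m + 1) := by
            rw [dist_comm (f^[i] x) x]
            gcongr
          _ = 2 * (L : ℝ) ^ i * SS L e n (2 * m + 1) := by ring
          _ ≤ 2 * (L : ℝ) ^ n * SS L e n (2 * m + 1) := by gcongr
          _ ≤ SS L e n (2 * m) := SS_two hL he hn _
      have d4 : dist x (f^[i] x) ≤ SS L e n (2 * m) := hdi.trans (SS_step hL he hn _)
      have hpow : 2 ^ (m + 1) = 2 * 2 ^ m := by ring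
      rcases Nat.lt_or_ge i (2 ^ m) with hlt | hge
      · obtain ⟨k, j, hk, hj⟩ := ih i (by omega) (by omega) hlt d4
        exact ⟨k, j, by omega, hj⟩
      · obtain ⟨k, j, hk, hj⟩ := ih (t - i) (by omega) (by omega) (by omega) d3
        exact ⟨k, j, by omega, hj⟩

/-- the size of the last scale -/
theorem size (hL : 2 ≤ L) (he : 1 ≤ e) (hn : 1 ≤ n) :
    Real.exp (-(((12 * e ^ 2 * L + 4 * e + 1 : ℕ) : ℝ) * (n : ℝ) ^ (12 * e ^ 2 * L + 4 * e + 1))) ≤
      SS L e n (2 * (Nat.log 2 n + 1)) := by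
  have h2 : (0 : ℝ) < L := by exact_mod_cast (by omega : 0 < L)
  have h3 : Real.exp (-(L : ℝ)) ≤ 1 / (L : ℝ) := by
    rw [Real.exp_neg, ← one_div]
    apply one_div_le_one_div_of_le h2
    have := Real.add_one_le_exp (L : ℝ)
    linarith
  have h4 : Real.exp (-((bb e n (2 * (Nat.log 2 n + 1)) : ℕ) * (L : ℝ))) ≤
      SS L e n (2 * (Nat.log 2 n + 1)) := by
    unfold SS
    have e1 : Real.exp (-((bb e n (2 * (Nat.log 2 n + 1)) : ℕ) * (L : ℝ))) =
        Real.exp (-(L : ℝ)) ^ bb e n (2 * (Nat.log 2 n + 1)) := by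
      rw [← Real.exp_nat_mul]
      congr 1
      ring
    rw [e1]
    exact pow_le_pow_left₀ (Real.exp_pos _).le h3 _
  refine le_trans (Real.exp_le_exp.2 ?_) h4
  rw [neg_le_neg_iff]
  have h5 : bb e n (2 * (Nat.log 2 n + 1)) * L ≤
      (12 * e ^ 2 * L + 4 * e + 1) * n ^ (12 * e ^ 2 * L + 4 * e + 1) := by
    have h6 : n ^ (4 * e + 1) ≤ n ^ (12 * e ^ 2 * L + 4 * e + 1) :=
      Nat.pow_le_pow_right hn (by omega)
    calc bb e n (2 * (Nat.log 2 n + 1)) * L ≤ 12 * e ^ 2 * n ^ (4 * e + 1) * L :=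
        Nat.mul_le_mul_right _ (bb_size he hn)
      _ = (12 * e ^ 2 * L) * n ^ (4 * e + 1) := by ring
      _ ≤ (12 * e ^ 2 * L + 4 * e + 1) * n ^ (12 * e ^ 2 * L + 4 * e + 1) :=
        Nat.mul_le_mul (by omega) h6
  exact_mod_cast h5

end

end ScQS

open ScQS in
theorem prSc : StSc.{u} := by
  intro e L he hL
  refine ⟨12 * e ^ 2 * L + 4 * e + 1, fun X _ f _ h2 n x hn hd => ?_⟩
  have hsz := size (L := L) (e := e) (n := n) hL he hn
  obtain ⟨k, j, hk, hj1, hjn, hj2, hj3⟩ := claim hL he hn f h2 x (Nat.log 2 n + 1) n hn le_rfl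
    (Nat.lt_pow_succ_log_self (by norm_num) n) (hd.trans hsz)
  refine ⟨j, SS L e n k, SS L e n (k + 1), hj1, hjn, SS_pos hL _, SS_le_one hL _, ?_,
    SS_succ hL k, hj3, hj2⟩
  exact hsz.trans (SS_anti hL he hn (by omega))

end Pool.Agent.OmegaQS
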