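import Pool.Agent.Work.MP_814647_an.QS.Stmts

/-!
# Item Td: from subbasic sets to open sets
-/

set_option autoImplicit false

open Set Filter Topology Function
open scoped Manifold ContDiff

noncomputable section

namespace Pool.Agent.OmegaQS

open Pool.Agent.OmegaStab (EE Dyn inCharts crTopology crSet HypLin HypAt)
open Pool.Agent.OmegaStability (ClosedManifold CrDiffeo IsComplexEigenvalue IsMultiplier
  derivativeAt HasBilipschitzCharts OmegaStable ClosesReturns)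

universe u

/-- Td. -/
theorem prTd (hTs : StTs.{u}) : StTd.{u} := by
  intro M r f N hN
  have hN' : TopologicalSpace.GenerateOpen
      {S | ∃ (f : Dyn M.dim M.carrier r) (x y : M.carrier) (K : Set M.carrier) (k : ℕ) (ε : ℝ),
        IsCompact K ∧ K ⊆ (extChartAt (𝓡 M.dim) x).source ∧
        (∀ z ∈ K, f z ∈ (extChartAt (𝓡 M.dim) y).source) ∧ (k : ℕ∞) ≤ r ∧ 0 < ε ∧
        S = crSet f x y K k ε} N := hN
  clear hN
  induction hN' with
  | basic S hS =>
    intro hf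
    obtain ⟨f0, x, y, K, k, ε, hK, hKs, hf0, hk, hε, rfl⟩ := hS
    exact ⟨k, fun m hm V _ _ q p₀ H hH =>
      hTs M r f f0 x y K k m ε hm hk hK hKs hf0 hε hf V q p₀ H hH⟩
  | univ =>
    intro _
    exact ⟨0, fun m _ V _ _ q p₀ H _ => Eventually.of_forall fun p ψ _ => mem_univ _⟩
  | inter S T hS hT ihS ihT =>
    intro hf
    obtain ⟨m₁, h₁⟩ := ihS hf.1
    obtain ⟨m₂, h₂⟩ := ihT hf.2
    refine ⟨max m₁ m₂, fun m hm V _ _ q p₀ H hH => ?_⟩
    filter_upwards [h₁ m ((le_max_left _ _).trans hm) V q p₀ H hH,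
      h₂ m ((le_max_right _ _).trans hm) V q p₀ H hH] with p hp₁ hp₂ ψ hψ
    exact ⟨hp₁ ψ hψ, hp₂ ψ hψ⟩
  | sUnion C hC ih =>
    intro hf
    obtain ⟨S, hSC, hfS⟩ := hf
    obtain ⟨m₀, h₀⟩ := ih S hSC hfS
    refine ⟨m₀, fun m hm V _ _ q p₀ H hH => ?_⟩
    filter_upwards [h₀ m hm V q p₀ H hH] with p hp ψ hψ
    exact ⟨S, hSC, hp ψ hψ⟩

end Pool.Agent.OmegaQS
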