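import Pool.Agent.Work.MP_814647_an.QS.Stmts

/-!
# Closing returns without perturbation: item Ts, families converge in subbasic open sets
-/

set_option autoImplicit false

open Set Filter Topology Function
open scoped Manifold ContDiff

noncomputable section

namespace Pool.Agent.OmegaQS

open Pool.Agent.OmegaStab (EE Dyn inCharts crTopology crSet HypLin HypAt)
open Pool.Agent.OmegaStability (ClosedManifold CrDiffeo IsComplexEigenvalue IsMultiplier
  derivativeAt HasBilipschitzCharts OmegaStable ClosesReturns)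

universe u

namespace TsQS

section

variable {d : ℕ} {M : Type*} [MetricSpace M] [ChartedSpace (EE d) M] {r : ℕ∞}
  [IsManifold (𝓡 d) ∞ M]

theorem le_infty (r : ℕ) : (r : ℕ∞ω) ≤ ∞ := by exact_mod_cast le_top

/-- Joint smoothness of a family in charts. -/
theorem contDiffAt_fam {V : Type*} [NormedAddCommGroup V] [NormedSpace ℝ V] {k : ℕ}
    {h : V → M → M} {p₀ : V} {U : Set V} (hU : U ∈ 𝓝 p₀)
    (hsm : ContMDiffOn (𝓘(ℝ, V).prod (𝓡 d)) (𝓡 d) k (fun q : V × M => h q.1 q.2) (U ×ˢ univ))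
    (h0 : ∀ z, h p₀ z = z) (f : M → M) (hf : ContMDiff (𝓡 d) (𝓡 d) k f) (x y z : M)
    (hz : z ∈ (extChartAt (𝓡 d) x).source) (hy : f z ∈ (extChartAt (𝓡 d) y).source) :
    ContDiffAt ℝ k (fun q : V × EE d => inCharts x y (fun w => h q.1 (f w)) q.2)
      (p₀, extChartAt (𝓡 d) x z) := by
  have : IsManifold (𝓡 d) (k : ℕ∞ω) M := IsManifold.of_le (le_infty k)
  have hzt : extChartAt (𝓡 d) x z ∈ (extChartAt (𝓡 d) x).target :=
    (extChartAt (𝓡 d) x).map_source hz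
  have hsymm : (extChartAt (𝓡 d) x).symm (extChartAt (𝓡 d) x z) = z :=
    (extChartAt (𝓡 d) x).left_inv hz
  rw [← contMDiffAt_iff_contDiffAt]
  -- inner map
  have h1 : ContMDiffAt 𝓘(ℝ, V × EE d) (𝓡 d) k
      (fun q : V × EE d => (extChartAt (𝓡 d) x).symm q.2) (p₀, extChartAt (𝓡 d) x z) := by
    have h2 : ContMDiffAt 𝓘(ℝ, EE d) (𝓡 d) k (extChartAt (𝓡 d) x).symm
        (extChartAt (𝓡 d) x z) :=
      (contMDiffOn_extChartAt_symm x).contMDiffAt (extChartAt_target_mem_nhds' hzt)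
    have h3 : ContMDiffAt 𝓘(ℝ, V × EE d) 𝓘(ℝ, EE d) k (fun q : V × EE d => q.2)
        (p₀, extChartAt (𝓡 d) x z) :=
      (contDiff_snd.contDiffAt).contMDiffAt
    exact ContMDiffAt.comp (p₀, extChartAt (𝓡 d) x z) h2 h3
  have h4 : ContMDiffAt 𝓘(ℝ, V × EE d) (𝓡 d) k
      (fun q : V × EE d => f ((extChartAt (𝓡 d) x).symm q.2)) (p₀, extChartAt (𝓡 d) x z) :=
    ContMDiffAt.comp (p₀, extChartAt (𝓡 d) x z) (hf.contMDiffAt) h1
  have h5 : ContMDiffAt 𝓘(ℝ, V × EE d) 𝓘(ℝ, V) k (fun q : V × EE d => q.1)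
      (p₀, extChartAt (𝓡 d) x z) :=
    (contDiff_fst.contDiffAt).contMDiffAt
  have h6 : ContMDiffAt (𝓘(ℝ, V).prod (𝓡 d)) (𝓡 d) k (fun q : V × M => h q.1 q.2)
      (p₀, f ((extChartAt (𝓡 d) x).symm (extChartAt (𝓡 d) x z))) :=
    hsm.contMDiffAt (prod_mem_nhds hU univ_mem)
  have h7 : ContMDiffAt 𝓘(ℝ, V × EE d) (𝓡 d) k
      (fun q : V × EE d => h q.1 (f ((extChartAt (𝓡 d) x).symm q.2)))
      (p₀, extChartAt (𝓡 d) x z) :=
    ContMDiffAt.comp₂ (h := fun q : V × M => h q.1 q.2) h6 h5 h4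
  have hval : h p₀ (f ((extChartAt (𝓡 d) x).symm (extChartAt (𝓡 d) x z))) = f z := by
    rw [h0, hsymm]
  have h8 : ContMDiffAt (𝓡 d) 𝓘(ℝ, EE d) k (extChartAt (𝓡 d) y)
      (h p₀ (f ((extChartAt (𝓡 d) x).symm (extChartAt (𝓡 d) x z)))) := by
    rw [hval]
    apply contMDiffAt_extChartAt'
    rwa [extChartAt_source] at hy
  exact ContMDiffAt.comp (p₀, extChartAt (𝓡 d) x z) h8 h7

/-- A family which is the identity at `p₀` keeps `f` in the subbasic open sets. -/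
theorem eventually_fam {V : Type*} [NormedAddCommGroup V] [NormedSpace ℝ V] {k : ℕ}
    {h : V → M → M} {p₀ : V} {U : Set V} (hU : U ∈ 𝓝 p₀)
    (hsm : ContMDiffOn (𝓘(ℝ, V).prod (𝓡 d)) (𝓡 d) k (fun q : V × M => h q.1 q.2) (U ×ˢ univ))
    (h0 : ∀ z, h p₀ z = z) (f f0 : Dyn d M r) (hk : (k : ℕ∞) ≤ r) (x y : M) (K : Set M)
    (hK : IsCompact K) (hKs : K ⊆ (extChartAt (𝓡 d) x).source)
    (hf0 : ∀ z ∈ K, f0 z ∈ (extChartAt (𝓡 d) y).source) (ε : ℝ)
    (hf : f ∈ crSet f0 x y K k ε) :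
    ∀ᶠ v in 𝓝 p₀, ∀ z ∈ K, h v (f z) ∈ (extChartAt (𝓡 d) y).source ∧
      ‖iteratedFDeriv ℝ k (inCharts x y (fun w => h v (f w))) (extChartAt (𝓡 d) x z) -
        iteratedFDeriv ℝ k (inCharts x y f0) (extChartAt (𝓡 d) x z)‖ < ε := by
  apply hK.eventually_forall_of_forall_eventually
  intro z hz
  obtain ⟨hfz, hfε⟩ := hf z hz
  have hkr : ((k : ℕ) : ℕ∞ω) ≤ (r : ℕ∞ω) := by exact_mod_cast hk
  have hcz : ContinuousAt (extChartAt (𝓡 d) x) z := continuousAt_extChartAt' (hKs hz)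
  have hc : ContinuousAt (fun p : V × M => ((p.1, extChartAt (𝓡 d) x p.2) : V × EE d))
      (p₀, z) :=
    continuousAt_fst.prodMk (ContinuousAt.comp (f := fun p : V × M => p.2) hcz continuousAt_snd)
  apply Filter.Eventually.and
  · have h1 : ContMDiffAt (𝓘(ℝ, V).prod (𝓡 d)) (𝓡 d) k (fun q : V × M => h q.1 q.2)
        (p₀, f z) := hsm.contMDiffAt (prod_mem_nhds hU univ_mem)
    have h2 : ContinuousAt (fun p : V × M => ((p.1, f p.2) : V × M)) (p₀, z) :=
      continuousAt_fst.prodMk (f.continuous.continuousAt.comp continuousAt_snd)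
    have h3 : ContinuousAt (fun p : V × M => h p.1 (f p.2)) (p₀, z) :=
      ContinuousAt.comp (g := fun q : V × M => h q.1 q.2)
        (f := fun p : V × M => ((p.1, f p.2) : V × M)) h1.continuousAt h2
    have h5 : (extChartAt (𝓡 d) y).source ∈ 𝓝 (h p₀ (f z)) := by
      rw [h0]
      exact extChartAt_source_mem_nhds' hfz
    exact h3 h5
  · have h1 : ContinuousAt (fun p : V × EE d => iteratedFDeriv ℝ k
        (fun u => inCharts x y (fun w => h p.1 (f w)) u) p.2) (p₀, extChartAt (𝓡 d) x z) :=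
      OmegaStab.CrT.continuousAt_slice _ k _
        (contDiffAt_fam hU hsm h0 f (f.contMDiff.of_le hkr) x y z (hKs hz) hfz)
    have h2 : ContinuousAt (iteratedFDeriv ℝ k (inCharts x y f0)) (extChartAt (𝓡 d) x z) :=
      ((OmegaStab.CrT.contDiffAt_inCharts f0 x y z (hKs hz)
        (hf0 z hz)).continuousAt_iteratedFDeriv hkr)
    have h3 : ContinuousAt (fun p : V × M =>
        iteratedFDeriv ℝ k (inCharts x y (fun w => h p.1 (f w))) (extChartAt (𝓡 d) x p.2) -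
        iteratedFDeriv ℝ k (inCharts x y f0) (extChartAt (𝓡 d) x p.2)) (p₀, z) := by
      apply ContinuousAt.sub
      · exact ContinuousAt.comp
          (f := fun p : V × M => ((p.1, extChartAt (𝓡 d) x p.2) : V × EE d)) h1 hc
      · exact ContinuousAt.comp (f := fun p : V × M => extChartAt (𝓡 d) x p.2) h2
          (ContinuousAt.comp (f := fun p : V × M => p.2) hcz continuousAt_snd)
    have h5 := h3.norm
    have h6 : ∀ᶠ p in 𝓝 (p₀, z),
        ‖iteratedFDeriv ℝ k (inCharts x y (fun w => h p.1 (f w))) (extChartAt (𝓡 d) x p.2) -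
        iteratedFDeriv ℝ k (inCharts x y f0) (extChartAt (𝓡 d) x p.2)‖ < ε := by
      apply h5.eventually_lt_const
      have h7 : inCharts (d := d) x y (fun w => h p₀ (f w)) = inCharts x y f := by
        funext u
        simp only [inCharts, h0]
      simp only [h7]
      exact hfε
    exact h6

end

end TsQS

theorem prTs : StTs.{u} := by
  intro M r f f0 x y K k m ε hkm hkr hK hKs hf0 _hε hf V _ _ q p₀ H hLF
  obtain ⟨K₀, U₀, hK₀, hKt, hU₀, hp₀, hsupp, hs, hid⟩ := hLF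
  have h1 : ContMDiffOn (𝓘(ℝ, V).prod (𝓡 M.dim)) (𝓡 M.dim) ((m : ℕ∞) : ℕ∞ω)
      (fun p : V × M.carrier => OmegaStab.Fam.T (d := M.dim) q (H p.1) p.2) (U₀ ×ˢ univ) :=
    OmegaStab.Fam.T_contMDiffOn (r := (m : ℕ∞)) hK₀ hKt hU₀ hsupp (by exact_mod_cast hs)
  have hkm' : (k : ℕ∞ω) ≤ ((m : ℕ∞) : ℕ∞ω) := by exact_mod_cast hkm
  have h2 := h1.of_le hkm'
  have h3 : ∀ z : M.carrier, OmegaStab.Fam.T (d := M.dim) q (H p₀) z = z := by
    intro z
    by_cases hz : z ∈ (extChartAt (𝓡 M.dim) q).source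
    · rw [OmegaStab.Fam.T_of_mem hz, hid, (extChartAt (𝓡 M.dim) q).left_inv hz]
    · exact OmegaStab.Fam.T_of_notMem hz
  have h4 := TsQS.eventually_fam (h := fun p => OmegaStab.Fam.T (d := M.dim) q (H p))
    (hU₀.mem_nhds hp₀) h2 h3 f f0 hkr x y K hK hKs hf0 ε hf
  filter_upwards [h4] with p hp ψ hψ z hz
  have h5 : ((f.trans ψ : CrDiffeo M r) : M.carrier → M.carrier) =
      fun w => OmegaStab.Fam.T (d := M.dim) q (H p) (f w) := by
    funext w
    exact hψ (f w)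
  have h6 := hp z hz
  refine ⟨?_, ?_⟩
  · have h7 : (f.trans ψ : CrDiffeo M r) z = OmegaStab.Fam.T (d := M.dim) q (H p) (f z) :=
      congrFun h5 z
    rw [h7]
    exact h6.1
  · rw [h5]
    exact h6.2

end Pool.Agent.OmegaQS
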