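import Pool.Agent.Work.MP_814647_an.QS.Stmts

/-!
# Item U1 of the block [814647 QS]: uniform bounds in charts
-/

set_option autoImplicit false
set_option maxSynthPendingDepth 3

open Set Filter Topology Function
open scoped Manifold ContDiff

noncomputable section

namespace Pool.Agent.OmegaQS

open Pool.Agent.OmegaStab (EE Dyn inCharts crTopology crSet HypLin HypAt)
open Pool.Agent.OmegaStability (ClosedManifold CrDiffeo IsComplexEigenvalue IsMultiplier
  derivativeAt HasBilipschitzCharts OmegaStable ClosesReturns)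

universe u

namespace U1QS

/-- a map of class `C^2` on an open set, near a compact subset -/
theorem local_bounds {d : ℕ} (G : EE d → EE d) (U S : Set (EE d)) (hU : IsOpen U)
    (hG : ContDiffOn ℝ 2 G U) (hS : IsCompact S) (hSU : S ⊆ U) :
    ∀ᶠ L : ℕ in atTop, ∀ a ∈ S, Metric.ball a (1 / L) ⊆ U ∧ C11 G a (1 / L) L L := by
  obtain ⟨δ, hδ, hδU⟩ := hS.exists_cthickening_subset_open hU hSU
  have hC : IsCompact (Metric.cthickening δ S) := hS.cthickening
  have h1 : ContDiffOn ℝ 1 (fderiv ℝ G) U := hG.fderiv_of_isOpen hU (by norm_num)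
  have h2 : ContinuousOn (fderiv ℝ G) U := h1.continuousOn
  have h3 : ContinuousOn (fderiv ℝ (fderiv ℝ G)) U :=
    h1.continuousOn_fderiv_of_isOpen hU le_rfl
  obtain ⟨B1, hB1⟩ := hC.exists_bound_of_continuousOn (h2.mono hδU)
  obtain ⟨B2, hB2⟩ := hC.exists_bound_of_continuousOn (h3.mono hδU)
  have hev : ∀ c : ℝ, ∀ᶠ L : ℕ in atTop, c ≤ (L : ℝ) := fun c =>
    tendsto_natCast_atTop_atTop.eventually_ge_atTop c
  filter_upwards [hev (1 / δ), hev B1, hev B2, hev 1] with L hL0 hL1 hL2 hL3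
  intro a ha
  have hLpos : (0 : ℝ) < L := by linarith
  have hLδ : 1 / (L : ℝ) ≤ δ := by
    rw [div_le_iff₀ hLpos]
    rw [div_le_iff₀ hδ] at hL0
    linarith
  have hball : Metric.ball a (1 / L) ⊆ Metric.cthickening δ S := by
    intro w hw
    exact Metric.mem_cthickening_of_dist_le w a δ S ha ((Metric.mem_ball.1 hw).le.trans hLδ)
  have hballU : Metric.ball a (1 / L) ⊆ U := hball.trans hδU
  refine ⟨hballU, ⟨?_, ?_, ?_⟩⟩
  · intro u hu
    exact (hG.contDiffAt (hU.mem_nhds (hballU hu))).differentiableAt (by norm_num)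
  · intro u hu
    exact (hB1 u (hball hu)).trans hL1
  · intro u hu w hw
    refine Convex.norm_image_sub_le_of_norm_fderiv_le (f := fderiv ℝ G) (𝕜 := ℝ)
      (s := Metric.ball a (1 / L)) ?_ ?_ (convex_ball a _) hw hu
    · intro v hv
      exact (h1.contDiffAt (hU.mem_nhds (hballU hv))).differentiableAt (by norm_num)
    · intro v hv
      exact (hB2 v (hball hv)).trans hL2

end U1QS

theorem prU1 : StU1.{u} := by
  intro M A g hg
  unfold U1OK
  rw [eventually_all]
  intro i
  rw [eventually_all]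
  intro i'
  have hK' : IsClosed (g ⁻¹' A.K i') := (A.cpt i').isClosed.preimage hg.continuous
  have hCc : IsCompact (A.K i ∩ g ⁻¹' A.K i') := (A.cpt i).inter_right hK'
  have hcont : ContinuousOn (ch M (A.q i)) (A.K i ∩ g ⁻¹' A.K i') :=
    (continuousOn_extChartAt (A.q i)).mono (inter_subset_left.trans (A.sub i))
  have hS : IsCompact (ch M (A.q i) '' (A.K i ∩ g ⁻¹' A.K i')) := hCc.image_of_continuousOn hcont
  have hSU : ch M (A.q i) '' (A.K i ∩ g ⁻¹' A.K i') ⊆
      OmegaStab.chartDom (d := M.dim) (A.q i) (A.q i') g := by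
    rintro _ ⟨x, hx, rfl⟩
    exact OmegaStab.mem_chartDom (A.sub i hx.1) (A.sub i' hx.2)
  have hG : ContDiffOn ℝ 2 (ic M (A.q i) (A.q i') g)
      (OmegaStab.chartDom (d := M.dim) (A.q i) (A.q i') g) :=
    OmegaStab.contDiffOn_inCharts (r := 2) hg (A.q i) (A.q i')
  have hU := OmegaStab.isOpen_chartDom (d := M.dim) (A.q i) (A.q i') hg.continuous
  filter_upwards [U1QS.local_bounds _ _ _ hU hG hS hSU] with L hL
  intro x hx hgx
  obtain ⟨h1, h2⟩ := hL (ch M (A.q i) x) ⟨x, ⟨hx, hgx⟩, rfl⟩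
  refine ⟨fun w hw => ?_, h2⟩
  obtain ⟨h3, h4⟩ := h1 hw
  exact ⟨h3, h4⟩

end Pool.Agent.OmegaQS
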