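import Pool.Agent.Work.MP_814647_an.QS.I_Fin
import Pool.Agent.Work.MP_814647_an.QS.I_Eh
import Pool.Agent.Work.MP_814647_an.QS.I_Gp
import Pool.Agent.Work.MP_814647_an.QS.I_Iv
import Pool.Agent.Work.MP_814647_an.QS.I_Pw
import Pool.Agent.Work.MP_814647_an.QS.I_Nw
import Pool.Agent.Work.MP_814647_an.QS.I_Ni
import Pool.Agent.Work.MP_814647_an.QS.I_At
import Pool.Agent.Work.MP_814647_an.QS.I_Mt
import Pool.Agent.Work.MP_814647_an.QS.I_U1
import Pool.Agent.Work.MP_814647_an.QS.I_It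
import Pool.Agent.Work.MP_814647_an.QS.I_Lp
import Pool.Agent.Work.MP_814647_an.QS.I_Cc
import Pool.Agent.Work.MP_814647_an.QS.I_Sb
import Pool.Agent.Work.MP_814647_an.QS.I_Hb
import Pool.Agent.Work.MP_814647_an.QS.I_Ts
import Pool.Agent.Work.MP_814647_an.QS.I_Td
import Pool.Agent.Work.MP_814647_an.QS.I_Pe
import Pool.Agent.Work.MP_814647_an.QS.I_Go
import Pool.Agent.Work.MP_814647_an.QS.I_Ga
import Pool.Agent.Work.MP_814647_an.QS.I_G1
import Pool.Agent.Work.MP_814647_an.QS.I_G3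
import Pool.Agent.Work.MP_814647_an.QS.I_G4
import Pool.Agent.Work.MP_814647_an.QS.I_Dv
import Pool.Agent.Work.MP_814647_an.QS.I_Gs
import Pool.Agent.Work.MP_814647_an.QS.I_Sc

/-!
# Closing returns without perturbation: the theorem
-/

set_option autoImplicit false

noncomputable section

namespace Pool.Agent.OmegaQS

universe u

theorem pe_main : StPe.{u} := prPe (prTd prTs) prSb prHb

theorem closing_main : StFin.{u} :=
  prFin prAt prMt prU1 prIt prLp pe_main (prGa prEh prCc prGo) (prG1 (prGp) prIv prNw)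
    (prG3 prEh (prGp) prPw prCc) (prG4 prEh prIv prNi prCc) (prGs prDv) prSc

end Pool.Agent.OmegaQS
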