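import Pool.Agent.Work.MP_814647_an.QS.Stmts

/-!
# Closing returns without perturbation: the assembly
-/

set_option autoImplicit false

open Set Filter Topology Function
open scoped Manifold ContDiff

noncomputable section

namespace Pool.Agent.OmegaQS

open Pool.Agent.OmegaStab (EE Dyn inCharts crTopology crSet HypLin HypAt)
open Pool.Agent.OmegaStability (ClosedManifold CrDiffeo IsComplexEigenvalue IsMultiplier
  derivativeAt HasBilipschitzCharts OmegaStable ClosesReturns)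

universe u

theorem prFin (hAt : StAt.{u}) (hMt : StMt.{u}) (hU1 : StU1.{u}) (hIt : StIt.{u})
    (hLp : StLp.{u}) (hPe : StPe.{u}) (hGa : StGa.{u}) (hG1 : StG1.{u}) (hG3 : StG3.{u})
    (hG4 : StG4.{u}) (hGs : StGs.{u}) (hSc : StSc.{u}) : StFin.{u} := by
  intro M hM r hr f hst
  have hr1 : 1 ≤ r := le_trans (by norm_num) hr
  have hst' : OmegaStab.OmegaStable f := hst
  obtain ⟨N, hN, hfN, hNconj⟩ := hst'
  have hconj : OmegaStab.ConjClass N := by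
    intro g hg g' hg'
    obtain ⟨h₁, hh₁⟩ := hNconj g hg
    obtain ⟨h₂, hh₂⟩ := hNconj g' hg'
    refine ⟨h₁.symm.trans h₂, fun x y hxy => ?_⟩
    obtain ⟨a, rfl⟩ := h₁.surjective x
    obtain ⟨b, rfl⟩ := h₁.surjective y
    simp only [Homeomorph.trans_apply, Homeomorph.symm_apply_apply]
    have hfa : f a ∈ OmegaStab.nonwandering f := OmegaStab.nonwandering_map f a.2
    have h3 := hh₁ a ⟨f a, hfa⟩ rfl
    have h4 : h₁ b = h₁ ⟨f a, hfa⟩ := Subtype.ext (by rw [h3]; exact hxy)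
    have h5 : b = ⟨f a, hfa⟩ := h₁.injective h4
    exact hh₂ a b (by rw [h5])
  have hhyp := OmegaStab.hypAt_of_conjClass hr1 hN hconj
  obtain ⟨A⟩ := hAt M
  obtain ⟨k, hPk⟩ := hPe M r f N hN hfN A
  have hMet := hMt M hM A
  have h2 : ((2 : ℕ∞) : WithTop ℕ∞) ≤ (r : WithTop ℕ∞) := by exact_mod_cast hr
  have hUf := hU1 M A f (f.contMDiff.of_le h2)
  have hUi := hU1 M A id contMDiff_id
  have hUs := hU1 M A f.symm (f.symm.contMDiff.of_le h2)
  have hItf := hIt M A f hUf hUi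
  have hLf := hLp M A f hMet hUf
  have hLs := hLp M A f.symm hMet hUs
  have hGaf := hGa M A r f N k hr1 hhyp hMet hPk
  obtain ⟨e₁, h1⟩ := hG1 M A f k hMet hItf hGaf
  obtain ⟨e₃, h3⟩ := hG3 M A r f k hr1 hMet hGaf
  obtain ⟨e₄, h4⟩ := hG4 M A r f hr1 hMet hItf hLf
  obtain ⟨e, he, hgs⟩ := hGs M f e₁ e₃ e₄ hLf h1 h3 h4
  obtain ⟨L, hL, hgsL, hLfL, hLsL⟩ :=
    ((eventually_ge_atTop 2).and (hgs.and (hLf.and hLs))).exists
  obtain ⟨K, hK⟩ := hSc e L he hL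
  refine ⟨K, fun n hn x hx => ?_⟩
  obtain ⟨j, σ, s, hj1, hjn, hσ, hσ1, hs1, hs2, hret, hxj⟩ :=
    hK M.carrier f.toEquiv hLfL hLsL n x hn hx
  obtain ⟨y, hy, hxy, hiso, hmu⟩ := hgsL n j x σ s hj1 hjn hσ hσ1 hs2 hret hxj (hx.trans hs1)
  have hτ : Real.exp (-(K * (n : ℝ) ^ K)) ≤ (σ / (L : ℝ) ^ n) ^ e := hs1.trans hs2
  refine ⟨y, hy, ?_, fun z hz hyz => hiso z hz (hyz.trans hτ), fun μ hμ => hτ.trans (hmu μ hμ)⟩
  have h6 : dist x y * Real.exp (-(K * (n : ℝ) ^ K)) ≤ dist x (f^[n] x) :=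
    (mul_le_mul_of_nonneg_left hτ dist_nonneg).trans hxy
  have h7 : dist x y = Real.exp (K * (n : ℝ) ^ K) * (dist x y * Real.exp (-(K * (n : ℝ) ^ K))) := by
    rw [mul_left_comm, ← Real.exp_add]
    simp
  rw [h7]
  exact mul_le_mul_of_nonneg_left h6 (Real.exp_pos _).le

end Pool.Agent.OmegaQS
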