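import Pool.Agent.Work.MP_814647_an.QS.Stmts

/-!
# Item G3 of the block [814647 QS]: multipliers
-/

set_option autoImplicit false

open Set Filter Topology Function
open scoped Manifold ContDiff

noncomputable section

namespace Pool.Agent.OmegaQS

open Pool.Agent.OmegaStab (EE Dyn inCharts crTopology crSet HypLin HypAt)
open Pool.Agent.OmegaStability (ClosedManifold CrDiffeo IsComplexEigenvalue IsMultiplier
  derivativeAt HasBilipschitzCharts OmegaStable ClosesReturns)

universe u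

namespace G3QS

theorem abs_pow_sub_one {t : ℝ} (ht : 0 ≤ t) {a : ℕ} (ha : 1 ≤ a) : |t - 1| ≤ |t ^ a - 1| := by
  rcases le_total 1 t with h | h
  · have h1 : t ≤ t ^ a := le_self_pow₀ h (by omega)
    rw [abs_of_nonneg (by linarith), abs_of_nonneg (by linarith)]
    linarith
  · have h1 : t ^ a ≤ t := pow_le_of_le_one ht h (by omega)
    rw [abs_of_nonpos (by linarith), abs_of_nonpos (by linarith)]
    linarith

end G3QS

theorem prG3 (hEh : StEh) (hGp : StGp) (hPw : StPw) (hCc : StCc.{u}) : StG3.{u} := by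
  intro M A r f k hr hMet hGa
  refine ⟨k + 1, ?_⟩
  filter_upwards [hMet, hGa] with L hM hG
  intro n j y σ hj hn hjn hσ hσ1 hy hsep μ hμ
  have hL2 : (2 : ℝ) ≤ L := by exact_mod_cast hM.two
  have hL0 : (0 : ℝ) < L := by linarith
  obtain ⟨a, rfl⟩ := hjn
  have ha : 1 ≤ a := by
    rcases Nat.eq_zero_or_pos a with h | h
    · subst h; simp at hn
    · exact h
  have hpow : derivativeAt (f : M.carrier → M.carrier)^[j * a] y = derivativeAt (f : M.carrier → M.carrier)^[j] y ^ a :=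
    OmegaStab.FinHyp.der_iter_mul (d := M.dim) (OmegaStab.FinHyp.mdiff hr f) hy a
  have hμ' : IsComplexEigenvalue (derivativeAt (f : M.carrier → M.carrier)^[j] y ^ a) μ := by
    rw [← hpow]; exact hμ
  obtain ⟨ν, hν, rfl⟩ := hPw M.dim a _ μ ha hμ'
  obtain ⟨i, hi⟩ := A.cov y
  have hyK : y ∈ A.K i := hi (Metric.mem_ball_self A.pos)
  have hε : 0 < (σ / L) ^ k := by positivity
  have hσL : σ / L ≤ 1 / 2 := by
    rw [div_le_div_iff₀ hL0 two_pos]; nlinarith
  have hσL0 : 0 ≤ σ / L := by positivity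
  have hε1 : (σ / L) ^ k ≤ 1 := pow_le_one₀ hσL0 (by linarith)
  have h1 := hGp M.dim (fderiv ℝ (ic M (A.q i) (A.q i) (f : M.carrier → M.carrier)^[j]) (ch M (A.q i) y))
    ((σ / L) ^ k) hε hε1 (fun s hs => hG j i y σ hj hyK (by rw [hy]; exact hyK) hσ hσ1 hsep
      (by rw [hy, dist_self]; positivity) s hs)
  obtain ⟨T, hT⟩ := hCc M r f (A.q i) y j hr hy (A.sub i hyK)
  have h2 := (hEh M.dim (derivativeAt (f : M.carrier → M.carrier)^[j] y)).2 _ T hT ν
  have h3 := h1 ν (h2.2 hν)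
  have h4 : (σ / L) ^ (k + 1) ≤ (σ / L) ^ k / 2 := by
    rw [pow_succ]; nlinarith
  have h5 := G3QS.abs_pow_sub_one (norm_nonneg ν) ha
  rw [norm_pow]
  linarith

end Pool.Agent.OmegaQS
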