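import Pool.Agent.Work.MP_814647_an.QS.Stmts

set_option autoImplicit false

/-!
# Block QS, item It: the iterates in the charts (helper79)
-/

open Set Filter Topology Function
open scoped Manifold ContDiff

noncomputable section

namespace Pool.Agent.OmegaQS

open Pool.Agent.OmegaStab (EE Dyn inCharts crTopology crSet HypLin HypAt)
open Pool.Agent.OmegaStability (ClosedManifold CrDiffeo IsComplexEigenvalue IsMultiplier
  derivativeAt HasBilipschitzCharts OmegaStable ClosesReturns)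

universe u

namespace ItQS

section generic

variable {E : Type*} [NormedAddCommGroup E] [NormedSpace ℝ E]

theorem C11_mono {G : E → E} {a : E} {R P Λ R' P' Λ' : ℝ} (h : C11 G a R P Λ) (hR : R' ≤ R)
    (hP : P ≤ P') (hΛ : Λ ≤ Λ') : C11 G a R' P' Λ' where
  diff u hu := h.diff u (Metric.ball_subset_ball hR hu)
  bound u hu := (h.bound u (Metric.ball_subset_ball hR hu)).trans hP
  lip u hu w hw := (h.lip u (Metric.ball_subset_ball hR hu) w
    (Metric.ball_subset_ball hR hw)).trans (mul_le_mul_of_nonneg_right hΛ (norm_nonneg _))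

theorem C11_congr {G G' : E → E} {a : E} {R P Λ : ℝ} (h : C11 G a R P Λ)
    (he : ∀ u ∈ Metric.ball a R, G' u = G u) : C11 G' a R P Λ := by
  have h1 : ∀ u ∈ Metric.ball a R, G' =ᶠ[𝓝 u] G := fun u hu =>
    Filter.eventually_of_mem (Metric.isOpen_ball.mem_nhds hu) he
  have h2 : ∀ u ∈ Metric.ball a R, fderiv ℝ G' u = fderiv ℝ G u := fun u hu =>
    (h1 u hu).fderiv_eq
  refine ⟨fun u hu => ((h.diff u hu).congr_of_eventuallyEq (h1 u hu)), fun u hu => ?_,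
    fun u hu w hw => ?_⟩
  · rw [h2 u hu]
    exact h.bound u hu
  · rw [h2 u hu, h2 w hw]
    exact h.lip u hu w hw

theorem C11_lip {G : E → E} {a : E} {R P Λ : ℝ} (h : C11 G a R P Λ) {u w : E}
    (hu : u ∈ Metric.ball a R) (hw : w ∈ Metric.ball a R) : ‖G u - G w‖ ≤ P * ‖u - w‖ :=
  (convex_ball a R).norm_image_sub_le_of_norm_fderiv_le h.diff h.bound hw hu

theorem C11_comp {G₁ G₂ : E → E} {a b : E} {R₁ P₁ Λ₁ R₂ P₂ Λ₂ R : ℝ} (h₁ : C11 G₁ a R₁ P₁ Λ₁)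
    (h₂ : C11 G₂ b R₂ P₂ Λ₂) (hb : G₁ a = b) (hR : R ≤ R₁) (hR₂ : P₁ * R ≤ R₂) (hP₁ : 0 < P₁)
    (hP₂ : 0 ≤ P₂) (hΛ₂ : 0 ≤ Λ₂) :
    (∀ u ∈ Metric.ball a R, G₁ u ∈ Metric.ball b R₂) ∧
    C11 (fun u => G₂ (G₁ u)) a R (P₂ * P₁) (Λ₂ * P₁ * P₁ + P₂ * Λ₁) := by
  have hsub : Metric.ball a R ⊆ Metric.ball a R₁ := Metric.ball_subset_ball hR
  have hmap : ∀ u ∈ Metric.ball a R, G₁ u ∈ Metric.ball b R₂ := by
    intro u hu
    have hR0 : 0 < R := lt_of_le_of_lt dist_nonneg (Metric.mem_ball.1 hu)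
    have ha : a ∈ Metric.ball a R₁ := Metric.mem_ball_self (hR0.trans_le hR)
    have h1 := C11_lip h₁ (hsub hu) ha
    have h2 : ‖u - a‖ < R := by
      rw [← dist_eq_norm]
      exact hu
    rw [Metric.mem_ball, dist_eq_norm, ← hb]
    calc ‖G₁ u - G₁ a‖ ≤ P₁ * ‖u - a‖ := h1
      _ < P₁ * R := mul_lt_mul_of_pos_left h2 hP₁
      _ ≤ R₂ := hR₂
  have hder : ∀ u ∈ Metric.ball a R, fderiv ℝ (fun u => G₂ (G₁ u)) u =
      (fderiv ℝ G₂ (G₁ u)).comp (fderiv ℝ G₁ u) := fun u hu =>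
    fderiv_comp u (h₂.diff _ (hmap u hu)) (h₁.diff u (hsub hu))
  refine ⟨hmap, fun u hu => ?_, fun u hu => ?_, fun u hu w hw => ?_⟩
  · exact (h₂.diff _ (hmap u hu)).comp u (h₁.diff u (hsub hu))
  · rw [hder u hu]
    exact (ContinuousLinearMap.opNorm_comp_le _ _).trans (mul_le_mul (h₂.bound _ (hmap u hu))
      (h₁.bound u (hsub hu)) (norm_nonneg _) hP₂)
  · rw [hder u hu, hder w hw]
    have e1 : (fderiv ℝ G₂ (G₁ u)).comp (fderiv ℝ G₁ u) -
        (fderiv ℝ G₂ (G₁ w)).comp (fderiv ℝ G₁ w) =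
        (fderiv ℝ G₂ (G₁ u) - fderiv ℝ G₂ (G₁ w)).comp (fderiv ℝ G₁ u) +
        (fderiv ℝ G₂ (G₁ w)).comp (fderiv ℝ G₁ u - fderiv ℝ G₁ w) := by
      rw [ContinuousLinearMap.sub_comp, ContinuousLinearMap.comp_sub]
      abel
    rw [e1]
    have e2 : ‖fderiv ℝ G₂ (G₁ u) - fderiv ℝ G₂ (G₁ w)‖ ≤ Λ₂ * (P₁ * ‖u - w‖) :=
      (h₂.lip _ (hmap u hu) _ (hmap w hw)).trans
        (mul_le_mul_of_nonneg_left (C11_lip h₁ (hsub hu) (hsub hw)) hΛ₂)
    have e3 := h₁.lip u (hsub hu) w (hsub hw)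
    calc _ ≤ ‖fderiv ℝ G₂ (G₁ u) - fderiv ℝ G₂ (G₁ w)‖ * ‖fderiv ℝ G₁ u‖ +
          ‖fderiv ℝ G₂ (G₁ w)‖ * ‖fderiv ℝ G₁ u - fderiv ℝ G₁ w‖ :=
          (norm_add_le _ _).trans (add_le_add (ContinuousLinearMap.opNorm_comp_le _ _)
            (ContinuousLinearMap.opNorm_comp_le _ _))
      _ ≤ Λ₂ * (P₁ * ‖u - w‖) * P₁ + P₂ * (Λ₁ * ‖u - w‖) := by
          refine add_le_add (mul_le_mul e2 (h₁.bound u (hsub hu)) (norm_nonneg _) ?_)
            (mul_le_mul (h₂.bound _ (hmap w hw)) e3 (norm_nonneg _) hP₂)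
          positivity
      _ = (Λ₂ * P₁ * P₁ + P₂ * Λ₁) * ‖u - w‖ := by ring

end generic

end ItQS

open ItQS in
theorem prIt : StIt.{u} := by
  intro M A f h1 h2
  filter_upwards [h1, h2, eventually_ge_atTop 2] with L hf hid hL
  have hLr : (2 : ℝ) ≤ L := by exact_mod_cast hL
  have hL0 : (0 : ℝ) < L := by linarith
  have hL1 : (1 : ℝ) ≤ L := by linarith
  intro j
  induction j with
  | zero =>
    intro i i' x hx hx'
    obtain ⟨u1, u2⟩ := hid i i' x hx hx'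
    rw [zero_add, pow_one, pow_one, mul_one]
    refine ⟨u1, ?_⟩
    exact C11_mono u2 le_rfl le_rfl (le_self_pow₀ hL1 (by norm_num))
  | succ j ih =>
    intro i i' x hx hx'
    obtain ⟨i₁, hi₁⟩ := A.cov (f x)
    have hfx : f x ∈ A.K i₁ := hi₁ (Metric.mem_ball_self A.pos)
    obtain ⟨u1, u2⟩ := hf i i₁ x hx hfx
    obtain ⟨v1, v2⟩ := ih i₁ i' (f x) hfx hx'
    have hR : ((1 : ℝ) / L) ^ (j + 1 + 1) ≤ 1 / L := by
      have h3 : (1 : ℝ) / L ≤ 1 := by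
        rw [div_le_one hL0]
        exact hL1
      exact pow_le_of_le_one (by positivity) h3 (by omega)
    have hR2 : (L : ℝ) * ((1 : ℝ) / L) ^ (j + 1 + 1) ≤ ((1 : ℝ) / L) ^ (j + 1) := by
      rw [pow_succ, mul_comm, mul_assoc, one_div, inv_mul_cancel₀ hL0.ne', mul_one]
    have hb : ic M (A.q i) (A.q i₁) f (ch M (A.q i) x) = ch M (A.q i₁) (f x) :=
      OmegaStab.inCharts_apply (A.sub i hx)
    obtain ⟨w1, w2⟩ := C11_comp u2 v2 hb hR hR2 hL0 (by positivity) (by positivity)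
    have hdom : ∀ w ∈ Metric.ball (ch M (A.q i) x) (((1 : ℝ) / L) ^ (j + 1 + 1)),
        w ∈ OmegaStab.chartDom (d := M.dim) (A.q i) (A.q i₁) f := fun w hw =>
      u1 w (Metric.ball_subset_ball hR hw)
    have hinv : ∀ w ∈ Metric.ball (ch M (A.q i) x) (((1 : ℝ) / L) ^ (j + 1 + 1)),
        (ch M (A.q i₁)).symm (ic M (A.q i) (A.q i₁) f w) = f ((ch M (A.q i)).symm w) :=
      fun w hw => (ch M (A.q i₁)).left_inv (hdom w hw).2
    have heq : ∀ w ∈ Metric.ball (ch M (A.q i) x) (((1 : ℝ) / L) ^ (j + 1 + 1)),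
        ic M (A.q i) (A.q i') f^[j + 1] w =
          ic M (A.q i₁) (A.q i') f^[j] (ic M (A.q i) (A.q i₁) f w) := by
      intro w hw
      rw [Function.iterate_succ]
      exact (OmegaStab.inCharts_comp (hdom w hw)).symm
    constructor
    · intro w hw
      refine ⟨(hdom w hw).1, ?_⟩
      have h3 := (v1 _ (w1 w hw)).2
      rw [hinv w hw] at h3
      exact h3
    · refine C11_mono (C11_congr w2 heq) le_rfl ?_ ?_
      · rw [← pow_succ]
      · have h3 : (L : ℝ) ^ (3 * (j + 1)) * L * L + (L : ℝ) ^ (j + 1) * L ≤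
            2 * (L : ℝ) ^ (3 * j + 5) := by
          have h4 : (L : ℝ) ^ (3 * (j + 1)) * L * L = (L : ℝ) ^ (3 * j + 5) := by ring
          have h5 : (L : ℝ) ^ (j + 1) * L = (L : ℝ) ^ (j + 2) := by ring
          have h6 : (L : ℝ) ^ (j + 2) ≤ (L : ℝ) ^ (3 * j + 5) :=
            pow_le_pow_right₀ hL1 (by omega)
          rw [h4, h5]
          linarith
        have h7 : 2 * (L : ℝ) ^ (3 * j + 5) ≤ (L : ℝ) ^ (3 * (j + 1 + 1)) := by
          have h8 : (L : ℝ) ^ (3 * (j + 1 + 1)) = L * (L : ℝ) ^ (3 * j + 5) := by ring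
          rw [h8]
          exact mul_le_mul_of_nonneg_right hLr (by positivity)
        exact h3.trans h7

end Pool.Agent.OmegaQS
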