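import Pool.Agent.Work.MP_814647_an.QS.Defs

/-!
# Closing returns without perturbation: the items

All statements are in the form: for all sufficiently large natural numbers `L` the estimates
`...OK M A f L` hold; so finitely many of them can be combined with `filter_upwards` (every one of
the properties MetOK, U1OK, ItOK, LipOK only becomes weaker when `L` grows; GaOK, PertOK, G1OK,
G3OK, G4OK too).
-/

set_option autoImplicit false

open Set Filter Topology Function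
open scoped Manifold ContDiff

noncomputable section

namespace Pool.Agent.OmegaQS

open Pool.Agent.OmegaStab (EE Dyn inCharts crTopology crSet HypLin HypAt)
open Pool.Agent.OmegaStability (ClosedManifold CrDiffeo IsComplexEigenvalue IsMultiplier
  derivativeAt HasBilipschitzCharts OmegaStable ClosesReturns)

universe u

/-! ### Linear algebra -/

/-- Item Eh, eigenvalue basics. Proof: take `v`, `w` from `HypLin` (`μ = cos θ + i sin θ` has
norm one; conversely a complex number of norm one is `cos θ + i sin θ` with `θ = Complex.arg μ`);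
the second part transports `v`, `w` by `T`. -/
def StEh : Prop :=
  ∀ (d : ℕ) (D : EE d →L[ℝ] EE d),
    (HypLin D ↔ ∀ μ : ℂ, IsComplexEigenvalue D μ → ‖μ‖ ≠ 1) ∧
    ∀ (D' : EE d →L[ℝ] EE d) (T : EE d ≃L[ℝ] EE d), (∀ v, D' v = T (D (T.symm v))) →
      ∀ μ : ℂ, IsComplexEigenvalue D' μ ↔ IsComplexEigenvalue D μ

/-- Item Gp. If `(1 + s) D` has no eigenvalue of modulus one for `|s| ≤ ε` then the moduli of the
eigenvalues of `D` are `ε / 2` away from one. Proof: if `|‖μ‖ - 1| < ε / 2 ≤ 1 / 2` put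
`s = 1 / ‖μ‖ - 1`; then `|s| = |1 - ‖μ‖| / ‖μ‖ < (ε / 2) / (1 - ε / 2) ≤ ε`, and `(1 + s) D` has
the eigenvalue `μ / ‖μ‖` of modulus one (same `v`, `w`): contradiction to StEh (or directly to
`HypLin` with `θ = arg μ`). -/
def StGp : Prop :=
  ∀ (d : ℕ) (D : EE d →L[ℝ] EE d) (ε : ℝ), 0 < ε → ε ≤ 1 →
    (∀ s : ℝ, |s| ≤ ε → HypLin ((1 + s) • D)) →
      ∀ μ : ℂ, IsComplexEigenvalue D μ → ε / 2 ≤ |‖μ‖ - 1|

/-- Item Iv, bound of the inverse of `D - 1`. Proof: let `B` be the matrix of `D - 1` in the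
standard basis of `EE d` (the bijection with `Matrix (Fin d) (Fin d) ℝ`, for example
`(D - 1).toLinearMap` and `Matrix.toLin`/`LinearMap.toMatrix` for `EuclideanSpace.basisFun`); all
entries satisfy `|B i j| ≤ ‖D - 1‖ ≤ 1 + P` and `1 ≤ 1 + P`. By `Matrix.det_le` and
`Matrix.adjugate_apply` (the adjugate entries are determinants of matrices with entries bounded by
`1 + P`) `|adjugate B i j| ≤ d! (1 + P) ^ d`. `Matrix.adjugate_mul` gives
`det B • v = adjugate B *ᵥ (B *ᵥ v)`, so `|det B| ‖v‖ ≤ C (1 + P) ^ d ‖D v - v‖` with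
`C = d ^ 2 d! + 1` (say). Finally `|det B| = |det (1 - A)| = |charpoly A (1)|`, `A` the matrix
of `D`; over `ℂ` the charpoly is the product of the `X - μ_i` over its `d` roots
(`Matrix.charpoly` monic of degree `d`, `IsAlgClosed.splits`,
`Polynomial.eval_eq_prod_roots_of_monic_of_splits_id` or similar), every root `μ_i` is an
eigenvalue: `det (μ - A) = 0` over `ℂ` gives `x ≠ 0` in `ℂ^d` with `A x = μ x`
(`Matrix.exists_mulVec_eq_zero_iff`), take `v = Re x`, `w = Im x`; and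
`|1 - μ_i| ≥ |‖μ_i‖ - 1| ≥ ε`. So `|det B| ≥ ε ^ d`. -/
def StIv : Prop :=
  ∀ d : ℕ, ∃ C : ℝ, 1 ≤ C ∧ ∀ (D : EE d →L[ℝ] EE d) (ε P : ℝ), 0 < ε → ‖D‖ ≤ P →
    (∀ μ : ℂ, IsComplexEigenvalue D μ → ε ≤ |‖μ‖ - 1|) →
      ∀ v : EE d, ‖v‖ * ε ^ d ≤ C * (1 + P) ^ d * ‖D v - v‖

/-- Item Pw, eigenvalues of powers. Proof: let `A` be the real matrix of `D`, `Aℂ` its
complexification. `IsComplexEigenvalue D μ` iff there is `x ≠ 0` in `Fin d → ℂ` with
`Aℂ *ᵥ x = μ • x` (`x = v + i w`), iff `μ ∈ spectrum ℂ Aℂ` (`Matrix.exists_mulVec_eq_zero_iff`).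
Then use `spectrum.map_pow_of_pos` (the spectrum of `Aℂ ^ a` is the set of the `a`-th powers) and
that the matrix of `D ^ a` is `A ^ a`. -/
def StPw : Prop :=
  ∀ (d a : ℕ) (D : EE d →L[ℝ] EE d) (μ : ℂ), 1 ≤ a → IsComplexEigenvalue (D ^ a) μ →
    ∃ ν : ℂ, IsComplexEigenvalue D ν ∧ ν ^ a = μ

/-! ### Newton's method -/

/-- Item Nw. Proof: `Φ w = G w - w` has the derivative `fderiv G w - 1`; `A = fderiv G a - 1` is
injective by the hypothesis, hence invertible (finite dimension), with `‖A⁻¹‖ ≤ B`. On the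
ball of radius `ρ` about `a` the map `Φ - A` is Lipschitz with constant `Λ ρ ≤ 1 / (2 B)`
(mean value inequality on the convex ball, `Convex.norm_image_sub_le_of_norm_fderiv_le`).
So `ApproximatesLinearOn Φ A (closedBall a ρ) (1 / (2 B))`, and
`ApproximatesLinearOn.surjOn_closedBall_of_nonlinearRightInverse` with `ε = 2 B ‖G a - a‖ ≤ ρ`
gives `w` in the closed ball of radius `2 B ‖G a - a‖` with `Φ w = 0`
(or: the contraction `w ↦ w - A⁻¹ Φ w` with constant `1 / 2` maps this closed ball into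
itself). -/
def StNw : Prop :=
  ∀ (d : ℕ) (G : EE d → EE d) (a : EE d) (R P Λ B ρ : ℝ), C11 G a R P Λ → 0 ≤ Λ → 0 < B →
    0 < ρ → ρ < R → 2 * B * Λ * ρ ≤ 1 → (∀ v, ‖v‖ ≤ B * ‖fderiv ℝ G a v - v‖) →
    2 * B * ‖G a - a‖ ≤ ρ → ∃ w, ‖w - a‖ ≤ 2 * B * ‖G a - a‖ ∧ G w = w

/-- Item Ni. Proof: with `Φ` and `A` as in Nw and `Φ a = 0`,
`‖Φ w - A (w - a)‖ ≤ Λ ρ ‖w - a‖ ≤ ‖w - a‖ / (2 B)` and `‖A (w - a)‖ ≥ ‖w - a‖ / B`. -/
def StNi : Prop :=
  ∀ (d : ℕ) (G : EE d → EE d) (a : EE d) (R P Λ B ρ : ℝ), C11 G a R P Λ → 0 ≤ Λ → 0 < B →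
    0 < ρ → ρ < R → 2 * B * Λ * ρ ≤ 1 → (∀ v, ‖v‖ ≤ B * ‖fderiv ℝ G a v - v‖) →
    G a = a → ∀ w, ‖w - a‖ ≤ ρ → ‖w - a‖ ≤ 2 * B * ‖G w - w‖

/-! ### The charts -/

/-- Item At, a finite atlas. Proof: every `x` has a compact neighbourhood `C x` contained in
the chart domain at `x` (`exists_compact_subset`, `isOpen_extChartAt_source`; `M` is locally
compact as a compact Hausdorff space). By compactness of `M` finitely many of the interiors cover
`M`; the Lebesgue number lemma (`lebesgue_number_lemma_of_metric`) gives `δ`. (If `M` is empty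
take `m = 0`, `δ = 1`.) -/
def StAt : Prop := ∀ M : ClosedManifold.{u}, Nonempty (Atl M)

/-- Item Mt, comparison of the metric and the charts. Proof: it suffices to find, for every `i`,
`L₀` such that the properties `inv` and `fwd` hold for all `L ≥ L₀` (they become weaker when `L`
grows). Fix `i`; write `φ` for the chart and `K` for the compact set. For `x ∈ K` the hypothesis
gives a constant `L x` and a neighbourhood of `x`, which contains the ball of radius `2 r x`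
about `x` (which we also take inside the chart domain); cover `K` by finitely many balls of
radius `r x_l` about `x_l`, and let `ρ` be the minimum of the `r x_l`, `Lm` the maximum of the
`L x_l`. For `x ∈ K` and `dist x y < ρ` both points are in one of the balls of radius `2 r x_l`, so
`‖φ y - φ x‖ ≤ Lm dist x y` and `dist x y ≤ Lm ‖φ y - φ x‖`. This gives `fwd`. For `inv` we need
`ρ' > 0` such that for `x ∈ K` and `‖w - φ x‖ < ρ'`: `w ∈ target` and `dist x (φ.symm w) < ρ`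
(then apply the previous inequality to `y = φ.symm w`, `φ y = w`). `φ '' K` is compact in the
open set `target`, so some closed thickening `C` of it is a compact subset of `target`
(`IsCompact.exists_cthickening_subset_open`), and `φ.symm` is uniformly continuous on `C`
(`IsCompact.uniformContinuousOn_of_continuous`, `continuousOn_extChartAt_symm`). -/
def StMt : Prop :=
  ∀ M : ClosedManifold.{u}, HasBilipschitzCharts M → ∀ A : Atl M,
    ∀ᶠ L : ℕ in atTop, MetOK M A L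

/-- Item U1, one step. Proof: fix `i`, `i'` (finitely many). The set
`C = {x ∈ K i | g x ∈ K i'}` is compact; `φ '' C` (`φ` the chart at `q i`) is a compact subset of
the open set `chartDom (q i) (q i') g` (Charts.lean: `isOpen_chartDom`, `mem_chartDom`), so a
closed thickening of radius `2 ρ > 0` of it is still a compact subset `C'` of it
(`IsCompact.exists_cthickening_subset_open`). `G = ic (q i) (q i') g` is `C^2` on the open set
`chartDom` (`contDiffOn_inCharts` with `r = 2`), so `fderiv G` is `C^1` there, and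
`‖fderiv G‖`, `‖fderiv (fderiv G)‖` are bounded on the compact set `C'`. For `x ∈ C` the ball
of radius `ρ` about `φ x` is contained in `C'` and convex; the mean value inequality gives the
Lipschitz bound of `fderiv G`. Take `L ≥ 1 / ρ` and `L ≥` the bounds. -/
def StU1 : Prop :=
  ∀ (M : ClosedManifold.{u}) (A : Atl M) (g : M.carrier → M.carrier),
    ContMDiff (𝓡 M.dim) (𝓡 M.dim) 2 g → ∀ᶠ L : ℕ in atTop, U1OK M A g L

/-- Item It, iterates. Proof by induction on `j` for a fixed `L ≥ 2` for which both U1OK hold.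
`j = 0`: U1OK for `id` (`f^[0] = id`, `L ≤ L ^ 3`, `(1 / L) ^ 1 = 1 / L`). Step `j → j + 1`:
`f^[j+1] = f^[j] ∘ f`; choose `i₁` with `f x ∈ K i₁` (`A.cov`, `Metric.mem_ball_self`). On the ball
of radius `(1 / L) ^ (j + 2) ≤ 1 / L` about `φ x` the map `G₁ = ic (q i) (q i₁) f` is defined and
Lipschitz with constant `L` (convex ball, derivative bounded by `L`), so it maps this ball into
the ball of radius `(1 / L) ^ (j + 1)` about `φ₁ (f x) = G₁ (φ x)`, on which the induction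
hypothesis for `f x`, `i₁`, `i'` applies to `G₂ = ic (q i₁) (q i') f^[j]`. There
`ic (q i) (q i') f^[j+1] = G₂ ∘ G₁` (`inCharts_comp`), on an open ball, so the derivative is
`fderiv G₂ (G₁ w) ∘ fderiv G₁ w`, of norm `≤ L ^ (j + 1) * L`; and the difference at `w`, `w'` is at
most `L ^ (3 (j + 1)) * (L ‖w - w'‖) * L + L ^ (j + 1) * L ‖w - w'‖ ≤ 2 L ^ (3 j + 5) ‖w - w'‖
≤ L ^ (3 (j + 2)) ‖w - w'‖`. -/
def StIt : Prop :=
  ∀ (M : ClosedManifold.{u}) (A : Atl M) (f : M.carrier → M.carrier),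
    (∀ᶠ L : ℕ in atTop, U1OK M A f L) → (∀ᶠ L : ℕ in atTop, U1OK M A id L) →
      ∀ᶠ L : ℕ in atTop, ItOK M A f L

/-- Item Lp. Proof: take `L ≥ 2` with MetOK and U1OK for `g`. If `dist x y < 1 / L ^ 3`: choose
`i`, `i'` with `x ∈ K i`, `g x ∈ K i'`; `‖φ y - φ x‖ ≤ L dist x y < 1 / L ^ 2 ≤ 1 / L` (`fwd`), so by
the mean value inequality on the ball of radius `1 / L` about `φ x`
`‖φ' (g y) - φ' (g x)‖ ≤ L ^ 2 dist x y < 1 / L` (`ic` at `φ y` is `φ' (g y)`, `y` is in the chart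
domain, and so is `g y` by U1OK), and `inv` at `g x`, `w = φ' (g y)` gives
`dist (g x) (g y) ≤ L ^ 3 dist x y`. If `dist x y ≥ 1 / L ^ 3` then
`dist (g x) (g y) ≤ diam M ≤ diam M * L ^ 3 * dist x y` (`Metric.diam univ`, `M` compact,
`Metric.dist_le_diam_of_mem`). So every natural number `≥ max (L ^ 3) (diam M * L ^ 3)` will do. -/
def StLp : Prop :=
  ∀ (M : ClosedManifold.{u}) (A : Atl M) (g : M.carrier → M.carrier),
    (∀ᶠ L : ℕ in atTop, MetOK M A L) → (∀ᶠ L : ℕ in atTop, U1OK M A g L) →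
      ∀ᶠ L : ℕ in atTop, LipOK M.carrier g L

/-- Item Cc, change of charts at a fixed point of `f^n`. Proof: `derivativeAt` is
`OmegaStab.der`, and `der_eq_fderiv` (FinHyp.lean) says
`der f^[n] x = fderiv (ic x x f^[n]) (ch x x)`. Let `τ = ic x q id` and `τ' = ic q x id`, the chart
changes, mutually inverse near `ch x x` and `ch q x`, smooth there (`contDiffAt_inCharts` for the
identity diffeomorphism, or `contDiffOn_inCharts`); near `ch q x` one has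
`ic q q f^[n] = τ ∘ ic x x f^[n] ∘ τ'` (as `f^[n] x = x` is in both chart domains). The chain rule
gives the claim with `T = fderiv τ (ch x x)`, `T.symm = fderiv τ' (ch q x)`
(`ContinuousLinearEquiv.equivOfInverse`). Differentiability of `ic x x f^[n]`:
`contDiffAt_inCharts_iterate` (Bd/B05.lean). -/
def StCc : Prop :=
  ∀ (M : ClosedManifold.{u}) (r : ℕ∞) (f : CrDiffeo M r) (q x : M.carrier) (n : ℕ), 1 ≤ r →
    f^[n] x = x → x ∈ (ch M q).source → ∃ T : EM M ≃L[ℝ] EM M,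
      ∀ v, fderiv ℝ (ic M q q f^[n]) (ch M q x) v = T (derivativeAt f^[n] x (T.symm v))

/-! ### The perturbation -/

/-- Item Sb, the scaled bump is jointly `C^m`. Proof: more generally, for a smooth compactly
supported `γ : E → F` (`F` a normed space; `E` finite-dimensional or just `γ` and its derivatives
bounded) put `S_m[γ] (τ, w) = τ ^ (m + 1) • γ (τ⁻¹ w)` for `0 < τ` and `0` else. Claim:
`ContDiff ℝ m S_m[γ]` by induction on `m`, for all `F` and `γ`. `m = 0`: continuity: clear at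
points with `τ ≠ 0`; at `τ = 0` from `‖S_0[γ] (τ, w)‖ ≤ |τ| sup ‖γ‖`. Step: `S_{m+1}[γ]` has at
every point the derivative `S_m[γ']`, where
`γ' z (s, h) = s ((m + 2) γ z - Dγ z z) + Dγ z h`, a smooth compactly supported function with
values in `(ℝ × E) →L[ℝ] F`: for `τ > 0` by the chain rule, for `τ < 0` both vanish near the
point, and for `τ = 0` because `‖S_{m+1}[γ] (τ, w)‖ ≤ |τ| ^ (m + 2) sup ‖γ‖` and `m + 2 ≥ 2`. Use
`contDiff_succ_iff_hasFDerivAt`. (Universe: keep `F : Type`; `(ℝ × E) →L[ℝ] F` is again in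
`Type`.) -/
def StSb : Prop :=
  ∀ (d m : ℕ) (β : EE d → ℝ), ContDiff ℝ ∞ β → HasCompactSupport β →
    ContDiff ℝ m (fun z : ℝ × EE d => sb m β z.1 z.2)

/-- Item Hb. Proof: `H w = w + g w`, `g w = τ ^ (m + 1) (β z • v + (s τ) • (β z • z))`,
`z = τ⁻¹ (w - b)`. `β` and `z ↦ β z • z` are smooth with compact support, hence Lipschitz with
constants `C₀`, `C₁` (see `gg_lip` in Family.lean), so `g` is Lipschitz with constant
`τ ^ m (2 C₀ + 2 τ C₁) ≤ τ (2 C₀ + 2 C₁) ≤ 1 / 2` for small `τ ≤ 1` (as `1 ≤ m`). `g` is smooth and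
vanishes outside the closed ball of radius `τ` about `b`. Then `Fam.exists_inv` and
`Fam.supp_of` (Family.lean). -/
def StHb : Prop :=
  ∀ (d m : ℕ) (β : ContDiffBump (0 : EE d)), 1 ≤ m → β.rIn = 1 / 2 → β.rOut = 1 →
    ∃ τ₀ : ℝ, 0 < τ₀ ∧ ∀ (b v : EE d) (τ s : ℝ), 0 < τ → τ ≤ τ₀ → ‖v‖ ≤ 2 → |s| ≤ 2 →
      ∃ G : EE d → EE d, ContDiff ℝ ∞ (Hf m β (b, τ, v, s)) ∧ ContDiff ℝ ∞ G ∧
        OmegaStab.Fam.Supp (Metric.closedBall b τ) (Hf m β (b, τ, v, s)) ∧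
        OmegaStab.Fam.Supp (Metric.closedBall b τ) G ∧
        (∀ w, G (Hf m β (b, τ, v, s) w) = w) ∧ ∀ w, Hf m β (b, τ, v, s) (G w) = w

/-- Item Ts: families converge in the subbasic open sets of order `k ≤ m`. Proof: a copy of
the proof of `IsFam.tendsto` (CrTendsto.lean = Bd/B04.lean), with regularity `k` instead of `r`:
the map `(p, z) ↦ T q (H p) z` is `ContMDiffOn` of class `m` on `U₀ ×ˢ univ`
(`Fam.T_contMDiffOn` with `r := m`; take `.of_le` to get class `k`), it is the identity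
for `p = p₀`, and `f` is of class `k ≤ r`. As in `contDiffAt_fam` the map
`(p, w) ↦ inCharts x y (T q (H p) ∘ f) w` is `ContDiffAt` of class `k` at `(p₀, ch x z)` for
`z ∈ K`; by `CrT.continuousAt_slice` its `k`-th derivative in `w` is jointly continuous;
`IsCompact.eventually_forall_of_forall_eventually` over `K`. For `ψ` with `ψ z = T q (H p) z`
the function `inCharts x y (f.trans ψ)` is `inCharts x y (T q (H p) ∘ f)`. -/
def StTs : Prop :=
  ∀ (M : ClosedManifold.{u}) (r : ℕ∞) (f f0 : CrDiffeo M r) (x y : M.carrier)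
    (K : Set M.carrier) (k m : ℕ) (ε : ℝ), k ≤ m → (k : ℕ∞) ≤ r → IsCompact K →
    K ⊆ (ch M x).source → (∀ z ∈ K, f0 z ∈ (ch M y).source) → 0 < ε →
    f ∈ crSet (d := M.dim) f0 x y K k ε →
    ∀ (V : Type) [NormedAddCommGroup V] [NormedSpace ℝ V] (q : M.carrier) (p₀ : V)
      (H : V → EM M → EM M), LFam M q m p₀ H →
      ∀ᶠ p in 𝓝 p₀, ∀ ψ : CrDiffeo M r, (∀ z, ψ z = OmegaStab.Fam.T (d := M.dim) q (H p) z) →
        f.trans ψ ∈ crSet (d := M.dim) f0 x y K k ε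

/-- Item Td: the same for an open set. Proof: `N` is generated by the subbasic sets: there is a
finite set of subbasic sets containing `f` whose intersection is contained in `N`
(`TopologicalSpace.nhds_generateFrom`, `mem_biInf_principal`..., or induction on
`TopologicalSpace.GenerateOpen`: for `basic` the order is `k`, for `univ` it is `0`, for `inter`
the maximum, for `sUnion` the one of the member which contains `f`). Let `m₀` be the maximum of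
the orders and apply StTs; finite intersections of eventually true statements are eventually
true. The induction on GenerateOpen is the easiest. -/
def StTd : Prop :=
  ∀ (M : ClosedManifold.{u}) (r : ℕ∞) (f : CrDiffeo M r) (N : Set (CrDiffeo M r)),
    IsOpen[crTopology M.dim M.carrier r] N → f ∈ N → ∃ m₀ : ℕ, ∀ m : ℕ, m₀ ≤ m →
      ∀ (V : Type) [NormedAddCommGroup V] [NormedSpace ℝ V] (q : M.carrier) (p₀ : V)
        (H : V → EM M → EM M), LFam M q m p₀ H →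
        ∀ᶠ p in 𝓝 p₀, ∀ ψ : CrDiffeo M r,
          (∀ z, ψ z = OmegaStab.Fam.T (d := M.dim) q (H p) z) → f.trans ψ ∈ N

/-- Item Pe, uniform perturbations. Proof: let `m₀` be from StTd, `m = m₀ + 1`, `k = m + 1`, `β`
a bump function with `rIn = 1 / 2`, `rOut = 1`, `τ₀` from StHb, `H = Hf m β`,
`V = E × ℝ × E × ℝ`. Fix `i` (finitely many), `q = A.q i`, `φ` its chart, and `ρ > 0` such that the
closed thickening `C` of radius `ρ` of the compact set `φ '' K i` is a compact subset of the target.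
(1) For `b₀ ∈ C`, `‖v₀‖ ≤ 1`, `|s₀| ≤ 1` the family `H` satisfies
`LFam M q m (b₀, 0, v₀, s₀) H`: choose `R₀ > 0` with `closedBall b₀ R₀ ⊆ target`,
`K₀ = closedBall b₀ R₀`, `U₀` = the set of `(b, τ, v, s)` with `‖b - b₀‖ < R₀ / 2`,
`τ < min τ₀ (R₀ / 2)` (`τ` may be negative), `‖v‖ < 2`, `|s| < 2`; for `τ ≤ 0` the map `H p` is
the identity, for `τ > 0` use StHb and `closedBall b τ ⊆ K₀` (`Supp` for a smaller set gives
`Supp` for a larger one). Joint smoothness: StSb composed with the linear map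
`(p, w) ↦ (p.2.1, w - p.1)`, and a product. (2) So by StTd the property
`Q p : ∀ ψ, (∀ z, ψ z = T q (H p) z) → f.trans ψ ∈ N` holds for `p` near `(b₀, 0, v₀, s₀)`; by
compactness of `C × closedBall 0 1 × [-1, 1]`
(`IsCompact.eventually_forall_of_forall_eventually`) there is `τ₁ > 0` such that `Q (b, τ, v, s)`
holds for all `0 < τ < τ₁` and all `(b, v, s)` in this compact set. (3) Let
`1 / L < min τ₁ τ₀, ρ` and `closedBall b σ ⊆ target` for `b ∈ C'`, the thickening of radius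
`1 / L` (take `2 / L ≤ ρ`: the ball is inside `C`). Given `b`, `v`, `s`, `σ` as in PertOK put
`v' = v / σ ^ k`, `s' = s / σ ^ k` (norms `≤ 1`), `p = (b, σ, v', s')`. StHb and `Fam.exists_TD`
(with `K = closedBall b σ`) give `ψ : CrDiffeo M r` with `ψ z = T q (H p) z` (smooth of class
`∞`, so of class `r`); `f.trans ψ ∈ N` by (2); `Fam.T_eq_self` gives `ψ y = y` off the
support; and for `w` in the ball of radius `σ / 2` about `b` the bump is `1`
(`ContDiffBump.one_of_mem_closedBall`), `H p w = w + σ ^ k (v' + s' (w - b)) = w + v + s (w - b)`,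
which is in `closedBall b σ ⊆ target` by `Supp`, and `T q (H p) (φ.symm w) = φ.symm (H p w)`
(`Fam.T_of_mem`). -/
def StPe : Prop :=
  ∀ (M : ClosedManifold.{u}) (r : ℕ∞) (f : CrDiffeo M r) (N : Set (CrDiffeo M r)),
    IsOpen[crTopology M.dim M.carrier r] N → f ∈ N → ∀ A : Atl M, ∃ k : ℕ,
      ∀ᶠ L : ℕ in atTop, PertOK M A f N k L

/-! ### The gap -/

/-- Item Go, the perturbed orbit. Put `g = f.trans ψ`, so `g y = ψ (f y)`, and `b = ch q (f^[j] x)`,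
`a = ch q x`. Proof: for `y` near `x` and `0 < m < j` one has `f^[m] y ∉ S` (`S` closed), so
`g^[m] y = f^[m] y` for `m < j` (`exists_nhds_iterate_eq`, `iterate_eq_of_agree` in Bd/B05.lean)
and `g^[j] y = ψ (f^[j] y)`. With `y = x`: `ψ (f^[j] x) = ch.symm (b + v + 0) = ch.symm a = x`. The
minimal period is `j` because `g^[m] x = f^[m] x ≠ x` for `0 < m < j`. Near `a`:
`ic q q g^[j] w = G w + v + s (G w - b)`, where `G = ic q q f^[j]` (as `G w` is near `b` and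
`ch.symm (G w) = f^[j] (ch.symm w)`, `ch (ch.symm ·)` is the identity on the target); `G` is
differentiable at `a` (`contDiffAt_inCharts_iterate`), so the derivative at `a` is
`(1 + s) DG a`. -/
def StGo : Prop :=
  ∀ (M : ClosedManifold.{u}) (r : ℕ∞) (f ψ : CrDiffeo M r) (q x : M.carrier) (j : ℕ)
    (S : Set M.carrier) (v : EM M) (s : ℝ), 1 ≤ r → 1 ≤ j → x ∈ (ch M q).source →
    f^[j] x ∈ (ch M q).source → IsClosed S → (∀ y ∉ S, ψ y = y) →
    (∀ m, 0 < m → m < j → f^[m] x ∉ S) → (∀ m, 0 < m → m < j → f^[m] x ≠ x) →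
    ch M q (f^[j] x) + v = ch M q x →
    (∀ᶠ w in 𝓝 (ch M q (f^[j] x)), w + v + s • (w - ch M q (f^[j] x)) ∈ (ch M q).target ∧
      ψ ((ch M q).symm w) = (ch M q).symm (w + v + s • (w - ch M q (f^[j] x)))) →
    (f.trans ψ)^[j] x = x ∧ minimalPeriod (f.trans ψ) x = j ∧
      fderiv ℝ (ic M q q (f.trans ψ)^[j]) (ch M q x) =
        (1 + s) • fderiv ℝ (ic M q q f^[j]) (ch M q x)

/-- Item Ga, no eigenvalues of modulus near one. Proof: let `L₀ ≥ 2` be such that MetOK and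
PertOK hold for `L₀`; we show GaOK for all `L ≥ 4 L₀ ^ 2`. Let `φ` be the chart at `q i`,
`a = φ x`, `b = φ (f^[j] x)`, `σ' = σ / (4 L₀)`, `v = a - b`. As
`dist x (f^[j] x) ≤ (σ / L) ^ (k + 1) ≤ σ / L < 1 / L₀`, `fwd` gives
`‖v‖ ≤ L₀ (σ / L) ^ (k + 1)`, which is `≤ (σ / (4 L₀)) ^ k = σ' ^ k` (as `L₀ (σ / L) ≤ 1` and
`L ≥ 4 L₀`), `≤ L₀ σ / L ≤ σ' ≤ 1 / L₀`; also `|s| ≤ (σ / L) ^ k ≤ σ' ^ k`. PertOK gives `ψ`. Let
`S = φ.symm '' closedBall b σ'`, closed (compact image). For `y = φ.symm w ∈ S`: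
`‖w - a‖ ≤ σ' + ‖v‖ ≤ 2 σ' < 1 / L₀`, so `dist x y ≤ 2 L₀ σ' = σ / 2`; hence `f^[m] x ∉ S` and
`f^[m] x ≠ x` for `0 < m < j`. StGo applies: `g = f.trans ψ ∈ N` has the periodic point `x` of
minimal period `j`, so `HypAt g x` says that `fderiv (ic x x g^[j]) (ch x x)` is `HypLin`; by
`StCc` (for `g`, `der_eq_fderiv`) and StEh the conjugate
`fderiv (ic q q g^[j]) a = (1 + s) • fderiv (ic q q f^[j]) a` is `HypLin`. -/
def StGa : Prop :=
  ∀ (M : ClosedManifold.{u}) (A : Atl M) (r : ℕ∞) (f : CrDiffeo M r) (N : Set (CrDiffeo M r))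
    (k : ℕ), 1 ≤ r → (∀ g ∈ N, ∀ p ∈ periodicPts g, HypAt (d := M.dim) g p) →
    (∀ᶠ L : ℕ in atTop, MetOK M A L) → (∀ᶠ L : ℕ in atTop, PertOK M A f N k L) →
      ∀ᶠ L : ℕ in atTop, GaOK M A f k L

/-- Item G1, closing without intermediate returns. Proof: `d = M.dim`, `C` from StIv,
`β = 1 + (k + 4) d`, `e = β + 5 + k`; `L ≥ max C 8` with MetOK, ItOK, GaOK. Let
`τ = σ / L ^ j`; then `τ ≤ 1 / L`, `τ ≤ σ / L`, `L ^ j ≤ 1 / τ`. Choose `i` with
`ball x δ ⊆ K i`; `dist x (f^[j] x) ≤ τ ^ (2 e) ≤ τ ^ 2 < 1 / L ≤ δ`, so `x`, `f^[j] x ∈ K i`. By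
GaOK (`τ ^ (2 e) ≤ (σ / L) ^ (k + 1)`) and StGp with `ε = (σ / L) ^ k` all eigenvalues of
`A = fderiv G a`, `G = ic (q i) (q i) f^[j]`, `a = φ x`, satisfy
`|‖μ‖ - 1| ≥ ε / 2 ≥ τ ^ (k + 1)`; `‖A‖ ≤ L ^ (j + 1)` (ItOK), `1 + L ^ (j + 1) ≤ L ^ (j + 2)
≤ τ⁻¹ ^ 3`; so StIv gives `‖v‖ ≤ B ‖A v - v‖` with `B = τ⁻¹ ^ β`. StNw with
`R = (1 / L) ^ (j + 1) ≥ τ ^ 2`, `Λ = L ^ (3 (j + 1)) ≤ τ⁻¹ ^ 6`, `ρ = τ ^ (β + 7)`:
`2 B Λ ρ ≤ 2 τ ≤ 1`, `ρ < R`, `2 B ‖G a - a‖ ≤ 2 τ⁻¹ ^ β L τ ^ (2 e) ≤ τ ^ (β + 7)`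
(`2 e ≥ 2 β + 10`, `L ≤ τ⁻¹`, `2 τ ≤ 1`). We get `w` with `G w = w`,
`‖w - a‖ ≤ 2 B ‖G a - a‖ ≤ 2 B L dist x (f^[j] x)`; `y = φ.symm w`: `f^[j] y` is in the chart
domain (ItOK) and `φ (f^[j] y) = G w = w = φ y`, so `f^[j] y = y`; and
`dist x y ≤ L ‖w - a‖ ≤ 2 L ^ 2 B dist x (f^[j] x) ≤ τ⁻¹ ^ (β + 3) dist x (f^[j] x)`. -/
def StG1 : Prop :=
  ∀ (M : ClosedManifold.{u}) (A : Atl M) (f : M.carrier → M.carrier) (k : ℕ),
    (∀ᶠ L : ℕ in atTop, MetOK M A L) → (∀ᶠ L : ℕ in atTop, ItOK M A f L) →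
    (∀ᶠ L : ℕ in atTop, GaOK M A f k L) → ∃ e : ℕ, ∀ᶠ L : ℕ in atTop, G1OK M.carrier f e L

/-- Item G3, multipliers. Proof: `e = k + 1`, `L ≥ 2` with MetOK, GaOK. Choose `i` with
`ball y δ ⊆ K i`. GaOK at `y` (`dist y (f^[j] y) = 0`) and StGp with `ε = (σ / L) ^ k` give
`|‖ν‖ - 1| ≥ (σ / L) ^ k / 2 ≥ (σ / L) ^ (k + 1)` for the eigenvalues `ν` of
`fderiv (ic (q i) (q i) f^[j]) (φ y)`, and by StCc and StEh for those of
`derivativeAt f^[j] y = der f^[j] y`. If `n = j a` then `a ≥ 1` and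
`der f^[n] y = (der f^[j] y) ^ a` (`der_iter_mul` in FinHyp.lean), so StPw gives `μ = ν ^ a`
with such a `ν`; and `|‖ν‖ ^ a - 1| ≥ |‖ν‖ - 1|` (`t ^ a ≥ t ≥ 1` or `t ^ a ≤ t ≤ 1`). -/
def StG3 : Prop :=
  ∀ (M : ClosedManifold.{u}) (A : Atl M) (r : ℕ∞) (f : CrDiffeo M r) (k : ℕ), 1 ≤ r →
    (∀ᶠ L : ℕ in atTop, MetOK M A L) → (∀ᶠ L : ℕ in atTop, GaOK M A f k L) →
      ∃ e : ℕ, ∀ᶠ L : ℕ in atTop, G3OK M f e L

/-- Item G4, displacement. Proof: `d = M.dim`, `C` from StIv, `β = 1 + 4 d`, `e = β + 9`,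
`L ≥ max C 8` with MetOK, ItOK, LipOK. Let `τ = ε / L ^ n`; `τ ≤ 1 / L`, `τ ≤ ε`,
`L ^ n ≤ τ⁻¹`. Choose `i` with `ball y δ ⊆ K i`; `dist x y ≤ τ ^ e ≤ τ ^ 2 < 1 / L ≤ δ`, so `x`,
`y = f^[n] y ∈ K i`. `G = ic (q i) (q i) f^[n]`, `a = φ y`, `A = fderiv G a`: by StCc and StEh its
eigenvalues are the multipliers, `‖A‖ ≤ L ^ (n + 1)`, `1 + L ^ (n + 1) ≤ τ⁻¹ ^ 3`, so StIv
gives `‖v‖ ≤ B ‖A v - v‖`, `B = τ⁻¹ ^ β`. StNi with `R = (1 / L) ^ (n + 1) ≥ τ ^ 2`,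
`Λ = L ^ (3 (n + 1)) ≤ τ⁻¹ ^ 6`, `ρ = τ ^ (β + 7)`, `w = φ x`: `‖φ x - φ y‖ ≤ L dist y x
≤ τ ^ (e - 1) ≤ ρ`, so `‖φ x - φ y‖ ≤ 2 B ‖G (φ x) - φ x‖ = 2 B ‖φ (f^[n] x) - φ x‖`. As
`dist x (f^[n] x) ≤ (1 + L ^ n) dist x y < 1 / L`, `fwd` at `x ∈ K i` gives
`‖φ (f^[n] x) - φ x‖ ≤ L dist x (f^[n] x)`; and `dist x y ≤ L ‖φ y - φ x‖` (`inv` at `x` with
`w = φ y`). So `dist x y ≤ 2 L ^ 2 B dist x (f^[n] x) ≤ τ⁻¹ ^ (β + 3) dist x (f^[n] x)`. -/
def StG4 : Prop :=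
  ∀ (M : ClosedManifold.{u}) (A : Atl M) (r : ℕ∞) (f : CrDiffeo M r), 1 ≤ r →
    (∀ᶠ L : ℕ in atTop, MetOK M A L) → (∀ᶠ L : ℕ in atTop, ItOK M A f L) →
    (∀ᶠ L : ℕ in atTop, LipOK M.carrier f L) → ∃ e : ℕ, ∀ᶠ L : ℕ in atTop, G4OK M f e L

/-! ### Assembly -/

/-- Item Dv, a metric lemma. Proof: iterates: `dist (f^[m] x) (f^[m] y) ≤ L ^ m dist x y`. Let
`b = n % j`; `f^[n] y = f^[b] y`. If `0 < b` then
`dist x (f^[b] x) ≤ dist x (f^[n] x) + dist (f^[n] x) (f^[n] y) + dist (f^[b] y) (f^[b] x)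
≤ σ / 4 + 2 L ^ n dist x y ≤ σ / 2`, a contradiction. And
`dist y (f^[m] y) ≥ dist x (f^[m] x) - dist x y - L ^ m dist x y > σ - σ / 4`. -/
def StDv : Prop :=
  ∀ (X : Type u) [MetricSpace X] (f : X → X) (L : ℕ), 1 ≤ L → LipOK X f L →
    ∀ (n j : ℕ) (x y : X) (σ : ℝ), 1 ≤ j → j ≤ n → 0 < σ → f^[j] y = y →
    (∀ m, 0 < m → m < j → σ < dist x (f^[m] x)) → 8 * (L : ℝ) ^ n * dist x y ≤ σ →
    dist x (f^[n] x) ≤ σ / 4 →
      j ∣ n ∧ ∀ m, 0 < m → m < j → σ / 2 < dist y (f^[m] y)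

/-- Item Gs, the gap step. Proof: `e = 2 e₁ + 2 + (2 e₃ + 1) e₄ + 2 e₃`, `L ≥ 8` with all four
properties; `τ = σ / L ^ n ≤ 1 / 8`, `τ ≤ σ / L ^ j ≤ 1`. `dist x (f^[j] x) ≤ τ ^ e
≤ (σ / L ^ j) ^ (2 e₁)`, so G1OK gives `y` with `f^[j] y = y` and
`dist x y τ ^ e₁ ≤ dist x (f^[j] x) ≤ τ ^ e`, hence `dist x y ≤ τ ^ (e - e₁)`. Then
`8 L ^ n dist x y ≤ 8 σ τ ^ (e - e₁ - 1) ≤ σ` (`L ^ n τ = σ`), `dist x (f^[n] x) ≤ τ ^ e ≤ σ / 4`;
StDv gives `j ∣ n` (so `f^[n] y = y`) and `σ / 2 < dist y (f^[m] y)`. G3OK with `σ / 2`: the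
multipliers satisfy `|‖μ‖ - 1| ≥ (σ / (2 L)) ^ e₃ ≥ τ ^ (2 e₃) =: ε` (`σ / (2 L) ≥ σ / L ^ 2
≥ τ ^ 2`). G4OK with this `ε`: `ε / L ^ n ≥ τ ^ (2 e₃ + 1)`, so `dist x y ≤ τ ^ (e - e₁)
≤ (ε / L ^ n) ^ e₄`, and `dist x y τ ^ e ≤ dist x y (ε / L ^ n) ^ e₄ ≤ dist x (f^[n] x)`. If
`f^[n] z = z` and `dist y z ≤ τ ^ e ≤ (ε / L ^ n) ^ e₄` then G4OK with `z` in place of `x` gives
`dist z y (ε / L ^ n) ^ e₄ ≤ 0`, so `z = y`. -/
def StGs : Prop :=
  ∀ (M : ClosedManifold.{u}) (f : M.carrier → M.carrier) (e₁ e₃ e₄ : ℕ),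
    (∀ᶠ L : ℕ in atTop, LipOK M.carrier f L) → (∀ᶠ L : ℕ in atTop, G1OK M.carrier f e₁ L) →
    (∀ᶠ L : ℕ in atTop, G3OK M f e₃ L) → (∀ᶠ L : ℕ in atTop, G4OK M f e₄ L) →
      ∃ e : ℕ, 1 ≤ e ∧ ∀ᶠ L : ℕ in atTop, GsOK M f e L

/-- Item Sc, the scales. Proof: fix `n`, `x` and define `b 0 = 0`, `b (k + 1) = e (b k + 3 n)`,
`S k = (1 / L) ^ (b k)`. Then `S (k + 1) ≤ (S k / L ^ n) ^ e` and `2 L ^ n S (k + 1) ≤ S k`
(`e ≥ 1`, `L ≥ 2`, `n ≥ 1`). Claim, by induction on `m`: if `1 ≤ t ≤ n`, `t < 2 ^ m` and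
`dist x (f^[t] x) ≤ S (2 m)` then there are `k < 2 m` and `1 ≤ j ≤ n` with
`dist x (f^[j] x) ≤ S (k + 1)` and `S k < dist x (f^[i] x)` for `0 < i < j`. `m = 0` is void. Step:
let `t < 2 ^ (m + 1)`, `dist x (f^[t] x) ≤ S (2 m + 2)`. If `S (2 m + 1) < dist x (f^[i] x)` for all
`0 < i < t` take `j = t`, `k = 2 m + 1`. Otherwise some `0 < i < t` has
`dist x (f^[i] x) ≤ S (2 m + 1)`; then
`dist x (f^[t - i] x) ≤ dist x (f.symm^[i] x) + dist (f.symm^[i] x) (f^[t - i] x)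
≤ L ^ i dist (f^[i] x) x + L ^ i dist x (f^[t] x) ≤ 2 L ^ n S (2 m + 1) ≤ S (2 m)` (apply
`f.symm^[i]` to the pairs `(f^[i] x, x)` and `(x, f^[t] x)`), and also
`dist x (f^[i] x) ≤ S (2 m)`; the smaller one of `i`, `t - i` is `< 2 ^ m`, and the induction
hypothesis applies. Now use the claim with `m = Nat.log 2 n + 1`, `t = n`, and `σ = S k`,
`s = S (k + 1)`. Size: `b k ≤ 3 n (2 e) ^ k`, so with `k ≤ 2 m`:
`b k ≤ 12 e ^ 2 n (2 e) ^ (2 Nat.log 2 n) ≤ 12 e ^ 2 n (2 ^ Nat.log 2 n) ^ (4 e)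
≤ 12 e ^ 2 n ^ (4 e + 1)` (`2 e ≤ 2 ^ (2 e)`), and `(1 / L) ^ b = exp (- b log L)`, `log L ≤ L`. So
`K = 12 e ^ 2 L + 4 e + 1` will do: `exp (- K n ^ K) ≤ S (2 m) ≤ S (k + 1)`. -/
def StSc : Prop :=
  ∀ (e L : ℕ), 1 ≤ e → 2 ≤ L → ∃ K : ℕ, ∀ (X : Type u) [MetricSpace X] (f : X ≃ X),
    LipOK X f L → LipOK X f.symm L → ∀ (n : ℕ) (x : X), 1 ≤ n →
    dist x (f^[n] x) ≤ Real.exp (-(K * (n : ℝ) ^ K)) →
      ∃ (j : ℕ) (σ s : ℝ), 1 ≤ j ∧ j ≤ n ∧ 0 < σ ∧ σ ≤ 1 ∧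
        Real.exp (-(K * (n : ℝ) ^ K)) ≤ s ∧ s ≤ (σ / L ^ n) ^ e ∧
        (∀ m, 0 < m → m < j → σ < dist x (f^[m] x)) ∧ dist x (f^[j] x) ≤ s

/-- The theorem. Proof: `N` from OmegaStable, `hypAt_of_conjClass`; `A` from StAt; `k` from StPe;
all the eventual properties; `GsOK` for one large `L`, and StSc for this `e`, `L`. -/
def StFin : Prop :=
  ∀ (M : ClosedManifold.{u}), HasBilipschitzCharts M → ∀ r : ℕ∞, 2 ≤ r →
    ∀ f : CrDiffeo M r, OmegaStable f → ClosesReturns f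

end Pool.Agent.OmegaQS
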